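import Pool.Agent.H77.EA.Targets
import Pool.Agent.H3.AM.Core

/-!
# Equivariant Alperin–McKay (MP_657073_al): the induction
-/

open scoped Classical ComplexConjugate

set_option linter.unusedSectionVars false

namespace Pool.Agent.H77.EA

open AMc AMe

/-- the arithmetic of the step `q ≠ ℓ` -/
theorem arith {q f f' N : ℕ} {F F' : ℕ → ℕ} (hq : 2 ≤ q)
    (h : q * N + q * f = ∑ i ∈ Finset.range q, F i + q ^ 2 * f)
    (h' : q * N + q * f' = ∑ i ∈ Finset.range q, F' i + q ^ 2 * f')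
    (hF : ∀ i ∈ Finset.range q, F i = F' i ∨ (F i = f ∧ F' i = f')) : f = f' := by
  have key : ∀ {f f' : ℕ} {F F' : ℕ → ℕ},
      q * N + q * f = ∑ i ∈ Finset.range q, F i + q ^ 2 * f →
      q * N + q * f' = ∑ i ∈ Finset.range q, F' i + q ^ 2 * f' →
      (∀ i ∈ Finset.range q, F i = F' i ∨ (F i = f ∧ F' i = f')) → ¬ f < f' := by
    intro f f' F F' h h' hF hlt
    have hs : ∑ i ∈ Finset.range q, F i ≤ ∑ i ∈ Finset.range q, F' i := by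
      refine Finset.sum_le_sum fun i hi => ?_
      rcases hF i hi with h1 | ⟨h1, h2⟩
      · exact h1.le
      · rw [h1, h2]; exact hlt.le
    obtain ⟨d, rfl⟩ := Nat.exists_eq_add_of_lt hlt
    nlinarith [Nat.mul_le_mul_right (d + 1) (Nat.mul_le_mul_right q hq)]
  rcases lt_trichotomy f f' with hlt | heq | hlt
  · exact absurd hlt (key h h' hF)
  · exact heq
  · refine absurd hlt (key h' h fun i hi => ?_)
    rcases hF i hi with h1 | ⟨h1, h2⟩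
    · exact Or.inl h1.symm
    · exact Or.inr ⟨h2, h1⟩

section

variable {Γ : Type} [Group Γ]

theorem cj_mul (u v : Γ) (θ : Γ → ℂ) : cj (u * v) θ = cj v (cj u θ) := by
  funext g
  simp only [cj]
  congr 1
  group

theorem cj_one (θ : Γ → ℂ) : cj 1 θ = θ := by
  funext g
  simp [cj]

theorem nm_mul {u v : Γ} {N : Subgroup Γ} (hu : Nm u N) (hv : Nm v N) : Nm (u * v) N := by
  intro g
  have h1 : u * v * g * (u * v)⁻¹ = u * (v * g * v⁻¹) * u⁻¹ := by group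
  rw [h1, hu, hv]

theorem nm_one (N : Subgroup Γ) : Nm 1 N := by
  intro g
  simp

theorem nm_pow {u : Γ} {N : Subgroup Γ} (hu : Nm u N) (c : ℕ) : Nm (u ^ c) N := by
  induction c with
  | zero => rw [pow_zero]; exact nm_one N
  | succ c ih => rw [pow_succ]; exact nm_mul ih hu

theorem nm_inv {u : Γ} {N : Subgroup Γ} (hu : Nm u N) : Nm u⁻¹ N := by
  intro g
  have := hu (u⁻¹ * g * u⁻¹⁻¹)
  have h2 : u * (u⁻¹ * g * u⁻¹⁻¹) * u⁻¹ = g := by group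
  rw [h2] at this
  exact this.symm

theorem nm_of_mem {u : Γ} {N : Subgroup Γ} (hu : u ∈ N) : Nm u N := by
  intro g
  constructor
  · intro h
    have h2 := N.mul_mem (N.mul_mem (N.inv_mem hu) h) hu
    have h3 : u⁻¹ * (u * g * u⁻¹) * u = g := by group
    rwa [h3] at h2
  · intro h
    exact N.mul_mem (N.mul_mem hu h) (N.inv_mem hu)

theorem nm_of_normalizer {u : Γ} {N : Subgroup Γ} (hu : u ∈ Subgroup.normalizer (N : Set Γ)) :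
    Nm u N := fun g => ((Subgroup.mem_normalizer_iff.1 hu) g).symm

theorem normalizer_of_nm {u : Γ} {N : Subgroup Γ} (hu : Nm u N) :
    u ∈ Subgroup.normalizer (N : Set Γ) := Subgroup.mem_normalizer_iff.2 fun g => (hu g).symm

theorem nm_inf {u : Γ} {N M : Subgroup Γ} (h : Nm u N) (h' : Nm u M) : Nm u (N ⊓ M) := by
  intro g
  rw [Subgroup.mem_inf, Subgroup.mem_inf, h g, h' g]

variable [Fintype Γ] {F : Type} [Field F] {π : integralClosure ℤ ℂ →+* F}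

theorem cj_of_mem (hS1 : T_S1) {N : Subgroup Γ} {θ : Γ → ℂ} (hθ : θ ∈ IrrS N) {u : Γ}
    (hu : u ∈ N) : cj u θ = θ := by
  funext g
  exact (hS1 Γ N θ hθ).2.1 u hu g

theorem cj_mem (hS7 : T_S7) {N : Subgroup Γ} {u : Γ} (h : Nm u N) {θ : Γ → ℂ}
    (hθ : θ ∈ IrrS N) : cj u θ ∈ IrrS N := hS7 Γ N N u (fun g => (h g).symm) θ hθ

theorem over_cj {χ θ : Γ → ℂ} (u : Γ) (h : Over χ θ) : Over (cj u χ) (cj u θ) := by
  unfold Over at *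
  have h1 : ∑ g, cj u χ g * (starRingEnd ℂ) (cj u θ g) = ∑ g, χ g * (starRingEnd ℂ) (θ g) := by
    refine Fintype.sum_equiv (MulAut.conj u).toEquiv _ _ fun g => ?_
    simp [cj, MulAut.conj_apply]
  rw [h1]
  exact h

theorem blk_refl (K : Subgroup Γ) (θ : Γ → ℂ) : Blk π K θ θ := fun _ _ => rfl

theorem blk_symm {K : Subgroup Γ} {θ θ' : Γ → ℂ} (h : Blk π K θ θ') : Blk π K θ' θ :=
  fun z hz => (h z hz).symm

theorem blk_trans {K : Subgroup Γ} {θ θ' θ'' : Γ → ℂ} (h : Blk π K θ θ') (h' : Blk π K θ' θ'') :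
    Blk π K θ θ'' := fun z hz => (h' z hz).trans (h z hz)

theorem blk_cj (hB5 : T_B5) {K : Subgroup Γ} {θ θ' : Γ → ℂ} {u : Γ} (hu : Nm u K)
    (h : Blk π K θ θ') : Blk π K (cj u θ) (cj u θ') := by
  intro z hz
  rw [hB5 F π Γ θ' u z, hB5 F π Γ θ u z]
  exact h _ (cjA_mem (nm_inv hu) (fun g hg => (nm_inv hu g).2 hg) hz)

theorem blk_pow (hB5 : T_B5) {K : Subgroup Γ} {θ : Γ → ℂ} {γ : Γ} (hγ : Nm γ K)
    (h : Blk π K θ (cj γ θ)) (e : ℕ) : Blk π K θ (cj (γ ^ e) θ) := by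
  induction e with
  | zero => rw [pow_zero, cj_one]; exact blk_refl K θ
  | succ e ih =>
    rw [pow_succ, cj_mul]
    exact blk_trans h (blk_cj hB5 hγ ih)

theorem k0f_congr {ℓ : ℕ} {N D : Subgroup Γ} {χ : Γ → ℂ} {γ γ' : Γ}
    (h : ∀ θ ∈ IrrS N, cj γ θ = cj γ' θ) : K0F π ℓ N χ D γ = K0F π ℓ N χ D γ' := by
  ext θ
  constructor
  · rintro ⟨h1, h2⟩
    exact ⟨h1, by rw [← h θ h1.1]; exact h2⟩
  · rintro ⟨h1, h2⟩
    exact ⟨h1, by rw [h θ h1.1]; exact h2⟩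

/-- the base of the induction -/
theorem base (hS1 : T_S1) {ℓ : ℕ} {𝓟 : Subgroup Γ → Prop} (hAM : AMa (Γ := Γ) π ℓ 𝓟)
    {Q : Type} [CommGroup Q] {s : Γ →* Q} {K P : Subgroup Γ} {γ : Γ} (hD : Dat s K P γ 1)
    (hP : 𝓟 P) {χ : Γ → ℂ} (hχ : χ ∈ IrrS K) (hdef : DefH ℓ K (lam π χ) P) {ψ : Γ → ℂ}
    (hψ : ψ ∈ IrrS (K ⊓ Subgroup.normalizer (P : Set Γ))) (hcor : Cor π K P χ ψ) :
    (K0F π ℓ K χ P γ).ncard =
      (K0F π ℓ (K ⊓ Subgroup.normalizer (P : Set Γ)) ψ P γ).ncard := by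
  have h1 : s γ = 1 := orderOf_eq_one_iff.1 hD.ord
  have hγ : γ ∈ K := by
    have := hD.pow 1 (by rw [pow_one]; exact h1)
    rwa [pow_one] at this
  have e1 : K0F π ℓ K χ P γ = K0H π ℓ K χ P := by
    ext θ
    exact ⟨fun h => h.1, fun h => ⟨h, cj_of_mem hS1 h.1 hγ⟩⟩
  have e2 : K0F π ℓ (K ⊓ Subgroup.normalizer (P : Set Γ)) ψ P γ =
      K0H π ℓ (K ⊓ Subgroup.normalizer (P : Set Γ)) ψ P := by
    ext θ
    exact ⟨fun h => h.1, fun h => ⟨h, cj_of_mem hS1 h.1 ⟨hγ, hD.np⟩⟩⟩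
  rw [e1, e2]
  exact hAM K P hP hD.le χ hχ hdef ψ hψ hcor

/-- invariance of the block under the intermediate group -/
theorem sta_of_blk (hP0 : T_P0) (hS1 : T_S1) (hS7 : T_S7) (hB5 : T_B5) {q : ℕ} (hq : q.Prime)
    {Q : Type} [CommGroup Q] {s : Γ →* Q} {X K : Subgroup Γ} {γ : Γ} {m : ℕ}
    (hPI : PI q s X K (γ ^ m)) (hγ : Nm γ K) {χ : Γ → ℂ} (hχ : χ ∈ IrrS K)
    (h : Blk π K χ (cj γ χ)) : Sta π X K χ := by
  intro x hx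
  obtain ⟨c, _, k, hk, rfl⟩ := (hP0 q hq Γ Q s X K _ hPI).2.2.2.1 x hx
  rw [cj_mul]
  have h1 : cj ((γ ^ m) ^ c) χ ∈ IrrS K := cj_mem hS7 (nm_pow (nm_pow hγ m) c) hχ
  rw [cj_of_mem hS1 h1 hk, ← pow_mul]
  exact blk_pow hB5 hγ h _

/-- the step of the induction for a prime `q ≠ ℓ` -/
theorem stepq (hP0 : T_P0) (hP1 : T_P1) (hP2 : T_P2) (hCT : T_CT) (hCB : T_CB) (hUD : T_UD)
    (hST : T_ST) (hMC : T_MC) (hS1 : T_S1) (hS7 : T_S7) (hB5 : T_B5)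
    (hπ : Function.Surjective π) {ℓ : ℕ} [Fact ℓ.Prime] [CharP F ℓ] {𝓟 : Subgroup Γ → Prop}
    {n q : ℕ} (hq : q.Prime) (hqn : q ∣ n) (hql : q ≠ ℓ)
    (ih : ∀ m, m < n → m ∣ n → Eqv (Γ := Γ) π ℓ 𝓟 m)
    {Q : Type} [CommGroup Q] [Finite Q] {s : Γ →* Q} {K P : Subgroup Γ} {γ : Γ}
    (hD : Dat s K P γ n) (hP : 𝓟 P) {χ : Γ → ℂ} (hχ : χ ∈ IrrS K)
    (hdef : DefH ℓ K (lam π χ) P) {ψ : Γ → ℂ}
    (hψ : ψ ∈ IrrS (K ⊓ Subgroup.normalizer (P : Set Γ))) (hcor : Cor π K P χ ψ)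
    (hblk : Blk π K χ (cj γ χ)) :
    (K0F π ℓ K χ P γ).ncard =
      (K0F π ℓ (K ⊓ Subgroup.normalizer (P : Set Γ)) ψ P γ).ncard := by
  have hn0 : 0 < n := by
    rw [← hD.ord]; exact orderOf_pos (s γ)
  obtain ⟨X, hPI, hγX, hD', hγX', Q₁, i1, i2, s₁, hX1, -⟩ :=
    hP1 q hq Γ Q s K P γ n hD hqn
  obtain ⟨hKX, hnor, hidx, -, -, hloc⟩ := hP0 q hq Γ Q s X K _ hPI
  have htP : γ ^ (n / q) ∈ Subgroup.normalizer (P : Set Γ) := Subgroup.pow_mem _ hD.np _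
  have hPI' := hloc P hD.le htP
  have hsta : Sta π X K χ := sta_of_blk hP0 hS1 hS7 hB5 hq hPI hD.nm hχ hblk
  obtain ⟨hdef', -, heq'⟩ := ((hST F π hπ ℓ Γ K P).1 χ hχ hdef).2 ψ hψ hcor
  obtain ⟨hsta', -⟩ := hUD F π hπ ℓ Γ X K P hKX hnor χ hχ hdef hsta ψ hψ hcor
  have hblk' : Blk π (K ⊓ Subgroup.normalizer (P : Set Γ)) ψ (cj γ ψ) :=
    (heq' γ hD.np hD.nm).1 hblk
  have hmlt : n / q < n := Nat.div_lt_self hn0 hq.one_lt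
  have hmd : n / q ∣ n := Nat.div_dvd_of_dvd hqn
  -- the characters of the intermediate groups
  have hN := hMC F π hπ ℓ q hq hql Γ Q s X K P _ γ hPI hD.le htP hγX hD.np χ hχ hdef hsta ψ hψ
    hcor (fun χ₁ h1 h2 ξ h3 h4 h5 => by
      have hdat : Dat s₁ X P γ (n / q) := by
        have := hX1 P (hD.le.trans hKX) 1 X.one_mem (by rw [one_mul]; exact hD.np)
        rwa [one_mul] at this
      exact ih (n / q) hmlt hmd Q₁ s₁ X P γ hdat hP χ₁ h1 h2 ξ h3 h4 h5)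
  have hA := (hCB F π hπ ℓ q hq hql Γ Q s X K _ hPI P χ hχ hdef hsta).1
  have hA' := (hCB F π hπ ℓ q hq hql Γ Q s _ _ _ hPI' P ψ hψ hdef' hsta').1
  have c1 := hCT q hq Γ Q s X K γ (n / q) hPI hD.nm hγX (K0H π ℓ K χ P) (fun θ h => h.1)
    (fun θ hθ x hx => hA x hx θ hθ)
  have c2 := hCT q hq Γ Q s _ _ γ (n / q) hPI' hD'.nm hγX'
    (K0H π ℓ (K ⊓ Subgroup.normalizer (P : Set Γ)) ψ P) (fun θ h => h.1)
    (fun θ hθ x hx => hA' x hx θ hθ)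
  rw [← hN] at c2
  refine arith hq.two_le c1 c2 fun i _ => ?_
  rcases hP2 q hq Γ Q s K P γ n hD hqn i with ⟨m, h1, h2, h3⟩ | h1
  · left
    have hb : Blk π K χ (cj (γ * (γ ^ (n / q)) ^ i) χ) := by
      rw [← pow_mul, ← pow_succ']
      exact blk_pow hB5 hD.nm hblk _
    exact ih m h1 h2 Q s K P _ h3 hP χ hχ hdef ψ hψ hcor hb
  · right
    constructor
    · congr 1
      ext θ
      exact ⟨fun h => ⟨h.1, (h1 K hD.pow θ h.1.1).1 h.2⟩,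
        fun h => ⟨h.1, (h1 K hD.pow θ h.1.1).2 h.2⟩⟩
    · congr 1
      ext θ
      exact ⟨fun h => ⟨h.1, (h1 _ hD'.pow θ h.1.1).1 h.2⟩,
        fun h => ⟨h.1, (h1 _ hD'.pow θ h.1.1).2 h.2⟩⟩

/-- the step of the induction for the prime `ℓ` -/
theorem stepl (hP0 : T_P0) (hP1 : T_P1) (hCN : T_CN) (hDX : T_DX) (hUD : T_UD)
    (hST : T_ST) (hTC : T_TC) (hUN : T_UN) (hDG : T_DG) (hS1 : T_S1) (hS7 : T_S7) (hE4 : T_E4)
    (hB4 : T_B4) (hB5 : T_B5)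
    (hπ : Function.Surjective π) {ℓ : ℕ} [Fact ℓ.Prime] [CharP F ℓ] {𝓟 : Subgroup Γ → Prop}
    (h𝓟 : ∀ P, 𝓟 P) {n : ℕ} (hqn : ℓ ∣ n)
    (ih : ∀ m, m < n → m ∣ n → Eqv (Γ := Γ) π ℓ 𝓟 m)
    {Q : Type} [CommGroup Q] [Finite Q] {s : Γ →* Q} {K P : Subgroup Γ} {γ : Γ}
    (hD : Dat s K P γ n) {χ : Γ → ℂ} (hχ : χ ∈ IrrS K)
    (hdef : DefH ℓ K (lam π χ) P) {ψ : Γ → ℂ}
    (hψ : ψ ∈ IrrS (K ⊓ Subgroup.normalizer (P : Set Γ))) (hcor : Cor π K P χ ψ)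
    (hblk : Blk π K χ (cj γ χ)) :
    (K0F π ℓ K χ P γ).ncard =
      (K0F π ℓ (K ⊓ Subgroup.normalizer (P : Set Γ)) ψ P γ).ncard := by
  have hq : ℓ.Prime := Fact.out
  have hn0 : 0 < n := by
    rw [← hD.ord]; exact orderOf_pos (s γ)
  obtain ⟨X, hPI, hγX, hD', hγX', Q₁, i1, i2, s₁, hX1, hX2⟩ :=
    hP1 ℓ hq Γ Q s K P γ n hD hqn
  obtain ⟨hKX, hnor, -, -, -, hloc⟩ := hP0 ℓ hq Γ Q s X K _ hPI
  have htP : γ ^ (n / ℓ) ∈ Subgroup.normalizer (P : Set Γ) := Subgroup.pow_mem _ hD.np _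
  have hPI' := hloc P hD.le htP
  obtain ⟨hKX', hnor', -⟩ := hP0 ℓ hq Γ Q s _ _ _ hPI'
  have hsta : Sta π X K χ := sta_of_blk hP0 hS1 hS7 hB5 hq hPI hD.nm hχ hblk
  obtain ⟨hdef', -, heq'⟩ := ((hST F π hπ ℓ Γ K P).1 χ hχ hdef).2 ψ hψ hcor
  obtain ⟨hsta', hiff⟩ := hUD F π hπ ℓ Γ X K P hKX hnor χ hχ hdef hsta ψ hψ hcor
  have hblk' : Blk π (K ⊓ Subgroup.normalizer (P : Set Γ)) ψ (cj γ ψ) :=
    (heq' γ hD.np hD.nm).1 hblk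
  have hmlt : n / ℓ < n := Nat.div_lt_self hn0 hq.one_lt
  have hmd : n / ℓ ∣ n := Nat.div_dvd_of_dvd hqn
  -- the characters above
  obtain ⟨χ₁, hχ₁, ho⟩ := hE4 Γ K X hKX χ hχ
  obtain ⟨ξ, hξ, ho'⟩ := hE4 Γ _ _ hKX' ψ hψ
  have hb4 : ∀ z ∈ ZA F K X, lam π χ₁ z = lam π χ z :=
    hB4 F π hπ Γ K X hKX hnor χ₁ hχ₁ χ hχ ho
  have hb4' : ∀ z ∈ ZA F (K ⊓ Subgroup.normalizer (P : Set Γ))
      (X ⊓ Subgroup.normalizer (P : Set Γ)), lam π ξ z = lam π ψ z :=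
    hB4 F π hπ Γ _ _ hKX' hnor' ξ hξ ψ hψ ho'
  -- the defect group
  obtain ⟨E, hE1, hE2, hE3⟩ := (hDX F π hπ ℓ ℓ hq Γ Q s _ _ _ hPI' ξ hξ ψ hψ ho' hsta' P
    hdef').2 rfl
  have hEX' : E ≤ X ⊓ Subgroup.normalizer (P : Set Γ) := hE1.2.1
  have hEX : E ≤ X := hEX'.trans inf_le_left
  have hPE : P ≤ E := by rw [← hE2]; exact inf_le_left
  have hEK : E ⊓ K = P := by
    apply le_antisymm
    · rw [← hE2]
      exact le_inf inf_le_left (le_inf inf_le_right (inf_le_left.trans (hEX'.trans inf_le_right)))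
    · exact le_inf hPE hD.le
  -- correspondence of the characters above
  have hc : Cor π X P χ₁ ξ := by
    obtain ⟨χ₂, h2, hc2⟩ := (hST F π hπ ℓ Γ X P).2 hdef.1 (hD.le.trans hKX) ξ hξ
    obtain ⟨θ₁, h3, h4, h5⟩ := (hiff χ₂ h2 ξ hξ hc2).2 ⟨ψ, hψ, ho', blk_refl _ _⟩
    have hb : Blk π X χ₁ χ₂ := by
      refine hUN F π hπ ℓ Γ Q s X K _ hPI χ₁ hχ₁ χ₂ h2 fun z hz => ?_
      rw [hB4 F π hπ Γ K X hKX hnor χ₂ h2 θ₁ h3 h4 z hz, h5 z (ZA_mono le_rfl hKX hz), hb4 z hz]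
    intro z hz
    rw [← hb z hz]
    exact hc2 z hz
  obtain ⟨β, hβ, hcβ⟩ := ((hST F π hπ ℓ Γ (X ⊓ Subgroup.normalizer (P : Set Γ)) E).1 ξ hξ
    hE1).1
  have hNE : X ⊓ Subgroup.normalizer (E : Set Γ) ≤ Subgroup.normalizer (P : Set Γ) := by
    rintro x ⟨hx, hx'⟩
    have h1 : Nm x (E ⊓ K) := nm_inf (nm_of_normalizer hx') (nor_iff hnor hx)
    rw [hEK] at h1
    exact normalizer_of_nm h1
  obtain ⟨hEq, hcorE, hdefE⟩ := hTC F π hπ ℓ Γ X P E hPE hE1.1 hNE χ₁ hχ₁ ξ hξ hc hE1 β hβ hcβ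
  -- invariance of the blocks above
  have hbξ : Blk π (X ⊓ Subgroup.normalizer (P : Set Γ)) ξ (cj γ ξ) := by
    refine hUN F π hπ ℓ Γ Q s _ _ _ hPI' ξ hξ _ (cj_mem hS7 hγX' hξ) fun z hz => ?_
    rw [hB4 F π hπ Γ _ _ hKX' hnor' _ (cj_mem hS7 hγX' hξ) _ (cj_mem hS7 hD'.nm hψ)
      (over_cj γ ho') z hz, hblk' z (ZA_mono le_rfl hKX' hz), hb4' z hz]
  have hbχ : Blk π X χ₁ (cj γ χ₁) := by
    refine hUN F π hπ ℓ Γ Q s _ _ _ hPI χ₁ hχ₁ _ (cj_mem hS7 hγX hχ₁) fun z hz => ?_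
    rw [hB4 F π hπ Γ _ _ hKX hnor _ (cj_mem hS7 hγX hχ₁) _ (cj_mem hS7 hD.nm hχ)
      (over_cj γ ho) z hz, hblk z (ZA_mono le_rfl hKX hz), hb4 z hz]
  obtain ⟨u, hu, huE⟩ := hDG F π hπ ℓ Γ _ E γ hγX' ξ hξ hE1 hbξ
  have hu1 : ∀ θ ∈ IrrS X, cj (u * γ) θ = cj γ θ := by
    intro θ hθ
    rw [cj_mul, cj_of_mem hS1 hθ hu.1]
  have hu2 : ∀ θ ∈ IrrS (X ⊓ Subgroup.normalizer (P : Set Γ)), cj (u * γ) θ = cj γ θ := by
    intro θ hθ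
    rw [cj_mul, cj_of_mem hS1 hθ hu]
  -- the induction hypothesis, twice
  have k1 : (K0F π ℓ X χ₁ E (u * γ)).ncard =
      (K0F π ℓ (X ⊓ Subgroup.normalizer (E : Set Γ)) β E (u * γ)).ncard :=
    ih (n / ℓ) hmlt hmd Q₁ s₁ X E (u * γ) (hX1 E hEX u hu.1 huE) (h𝓟 E) χ₁ hχ₁ hdefE β
      (by rw [← hEq]; exact hβ) hcorE (by rw [hu1 χ₁ hχ₁]; exact hbχ)
  have k2 : (K0F π ℓ (X ⊓ Subgroup.normalizer (P : Set Γ)) ξ E (u * γ)).ncard =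
      (K0F π ℓ (X ⊓ Subgroup.normalizer (P : Set Γ) ⊓ Subgroup.normalizer (E : Set Γ)) β E
        (u * γ)).ncard :=
    ih (n / ℓ) hmlt hmd Q₁ s₁ _ E (u * γ) (hX2 E hEX' u hu huE) (h𝓟 E) ξ hξ hE1 β
      hβ hcβ (by rw [hu2 ξ hξ]; exact hbξ)
  rw [k0f_congr hu1] at k1
  rw [k0f_congr hu2, hEq] at k2
  have c1 := hCN F π hπ ℓ Γ Q s X K γ (n / ℓ) hPI hD.nm hγX χ₁ hχ₁ χ hχ ho hsta P E hdef hEX
    hEK hE3
  have c2 := hCN F π hπ ℓ Γ Q s _ _ γ (n / ℓ) hPI' hD'.nm hγX' ξ hξ ψ hψ ho' hsta' P E hdef'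
    hEX' hE2 hE3
  apply Nat.eq_of_mul_eq_mul_left hq.pos
  rw [← c1, ← c2, k1, k2]

end

/-- IN: the induction -/
theorem in_ (hP0 : T_P0) (hP1 : T_P1) (hP2 : T_P2) (hCT : T_CT) (hCB : T_CB) (hCN : T_CN)
    (hDX : T_DX) (hUD : T_UD) (hST : T_ST) (hTC : T_TC) (hUN : T_UN) (hDG : T_DG)
    (hMC : T_MC) (hS1 : T_S1) (hS7 : T_S7) (hE4 : T_E4) (hB4 : T_B4) (hB5 : T_B5) : T_IN := by
  intro F _ π hπ ℓ _ _ Γ _ _ 𝓟 hAM n
  induction n using Nat.strong_induction_on with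
  | _ n ih =>
  intro hn Q _ _ s K P γ hD hP χ hχ hdef ψ hψ hcor hblk
  have hn0 : 0 < n := by
    rw [← hD.ord]; exact orderOf_pos (s γ)
  have ih' : ∀ m, m < n → m ∣ n → Eqv (Γ := Γ) π ℓ 𝓟 m := fun m h1 h2 =>
    ih m h1 (hn.imp (fun h h3 => h (h3.trans h2)) id)
  by_cases h1 : n = 1
  · subst h1
    exact base hS1 hAM hD hP hχ hdef hψ hcor
  · have hq : n.minFac.Prime := Nat.minFac_prime h1
    by_cases hql : n.minFac = ℓ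
    · have hln : ℓ ∣ n := by rw [← hql]; exact Nat.minFac_dvd n
      exact stepl hP0 hP1 hCN hDX hUD hST hTC hUN hDG hS1 hS7 hE4 hB4 hB5 hπ
        (hn.resolve_left (fun h => h hln)) hln ih' hD hχ hdef hψ hcor hblk
    · exact stepq hP0 hP1 hP2 hCT hCB hUD hST hMC hS1 hS7 hB5 hπ hq (Nat.minFac_dvd n) hql
        ih' hD hP hχ hdef hψ hcor hblk

end Pool.Agent.H77.EA
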