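import Pool.Agent.H77.EA.Targets2

/-!
# Equivariant Alperin–McKay (MP_657073_al), third wave: groups of automorphisms with a normal
`ℓ`-subgroup and cyclic factor group

Definitions and targets. `cmp`, `act`, `rs`: `Pool/Agent/H77/EA/Act.lean`.
-/

open scoped Classical ComplexConjugate

namespace AMe

open AMc Pool.Agent.H77.EA

/-! ## Definitions -/

/-- (statement level) `A` has a normal `ℓ`-subgroup with cyclic factor group -/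
def Hypo (ℓ : ℕ) (A : Type) [Group A] : Prop :=
  ∃ (P : Subgroup A) (_ : P.Normal), IsPGroup ℓ P ∧ IsCyclic (A ⧸ P)

/-- `P` is a normal `ℓ`-subgroup, `h₀` generates `H` modulo `P`, of order prime to `ℓ` -/
structure HE (ℓ : ℕ) {H : Type} [Group H] (P : Subgroup H) (h₀ : H) (n : ℕ) : Prop where
  nor : P.Normal
  pg : IsPGroup ℓ P
  gen : ∀ a : H, ∃ c : ℕ, ∃ p ∈ P, a = p * h₀ ^ c
  pow : h₀ ^ n ∈ P
  cop : ¬ ℓ ∣ n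

section

variable {Γ : Type} [Group Γ]

/-- `K` is normal in `X` of index a power of `ℓ` -/
structure LP (ℓ : ℕ) (X K : Subgroup Γ) : Prop where
  le : K ≤ X
  nor : ∀ u ∈ X, ∀ g ∈ K, u * g * u⁻¹ ∈ K
  idx : ∃ a : ℕ, K.relIndex X = ℓ ^ a

/-- the standing data: `K ≤ X` of `ℓ`-power index, `P ≤ K`, `X = K N_X(P)`, `γ` normalises
`K`, `X`, `P` and has order prime to `ℓ` modulo `X` -/
structure DatX (ℓ : ℕ) {Q : Type} [CommGroup Q] (s : Γ →* Q) (X K P : Subgroup Γ) (γ : Γ)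
    (n : ℕ) : Prop where
  lp : LP ℓ X K
  leP : P ≤ K
  nmK : Nm γ K
  nmX : Nm γ X
  nmP : γ ∈ Subgroup.normalizer (P : Set Γ)
  ker : X ≤ s.ker
  pow : ∀ c : ℕ, s γ ^ c = 1 → γ ^ c ∈ X
  ord : γ ^ n ∈ X
  cop : ¬ ℓ ∣ n
  fra : ∀ x ∈ X, ∃ k ∈ K, k * x ∈ Subgroup.normalizer (P : Set Γ)

/-- the `γ`-invariant linear characters of `X` trivial on `K`, extended by zero -/
def LinF (X K : Subgroup Γ) (γ : Γ) : Set (Γ → ℂ) :=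
  {μ | (∀ g, g ∉ X → μ g = 0) ∧ (∀ k ∈ K, μ k = 1) ∧
    (∀ x ∈ X, ∀ y ∈ X, μ (x * y) = μ x * μ y) ∧ ∀ g ∈ X, μ (γ * g * γ⁻¹) = μ g}

variable [Fintype Γ]

/-- the `γ`-invariant irreducible characters of `X` whose restriction to `K` is in `A` -/
def AbvR (X K : Subgroup Γ) (A : Set (Γ → ℂ)) (γ : Γ) : Set (Γ → ℂ) :=
  {χ | χ ∈ IrrS X ∧ cj γ χ = χ ∧ ∃ θ ∈ A, ∀ k ∈ K, χ k = θ k}

/-- the characters of height zero of `K` in the block of `χ` which are invariant under `X` and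
`γ` and extend to `X` -/
def K0X {F : Type} [Field F] (π : integralClosure ℤ ℂ →+* F) (ℓ : ℕ) (X K : Subgroup Γ)
    (χ : Γ → ℂ) (P : Subgroup Γ) (γ : Γ) : Set (Γ → ℂ) :=
  {θ | θ ∈ K0H π ℓ K χ P ∧ (∀ x ∈ X, cj x θ = θ) ∧ cj γ θ = θ ∧
    ∃ χ' ∈ IrrS X, ∀ k ∈ K, χ' k = θ k}

end

/-- `j` identifies `N` with the normaliser of `D`, and the blocks of `χ` and `ψ` have defect
groups `D` and `E = j⁻¹ D` and are Brauer correspondents -/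
structure BP (ℓ : ℕ) (𝔪 : Ideal (integralClosure ℤ ℂ)) {G N : Type} [Group G] [Fintype G]
    [Group N] [Fintype N] (j : N →* G) (D : Subgroup G) (E : Subgroup N) (χ : G → ℂ)
    (ψ : N → ℂ) : Prop where
  inj : Function.Injective j
  rng : j.range = Subgroup.normalizer (D : Set G)
  map : E.map j = D
  irr : χ ∈ Irr G
  irr' : ψ ∈ Irr N
  dfc : IsDefect ℓ 𝔪 χ D
  dfc' : IsDefect ℓ 𝔪 ψ E
  cor : Corr 𝔪 j χ ψ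

/-- `θ` extends to the semidirect product -/
def Extd {G P : Type} [Group G] [Group P] (ρ : P →* MulAut G) (θ : G → ℂ) : Prop :=
  ∃ χ ∈ Irr (G ⋊[ρ] P), ∀ g, χ (SemidirectProduct.inl g) = θ g

/-- the characters of height zero invariant under the action `ρ` of `H` -/
def FixH {N H : Type} [Group N] [Fintype N] [Group H] (ℓ : ℕ)
    (𝔪 : Ideal (integralClosure ℤ ℂ)) (χ : N → ℂ) (D : Subgroup N) (ρ : H →* MulAut N) :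
    Set (N → ℂ) :=
  {a | a ∈ Irr0 ℓ 𝔪 χ D ∧ ∀ h g, a (ρ h g) = a g}

/-- those which moreover extend to `N ⋊ P` -/
def FixE {N H : Type} [Group N] [Fintype N] [Group H] (ℓ : ℕ)
    (𝔪 : Ideal (integralClosure ℤ ℂ)) (χ : N → ℂ) (D : Subgroup N) (ρ : H →* MulAut N)
    (P : Subgroup H) : Set (N → ℂ) :=
  {a | a ∈ FixH ℓ 𝔪 χ D ρ ∧ Extd (ρ.comp P.subtype) a}

/-- the product of `a` and of the complex conjugate of `b` -/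
def mx {G₁ G₂ : Type} [Group G₁] [Group G₂] (a : G₁ → ℂ) (b : G₂ → ℂ) : G₁ × G₂ → ℂ :=
  fun g => a g.1 * b g.2⁻¹

/-- the diagonal action on a direct product -/
def prA {G₁ G₂ H : Type} [Group G₁] [Group G₂] [Group H] (ρ₁ : H →* MulAut G₁)
    (ρ₂ : H →* MulAut G₂) : H →* MulAut (G₁ × G₂) where
  toFun h := MulEquiv.prodCongr (ρ₁ h) (ρ₂ h)
  map_one' := by
    apply MulEquiv.ext
    intro x
    rw [map_one, map_one]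
    rfl
  map_mul' h h' := by
    apply MulEquiv.ext
    intro x
    rw [map_mul, map_mul]
    rfl

/-- the factor sets of the projective extensions of `θ` to `G ⋊ P` -/
def Coc {G P : Type} [Group G] [Group P] (ρ : P →* MulAut G) (θ : G → ℂ) : Set (P → P → ℂ) :=
  {α | ∃ (n : ℕ) (r : Representation ℂ G (Fin n → ℂ)), r.IsIrreducible ∧ r.character = θ ∧
    ∃ T : P → ((Fin n → ℂ) →ₗ[ℂ] (Fin n → ℂ)), (∀ p, Function.Bijective (T p)) ∧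
      (∀ p g, T p ∘ₗ r g = r (ρ p g) ∘ₗ T p) ∧ ∀ p q, T p ∘ₗ T q = α p q • T (p * q)}

/-- the Alperin–McKay equality for all finite groups -/
def AMN (ℓ : ℕ) (𝔪 : Ideal (integralClosure ℤ ℂ)) : Prop :=
  ∀ (G : Type) [Group G] [Fintype G] (D : Subgroup G) (χ : G → ℂ)
    (ψ : Subgroup.normalizer (D : Set G) → ℂ), Brauer ℓ 𝔪 D χ ψ →
    (Irr0 ℓ 𝔪 χ D).ncard =
      (Irr0 ℓ 𝔪 ψ (D.subgroupOf (Subgroup.normalizer (D : Set G)))).ncard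

/-! ## X. Groups with a normal `ℓ`-subgroup and cyclic factor group -/

/-- XY: group theory -/
def T_XY : Prop := ∀ (ℓ : ℕ) [Fact ℓ.Prime] (A : Type) [Group A] [Finite A], Hypo ℓ A →
  (∃ (P : Subgroup A) (h₀ : A) (n : ℕ), HE ℓ P h₀ n) ∧ (∀ S : Subgroup A, Hypo ℓ S) ∧
  (¬ ℓ ∣ Nat.card A → IsCyclic A)

/-- XC: a maximal subgroup of an `ℓ`-group modulo `K` -/
def T_XC : Prop := ∀ (ℓ : ℕ) [Fact ℓ.Prime] (Γ : Type) [Group Γ] [Fintype Γ]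
  (X K : Subgroup Γ), LP ℓ X K → K = X ∨ ∃ M : Subgroup Γ, LP ℓ X M ∧ LP ℓ M K ∧
    M.relIndex X = ℓ ∧ K.relIndex X = ℓ * K.relIndex M

/-- XA: change of the ambient group -/
def T_XA : Prop := ∀ (F : Type) [Field F] (π : integralClosure ℤ ℂ →+* F),
  Function.Surjective π → ∀ (ℓ : ℕ) [Fact ℓ.Prime] [CharP F ℓ] (Γ' Γ : Type) [Group Γ']
  [Fintype Γ'] [Group Γ] [Fintype Γ] (i : Γ' →* Γ), Function.Injective i →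
  (∀ x θ, extj i θ (i x) = θ x) ∧ (∀ x θ, cj (i x) (extj i θ) = extj i (cj x θ)) ∧
  ∀ N U : Subgroup Γ', N ≤ U →
  (∀ θ, θ ∈ IrrS N ↔ extj i θ ∈ IrrS (N.map i)) ∧
  (∀ θ' ∈ IrrS (N.map i), ∃ θ ∈ IrrS N, extj i θ = θ') ∧
  (∀ θ ∈ IrrS N, ∀ θ' ∈ IrrS N, (∀ z ∈ ZA F N U, lam π θ' z = lam π θ z) ↔
    ∀ z ∈ ZA F (N.map i) (U.map i), lam π (extj i θ') z = lam π (extj i θ) z) ∧
  (∀ θ ∈ IrrS N, ∀ D : Subgroup Γ', DefH ℓ N (lam π θ) D ↔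
    DefH ℓ (N.map i) (lam π (extj i θ)) (D.map i)) ∧
  (∀ χ ∈ IrrS U, ∀ θ ∈ IrrS N, Over χ θ ↔ Over (extj i χ) (extj i θ))

/-- XB: normal subgroups of index `ℓ`, without a homomorphism defined on `Γ` -/
def T_XB : Prop := ∀ (F : Type) [Field F] (π : integralClosure ℤ ℂ →+* F),
  Function.Surjective π → ∀ (ℓ : ℕ) [Fact ℓ.Prime] [CharP F ℓ]
  (Γ : Type) [Group Γ] [Fintype Γ] (X K : Subgroup Γ), LP ℓ X K → K.relIndex X = ℓ →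
  (∀ χ ∈ IrrS X, ∀ χ' ∈ IrrS X, (∀ z ∈ ZA F K X, lam π χ' z = lam π χ z) → Blk π X χ χ') ∧
  (∀ χ ∈ IrrS X, ∀ θ ∈ IrrS K, Over χ θ → (∀ k ∈ K, χ k = θ k) ∨ χ 1 = ℓ * θ 1) ∧
  (∀ χ ∈ IrrS X, ∀ θ ∈ IrrS K, Over χ θ → Sta π X K θ → ∀ P : Subgroup Γ,
    DefH ℓ K (lam π θ) P →
    ∃ E : Subgroup Γ, DefH ℓ X (lam π χ) E ∧ E ⊓ K = P ∧ P.relIndex E = ℓ)

/-- XD: degrees of the characters above -/
def T_XD : Prop := ∀ (F : Type) [Field F] (π : integralClosure ℤ ℂ →+* F),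
  Function.Surjective π → ∀ (ℓ : ℕ) [Fact ℓ.Prime] [CharP F ℓ] (Γ : Type) [Group Γ] [Fintype Γ]
  (X K : Subgroup Γ), LP ℓ X K → ∀ χ ∈ IrrS X, ∀ θ ∈ IrrS K, Over χ θ →
  ∃ b : ℕ, χ 1 = (ℓ : ℂ) ^ b * θ 1 ∧ (b = 0 → ∀ k ∈ K, χ k = θ k)

/-- XE: the block above an invariant block, `ℓ`-power index -/
def T_XE : Prop := ∀ (F : Type) [Field F] (π : integralClosure ℤ ℂ →+* F),
  Function.Surjective π → ∀ (ℓ : ℕ) [Fact ℓ.Prime] [CharP F ℓ]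
  (Γ : Type) [Group Γ] [Fintype Γ] (X K P : Subgroup Γ), LP ℓ X K → ∀ θ ∈ IrrS K,
  DefH ℓ K (lam π θ) P → Sta π X K θ →
  (∀ χ ∈ IrrS X, ∀ χ' ∈ IrrS X, ∀ θ₁ ∈ IrrS K, ∀ θ₂ ∈ IrrS K, Over χ θ₁ → Over χ' θ₂ →
    Blk π K θ θ₁ → Blk π K θ θ₂ → Blk π X χ χ') ∧
  (∀ χ ∈ IrrS X, Over χ θ →
    ∃ E : Subgroup Γ, DefH ℓ X (lam π χ) E ∧ E ⊓ K = P ∧ P.relIndex E = K.relIndex X) ∧
  (∀ χ ∈ IrrS X, Over χ θ → ∀ E : Subgroup Γ, E ≤ X → P ≤ E →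
    P.relIndex E = K.relIndex X → ∀ χ' : Γ → ℂ, χ' ∈ K0H π ℓ X χ E ↔
      χ' ∈ IrrS X ∧ ∃ θ' ∈ K0H π ℓ K θ P, ∀ k ∈ K, χ' k = θ' k)

/-- XF: the numbers of `γ`-invariant extensions -/
def T_XF : Prop := ∀ (F : Type) [Field F] (π : integralClosure ℤ ℂ →+* F),
  Function.Surjective π → ∀ (ℓ : ℕ) [Fact ℓ.Prime] [CharP F ℓ]
  (Γ : Type) [Group Γ] [Fintype Γ] (Q : Type) [CommGroup Q] [Finite Q] (s : Γ →* Q)
  (X K P : Subgroup Γ) (γ : Γ) (n : ℕ), DatX ℓ s X K P γ n →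
  (∀ m, Eqv (Γ := Γ) π ℓ (fun _ => True) m) →
  ∀ χ ∈ IrrS K, DefH ℓ K (lam π χ) P →
  ∀ ψ ∈ IrrS (K ⊓ Subgroup.normalizer (P : Set Γ)), Cor π K P χ ψ →
  Blk π K χ (cj γ χ) → Sta π X K χ →
  (AbvR X K (K0H π ℓ K χ P) γ).ncard =
    (AbvR (X ⊓ Subgroup.normalizer (P : Set Γ)) (K ⊓ Subgroup.normalizer (P : Set Γ))
      (K0H π ℓ (K ⊓ Subgroup.normalizer (P : Set Γ)) ψ P) γ).ncard

/-- XG: Gallagher's theorem for linear characters -/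
def T_XG : Prop := ∀ (Γ : Type) [Group Γ] [Fintype Γ] (X K : Subgroup Γ), K ≤ X →
  (∀ u ∈ X, ∀ g ∈ K, u * g * u⁻¹ ∈ K) → ∀ θ ∈ IrrS K, ∀ χ ∈ IrrS X, (∀ k ∈ K, χ k = θ k) →
  (∀ μ ∈ LinF X K 1, (fun g => μ g * χ g) ∈ IrrS X) ∧
  (∀ χ' ∈ IrrS X, (∀ k ∈ K, χ' k = θ k) → ∃ μ ∈ LinF X K 1, χ' = fun g => μ g * χ g) ∧
  (∀ μ ∈ LinF X K 1, ∀ μ' ∈ LinF X K 1, (∀ g, μ g * χ g = μ' g * χ g) → μ = μ')

/-- XH: fixed points on a torsor (coprime action) -/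
def T_XH : Prop := ∀ (ℓ : ℕ) [Fact ℓ.Prime] (L T : Type) [CommGroup L] [Finite L]
  [MulAction L T], IsPGroup ℓ L → (∀ t t' : T, ∃! μ : L, μ • t = t') → Nonempty T →
  ∀ (σ : T → T) (s : L →* L) (n : ℕ), (∀ μ t, σ (μ • t) = s μ • σ t) →
  (∀ t, σ^[n] t = t) → ¬ ℓ ∣ n →
  Nat.card {t // σ t = t} = Nat.card {μ // s μ = μ}

/-- XI: restriction of the linear characters -/
def T_XI : Prop := ∀ (Γ : Type) [Group Γ] [Fintype Γ] (X K X' K' : Subgroup Γ) (γ : Γ), K ≤ X →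
  (∀ u ∈ X, ∀ g ∈ K, u * g * u⁻¹ ∈ K) → X' ≤ X → K' = K ⊓ X' →
  (∀ x ∈ X, ∃ k ∈ K, k * x ∈ X') → Nm γ K → Nm γ X → Nm γ X' →
  (LinF X K γ).ncard = (LinF X' K' γ).ncard ∧ 0 < (LinF X K γ).ncard

/-- XJ: the number of `γ`-invariant extensions -/
def T_XJ : Prop := ∀ (ℓ : ℕ) [Fact ℓ.Prime] (Γ : Type) [Group Γ] [Fintype Γ]
  (X K : Subgroup Γ) (γ : Γ) (n : ℕ), LP ℓ X K → Nm γ K → Nm γ X → γ ^ n ∈ X → ¬ ℓ ∣ n →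
  ∀ θ ∈ IrrS K, cj γ θ = θ → (∃ χ ∈ IrrS X, ∀ k ∈ K, χ k = θ k) →
  {χ : Γ → ℂ | χ ∈ IrrS X ∧ cj γ χ = χ ∧ ∀ k ∈ K, χ k = θ k}.ncard = (LinF X K γ).ncard

/-- XK: the numbers of invariant characters which extend -/
def T_XK : Prop := ∀ (F : Type) [Field F] (π : integralClosure ℤ ℂ →+* F),
  Function.Surjective π → ∀ (ℓ : ℕ) [Fact ℓ.Prime] [CharP F ℓ]
  (Γ : Type) [Group Γ] [Fintype Γ] (Q : Type) [CommGroup Q] [Finite Q] (s : Γ →* Q)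
  (X K P : Subgroup Γ) (γ : Γ) (n : ℕ), DatX ℓ s X K P γ n →
  (∀ m, Eqv (Γ := Γ) π ℓ (fun _ => True) m) →
  ∀ χ ∈ IrrS K, DefH ℓ K (lam π χ) P →
  ∀ ψ ∈ IrrS (K ⊓ Subgroup.normalizer (P : Set Γ)), Cor π K P χ ψ →
  Blk π K χ (cj γ χ) → Sta π X K χ →
  (K0X π ℓ X K χ P γ).ncard =
    (K0X π ℓ (X ⊓ Subgroup.normalizer (P : Set Γ)) (K ⊓ Subgroup.normalizer (P : Set Γ))
      ψ P γ).ncard

/-- XL: the semidirect product as ambient group -/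
def T_XL : Prop := ∀ (ℓ : ℕ) [Fact ℓ.Prime] (G N H : Type) [Group G] [Fintype G] [Group N]
  [Fintype N] [Group H] [Fintype H] (ρ : H →* MulAut G) (j : N →* G) (ρ' : H →* MulAut N),
  Function.Injective j → (∀ h n, j (ρ' h n) = ρ h (j n)) → ∀ D : Subgroup G,
  j.range = Subgroup.normalizer (D : Set G) → (∀ h g, ρ h g ∈ D ↔ g ∈ D) →
  ∀ (P : Subgroup H) (h₀ : H) (n : ℕ), HE ℓ P h₀ n →
  ∃ (Γ : Type) (_ : Group Γ) (_ : Fintype Γ) (Q : Type) (_ : CommGroup Q) (_ : Finite Q)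
    (i : G →* Γ) (s : Γ →* Q) (X : Subgroup Γ) (γ : Γ)
    (a : (G ⋊[ρ.comp P.subtype] P) →* Γ) (b : (N ⋊[ρ'.comp P.subtype] P) →* Γ),
    Function.Injective i ∧ DatX ℓ s X i.range (D.map i) γ n ∧
    (∀ g, γ * i g * γ⁻¹ = i (ρ h₀ g)) ∧
    (∀ x ∈ X, ∃ p ∈ P, ∃ k : G, ∀ g, x * i g * x⁻¹ = i (k * ρ p g * k⁻¹)) ∧
    (∀ p ∈ P, ∃ x ∈ X ⊓ Subgroup.normalizer ((D.map i : Subgroup Γ) : Set Γ),
      ∀ g, x * i g * x⁻¹ = i (ρ p g)) ∧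
    (∀ x ∈ X ⊓ Subgroup.normalizer ((D.map i : Subgroup Γ) : Set Γ),
      ∃ p ∈ P, ∃ k : N, ∀ m : N, x * i (j m) * x⁻¹ = i (j (k * ρ' p m * k⁻¹))) ∧
    Function.Injective a ∧ a.range = X ∧ (∀ g, a (SemidirectProduct.inl g) = i g) ∧
    Function.Injective b ∧
    b.range = X ⊓ Subgroup.normalizer ((D.map i : Subgroup Γ) : Set Γ) ∧
    ∀ m, b (SemidirectProduct.inl m) = i (j m)

/-- XM: the numbers of invariant characters which extend (type level) -/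
def T_XM : Prop := ∀ (ℓ : ℕ) [Fact ℓ.Prime] (𝔪 : Ideal (integralClosure ℤ ℂ)), 𝔪.IsMaximal →
  (ℓ : integralClosure ℤ ℂ) ∈ 𝔪 → AMN ℓ 𝔪 → ∀ (G N H : Type) [Group G] [Fintype G] [Group N]
  [Fintype N] [Group H] [Fintype H] (j : N →* G) (D : Subgroup G) (E : Subgroup N)
  (χ : G → ℂ) (ψ : N → ℂ), BP ℓ 𝔪 j D E χ ψ → ∀ (ρ : H →* MulAut G) (ρ' : H →* MulAut N),
  (∀ h n, j (ρ' h n) = ρ h (j n)) → (∀ h, Fixes 𝔪 D χ (ρ h)) →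
  ∀ (P : Subgroup H) (h₀ : H) (n : ℕ), HE ℓ P h₀ n →
  (FixE ℓ 𝔪 χ D ρ P).ncard = (FixE ℓ 𝔪 ψ E ρ' P).ncard

/-- XN: the block of `ψ` is invariant -/
def T_XN : Prop := ∀ (ℓ : ℕ) [Fact ℓ.Prime] (𝔪 : Ideal (integralClosure ℤ ℂ)), 𝔪.IsMaximal →
  (ℓ : integralClosure ℤ ℂ) ∈ 𝔪 → ∀ (G N : Type) [Group G] [Fintype G] [Group N]
  [Fintype N] (j : N →* G) (D : Subgroup G) (E : Subgroup N)
  (χ : G → ℂ) (ψ : N → ℂ), BP ℓ 𝔪 j D E χ ψ → ∀ (σ : MulAut G) (σ' : MulAut N),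
  (∀ n, j (σ' n) = σ (j n)) → Fixes 𝔪 D χ σ → Fixes 𝔪 E ψ σ'

/-! ### Direct products -/

/-- XO: heights are nonnegative -/
def T_XO : Prop := ∀ (ℓ : ℕ) [Fact ℓ.Prime] (𝔪 : Ideal (integralClosure ℤ ℂ)), 𝔪.IsMaximal →
  (ℓ : integralClosure ℤ ℂ) ∈ 𝔪 → ∀ (G : Type) [Group G] [Fintype G] (D : Subgroup G),
  ∀ χ ∈ Irr G, IsDefect ℓ 𝔪 χ D → ∀ a ∈ Irr G, SameBlock 𝔪 χ a → ∀ d : ℕ, a 1 = d →
  padicValNat ℓ D.index ≤ padicValNat ℓ d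

/-- XP: irreducible characters of direct products -/
def T_XP : Prop := ∀ (G₁ G₂ : Type) [Group G₁] [Fintype G₁] [Group G₂] [Fintype G₂],
  (∀ a ∈ Irr G₁, ∀ b ∈ Irr G₂, mx a b ∈ Irr (G₁ × G₂)) ∧
  (∀ c ∈ Irr (G₁ × G₂), ∃ a ∈ Irr G₁, ∃ b ∈ Irr G₂, c = mx a b) ∧
  (∀ a ∈ Irr G₁, ∀ a' ∈ Irr G₁, ∀ b ∈ Irr G₂, ∀ b' ∈ Irr G₂, mx a b = mx a' b' →
    a = a' ∧ b = b')

/-- XQ: blocks, defect groups and Brauer correspondence of direct products -/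
def T_XQ : Prop := ∀ (ℓ : ℕ) [Fact ℓ.Prime] (𝔪 : Ideal (integralClosure ℤ ℂ)), 𝔪.IsMaximal →
  (ℓ : integralClosure ℤ ℂ) ∈ 𝔪 → ∀ (G₁ G₂ N₁ N₂ : Type) [Group G₁] [Fintype G₁] [Group G₂]
  [Fintype G₂] [Group N₁] [Fintype N₁] [Group N₂] [Fintype N₂] (j₁ : N₁ →* G₁) (j₂ : N₂ →* G₂),
  (∀ a ∈ Irr G₁, ∀ a' ∈ Irr G₁, ∀ b ∈ Irr G₂, ∀ b' ∈ Irr G₂,
    (SameBlock 𝔪 (mx a b) (mx a' b') ↔ SameBlock 𝔪 a a' ∧ SameBlock 𝔪 b b')) ∧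
  (∀ a ∈ Irr G₁, ∀ b ∈ Irr G₂, ∀ (D₁ : Subgroup G₁) (D₂ : Subgroup G₂),
    IsDefect ℓ 𝔪 a D₁ → IsDefect ℓ 𝔪 b D₂ → IsDefect ℓ 𝔪 (mx a b) (D₁.prod D₂)) ∧
  (∀ a ∈ Irr G₁, ∀ b ∈ Irr G₂, ∀ c ∈ Irr N₁, ∀ d ∈ Irr N₂, Corr 𝔪 j₁ a c → Corr 𝔪 j₂ b d →
    Corr 𝔪 (j₁.prodMap j₂) (mx a b) (mx c d))

/-- XR: characters of height zero of direct products -/
def T_XR : Prop := ∀ (ℓ : ℕ) [Fact ℓ.Prime] (𝔪 : Ideal (integralClosure ℤ ℂ)), 𝔪.IsMaximal →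
  (ℓ : integralClosure ℤ ℂ) ∈ 𝔪 → ∀ (G₁ G₂ : Type) [Group G₁] [Fintype G₁] [Group G₂]
  [Fintype G₂] (D₁ : Subgroup G₁) (D₂ : Subgroup G₂), ∀ χ₁ ∈ Irr G₁, ∀ χ₂ ∈ Irr G₂,
  IsDefect ℓ 𝔪 χ₁ D₁ → IsDefect ℓ 𝔪 χ₂ D₂ → ∀ c : G₁ × G₂ → ℂ,
  (c ∈ Irr0 ℓ 𝔪 (mx χ₁ χ₂) (D₁.prod D₂) ↔
    ∃ a ∈ Irr0 ℓ 𝔪 χ₁ D₁, ∃ b ∈ Irr0 ℓ 𝔪 χ₂ D₂, c = mx a b)

/-! ### Factor sets -/

/-- XS: existence and uniqueness of the factor set -/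
def T_XS : Prop := ∀ (G P : Type) [Group G] [Fintype G] [Group P] [Fintype P]
  (ρ : P →* MulAut G), ∀ θ ∈ Irr G, (∀ p g, θ (ρ p g) = θ g) →
  (Coc ρ θ).Nonempty ∧ ∀ α ∈ Coc ρ θ, ∀ α' : P → P → ℂ,
    (α' ∈ Coc ρ θ ↔ ∃ c : P → ℂ, (∀ p, c p ≠ 0) ∧
      ∀ p q, α' p q * c (p * q) = c p * c q * α p q)

/-- XT: equal factor sets give an extension of the product -/
def T_XT : Prop := ∀ (G₁ G₂ P : Type) [Group G₁] [Fintype G₁] [Group G₂] [Fintype G₂] [Group P]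
  [Fintype P] (ρ₁ : P →* MulAut G₁) (ρ₂ : P →* MulAut G₂), ∀ a ∈ Irr G₁, ∀ b ∈ Irr G₂,
  ∀ α, α ∈ Coc ρ₁ a → α ∈ Coc ρ₂ b → Extd (prA ρ₁ ρ₂) (mx a b)

/-- XU: an extension of the product gives equal factor sets -/
def T_XU : Prop := ∀ (G₁ G₂ P : Type) [Group G₁] [Fintype G₁] [Group G₂] [Fintype G₂] [Group P]
  [Fintype P] (ρ₁ : P →* MulAut G₁) (ρ₂ : P →* MulAut G₂), ∀ a ∈ Irr G₁, ∀ b ∈ Irr G₂,
  (∀ p g, a (ρ₁ p g) = a g) → (∀ p g, b (ρ₂ p g) = b g) → Extd (prA ρ₁ ρ₂) (mx a b) →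
  ∃ α, α ∈ Coc ρ₁ a ∧ α ∈ Coc ρ₂ b

/-- XV: the quadratic trick -/
def T_XV : Prop := ∀ (T A B : Type) [Finite A] [Finite B] (c : A → T) (d : B → T),
  {p : A × A | c p.1 = c p.2}.ncard = {p : A × B | c p.1 = d p.2}.ncard →
  {p : A × B | c p.1 = d p.2}.ncard = {p : B × B | d p.1 = d p.2}.ncard →
  Nat.card A = Nat.card B

/-- XW: the numbers of characters of height zero fixed by `H` -/
def T_XW : Prop := ∀ (ℓ : ℕ) [Fact ℓ.Prime] (𝔪 : Ideal (integralClosure ℤ ℂ)), 𝔪.IsMaximal →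
  (ℓ : integralClosure ℤ ℂ) ∈ 𝔪 → AMN ℓ 𝔪 → ∀ (G N H : Type) [Group G] [Fintype G] [Group N]
  [Fintype N] [Group H] [Fintype H] (j : N →* G) (D : Subgroup G) (E : Subgroup N)
  (χ : G → ℂ) (ψ : N → ℂ), BP ℓ 𝔪 j D E χ ψ → ∀ (ρ : H →* MulAut G) (ρ' : H →* MulAut N),
  (∀ h n, j (ρ' h n) = ρ h (j n)) → (∀ h, Fixes 𝔪 D χ (ρ h)) → Hypo ℓ H →
  (FixH ℓ 𝔪 χ D ρ).ncard = (FixH ℓ 𝔪 ψ E ρ').ncard

/-- XX: Burnside's theorem on marks, with colours -/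
def T_XX : Prop := ∀ (H A B T : Type) [Group H] [Finite H] [Finite A] [Finite B]
  (α : H →* Equiv.Perm A) (β : H →* Equiv.Perm B) (τ : H → T → T) (c : A → T) (d : B → T),
  (∀ h a, c (α h a) = τ h (c a)) → (∀ h b, d (β h b) = τ h (d b)) →
  (∀ (S : Subgroup H) (v : T), {a | c a = v ∧ ∀ s ∈ S, α s a = a}.ncard =
    {b | d b = v ∧ ∀ s ∈ S, β s b = b}.ncard) →
  ∃ f : A ≃ B, (∀ h a, f (α h a) = β h (f a)) ∧ ∀ a, d (f a) = c a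

/-! ### Central characters, for a group `H` of automorphisms -/

/-- the restriction of an action to the normaliser of `D` -/
def rsH {G H : Type} [Group G] [Group H] (D : Subgroup G) (ρ : H →* MulAut G)
    (hρ : ∀ h g, ρ h g ∈ D ↔ g ∈ D) : H →* MulAut (Subgroup.normalizer (D : Set G)) where
  toFun h := rs D (ρ h) (hρ h)
  map_one' := by
    apply MulEquiv.ext
    intro x
    apply Subtype.ext
    rw [rs_coe, map_one]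
    rfl
  map_mul' h h' := by
    apply MulEquiv.ext
    intro x
    apply Subtype.ext
    rw [rs_coe, map_mul]
    rfl

/-- the `H`-invariant characters of height zero over the function `ν` on `Z` -/
def FixCH {N H : Type} [Group N] [Fintype N] [Group H] (ℓ : ℕ)
    (𝔪 : Ideal (integralClosure ℤ ℂ)) (χ : N → ℂ) (D : Subgroup N) (ρ : H →* MulAut N)
    (Z : Subgroup N) (ν : N → ℂ) : Set (N → ℂ) :=
  {a | a ∈ Irr0 ℓ 𝔪 χ D ∧ (∀ h g, a (ρ h g) = a g) ∧ ∀ z ∈ Z, a z = ν z * a 1}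

/-- equal numbers of `H`-invariant characters, for all groups and all defect groups in `𝓓` -/
def CountH (ℓ : ℕ) (𝔪 : Ideal (integralClosure ℤ ℂ)) (𝓓 : (D : Type) → [Group D] → Prop)
    (H : Type) [Group H] : Prop :=
  ∀ (G : Type) [Group G] [Fintype G] (D : Subgroup G) (χ : G → ℂ)
    (ψ : Subgroup.normalizer (D : Set G) → ℂ), Brauer ℓ 𝔪 D χ ψ → 𝓓 D →
    ∀ (ρ : H →* MulAut G) (hρ : ∀ h, Fixes 𝔪 D χ (ρ h)),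
      (FixCH ℓ 𝔪 χ D ρ ⊥ 1).ncard =
        (FixCH ℓ 𝔪 ψ (D.subgroupOf (Subgroup.normalizer (D : Set G)))
          (rsH D ρ (fun h => (hρ h).1)) ⊥ 1).ncard

/-- YA: the numbers of characters above `ν` and `ν ^ m` -/
def T_YA : Prop := ∀ (ℓ : ℕ) [Fact ℓ.Prime] (𝔪 : Ideal (integralClosure ℤ ℂ)), 𝔪.IsMaximal →
  (ℓ : integralClosure ℤ ℂ) ∈ 𝔪 → ∀ (N H : Type) [Group N] [Fintype N] [Group H]
  (D : Subgroup N), ∀ χ ∈ Irr N, ∀ (ρ : H →* MulAut N) (Z : Subgroup N) (ν : N → ℂ), ν 1 = 1 →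
  (∀ z ∈ Z, ∀ w ∈ Z, ν (z * w) = ν z * ν w) → ∀ m : ℕ, (Nat.card N).Coprime m →
  (∀ g : N, ¬ ℓ ∣ orderOf g → g ^ m = g) →
  (FixCH ℓ 𝔪 χ D ρ Z (fun z => ν z ^ m)).ncard = (FixCH ℓ 𝔪 χ D ρ Z ν).ncard

/-- YB: invariant characters whose kernel contains a central `ℓ`-subgroup -/
def T_YB : Prop := ∀ (ℓ : ℕ) [Fact ℓ.Prime] (𝔪 : Ideal (integralClosure ℤ ℂ)), 𝔪.IsMaximal →
  (ℓ : integralClosure ℤ ℂ) ∈ 𝔪 → ∀ 𝓓 : (D : Type) → [Group D] → Prop,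
  (∀ (D E : Type) [Group D] [Group E] (f : D →* E), Function.Surjective f → 𝓓 D → 𝓓 E) →
  ∀ (H : Type) [Group H] [Fintype H], CountH ℓ 𝔪 𝓓 H → ∀ (G : Type) [Group G] [Fintype G]
  (D : Subgroup G) (χ : G → ℂ) (ψ : Subgroup.normalizer (D : Set G) → ℂ), Brauer ℓ 𝔪 D χ ψ →
  𝓓 D → ∀ (ρ : H →* MulAut G) (hρ : ∀ h, Fixes 𝔪 D χ (ρ h)) (Z : Subgroup G),
  Z ≤ Subgroup.center G → IsPGroup ℓ Z → (∀ h g, ρ h g ∈ Z ↔ g ∈ Z) →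
  (FixCH ℓ 𝔪 χ D ρ Z 1).ncard =
    (FixCH ℓ 𝔪 ψ (D.subgroupOf (Subgroup.normalizer (D : Set G)))
      (rsH D ρ (fun h => (hρ h).1)) (Z.subgroupOf (Subgroup.normalizer (D : Set G))) 1).ncard

/-- YC: invariant characters above a given character of a central `ℓ`-subgroup -/
def T_YC : Prop := ∀ (ℓ : ℕ) [Fact ℓ.Prime] (𝔪 : Ideal (integralClosure ℤ ℂ)), 𝔪.IsMaximal →
  (ℓ : integralClosure ℤ ℂ) ∈ 𝔪 → ∀ 𝓓 : (D : Type) → [Group D] → Prop,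
  (∀ (D E : Type) [Group D] [Group E] (f : D →* E), Function.Surjective f → 𝓓 D → 𝓓 E) →
  ∀ (H : Type) [Group H] [Fintype H], CountH ℓ 𝔪 𝓓 H → ∀ (G : Type) [Group G] [Fintype G]
  (D : Subgroup G) (χ : G → ℂ) (ψ : Subgroup.normalizer (D : Set G) → ℂ), Brauer ℓ 𝔪 D χ ψ →
  𝓓 D → ∀ (ρ : H →* MulAut G) (hρ : ∀ h, Fixes 𝔪 D χ (ρ h)) (Z : Subgroup G),
  Z ≤ Subgroup.center G → IsPGroup ℓ Z → (∀ h g, ρ h g ∈ Z ↔ g ∈ Z) → ∀ ν : G → ℂ, ν 1 = 1 →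
  (∀ z ∈ Z, ∀ w ∈ Z, ν (z * w) = ν z * ν w) → (∀ h, ∀ z ∈ Z, ν (ρ h z) = ν z) →
  (FixCH ℓ 𝔪 χ D ρ Z ν).ncard =
    (FixCH ℓ 𝔪 ψ (D.subgroupOf (Subgroup.normalizer (D : Set G)))
      (rsH D ρ (fun h => (hρ h).1)) (Z.subgroupOf (Subgroup.normalizer (D : Set G)))
      (fun x => ν x)).ncard

end AMe
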