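import Pool.Agent.H77.EA.Main2
import Pool.Agent.H77.EA.Stat3
import Pool.Agent.H77.EA.Targets3

/-!
# Equivariant Alperin–McKay (MP_657073_al): bijections commuting with groups of automorphisms
-/

open scoped Classical

set_option linter.unusedSectionVars false

namespace Pool.Agent.H77.EA

open AMc AMe

theorem irr_ne (hA3 : T_A3) {N : Type} [Group N] [Fintype N] {a : N → ℂ} (ha : a ∈ Irr N) :
    a 1 ≠ 0 := by
  obtain ⟨-, d, hd, h⟩ := (hA3 N).1 a ha
  rw [h]
  exact_mod_cast hd.ne'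

theorem cmul (hA3 : T_A3) (hZH : T_ZH) {N : Type} [Group N] [Fintype N] {a : N → ℂ}
    (ha : a ∈ Irr N) {z w : N} (hz : z ∈ Subgroup.center N) :
    a (z * w) / a 1 = a z / a 1 * (a w / a 1) := by
  have h0 := irr_ne hA3 ha
  have h1 := (hZH N a ha z hz).1 w
  field_simp
  exact h1

theorem bp_of_brauer {ℓ : ℕ} {𝔪 : Ideal (integralClosure ℤ ℂ)} {G : Type} [Group G] [Fintype G]
    {D : Subgroup G} {χ : G → ℂ} {ψ : Subgroup.normalizer (D : Set G) → ℂ}
    (h : Brauer ℓ 𝔪 D χ ψ) :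
    BP ℓ 𝔪 (Subgroup.normalizer (D : Set G)).subtype D
      (D.subgroupOf (Subgroup.normalizer (D : Set G))) χ ψ where
  inj := Subtype.val_injective
  rng := Subgroup.range_subtype _
  map := by
    rw [Subgroup.subgroupOf_map_subtype, inf_eq_left.2 Subgroup.le_normalizer]
  irr := h.1
  irr' := h.2.1
  dfc := h.2.2.1
  dfc' := h.2.2.2.1
  cor := h.2.2.2.2

/-- the bijection from the numbers of fixed points -/
theorem equivBijA (hA3 : T_A3) (hZH : T_ZH) (hZP : T_ZP) (hXN : T_XN) (hXX : T_XX) (hYC : T_YC)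
    (hfin : ∀ (N : Type) [Group N] [Fintype N], (Irr N).Finite)
    {ℓ : ℕ} [Fact ℓ.Prime] {𝔪 : Ideal (integralClosure ℤ ℂ)} (h𝔪 : 𝔪.IsMaximal)
    (hℓ : (ℓ : integralClosure ℤ ℂ) ∈ 𝔪) {𝓓 : (D : Type) → [Group D] → Prop}
    (hquo : ∀ (D E : Type) [Group D] [Group E] (f : D →* E), Function.Surjective f → 𝓓 D → 𝓓 E)
    {G : Type} [Group G] [Fintype G] {D : Subgroup G} {χ : G → ℂ}
    {ψ : Subgroup.normalizer (D : Set G) → ℂ} (hB : Brauer ℓ 𝔪 D χ ψ) (hD : 𝓓 D)
    (A : Subgroup (MulAut G)) (hA : ∀ σ ∈ A, Fixes 𝔪 D χ σ)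
    (hcnt : ∀ S : Subgroup A, CountH ℓ 𝔪 𝓓 S) : EquivBijA ℓ 𝔪 D χ ψ A := by
  have hst : ∀ σ ∈ A, ∀ g, σ g ∈ D ↔ g ∈ D := fun σ hσ => (hA σ hσ).1
  have hA' : ∀ σ : A, Fixes 𝔪 (D.subgroupOf (Subgroup.normalizer (D : Set G))) ψ
      (rsHom D A hst σ) := fun σ =>
    hXN ℓ 𝔪 h𝔪 hℓ G _ _ D _ χ ψ (bp_of_brauer hB) σ.1 (rsHom D A hst σ) (fun _ => rfl)
      (hA σ.1 σ.2)
  have fA : Finite (Irr0 ℓ 𝔪 χ D) := ((hfin _).subset (fun _ h => h.1)).to_subtype
  have fB : Finite (Irr0 ℓ 𝔪 ψ (D.subgroupOf (Subgroup.normalizer (D : Set G)))) :=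
    ((hfin _).subset (fun _ h => h.1)).to_subtype
  have hzN : ∀ z : lz ℓ G, (z : G) ∈ Subgroup.normalizer (D : Set G) := fun z =>
    center_le_normalizer D (lz_le ℓ G z.2)
  have hzc : ∀ z : Subgroup.normalizer (D : Set G), (z : G) ∈ Subgroup.center G →
      z ∈ Subgroup.center (Subgroup.normalizer (D : Set G)) := by
    intro z hz
    rw [Subgroup.mem_center_iff] at hz ⊢
    intro g
    exact Subtype.ext (hz g)
  set α := actHom (ℓ := ℓ) (𝔪 := 𝔪) (χ := χ) (D := D) A A.subtype (fun σ => hA σ.1 σ.2) with hα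
  set β := actHom (ℓ := ℓ) (𝔪 := 𝔪) (χ := ψ)
    (D := D.subgroupOf (Subgroup.normalizer (D : Set G))) A (rsHom D A hst) hA' with hβ
  obtain ⟨f, hf1, hf2⟩ := hXX A (Irr0 ℓ 𝔪 χ D)
    (Irr0 ℓ 𝔪 ψ (D.subgroupOf (Subgroup.normalizer (D : Set G))))
    (lz ℓ G → ℂ) α β
    (fun σ v z => v ⟨(σ⁻¹ : A).1 z, (lz_map (σ⁻¹ : A).1 (z : G)).2 z.2⟩)
    (fun a z => a.1 (z : G) / a.1 1) (fun b z => b.1 ⟨z, hzN z⟩ / b.1 1)
    (by
      intro σ a
      funext z
      show a.1 ((σ⁻¹ : A).1 z) / a.1 ((σ⁻¹ : A).1 1) = _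
      rw [map_one])
    (by
      intro σ b
      funext z
      show b.1 (rsHom D A hst σ⁻¹ ⟨z, hzN z⟩) / b.1 (rsHom D A hst σ⁻¹ 1) = _
      rw [map_one]
      rfl)
    (by
      intro S v
      set ρ : S →* MulAut G := A.subtype.comp S.subtype with hρ
      have hρF : ∀ h, Fixes 𝔪 D χ (ρ h) := fun h => hA _ (h : A).2
      -- fixed points
      have e1 : ∀ a : Irr0 ℓ 𝔪 χ D, (∀ s ∈ S, α s a = a) ↔ ∀ (h : S) g, a.1 (ρ h g) = a.1 g := by
        intro a
        constructor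
        · intro h s g
          have := congrArg (fun c : Irr0 ℓ 𝔪 χ D => c.1 g) (h (s : A)⁻¹ (S.inv_mem s.2))
          have h2 : a.1 (A.subtype ((s : A)⁻¹)⁻¹ g) = a.1 g := this
          rw [inv_inv] at h2
          exact h2
        · intro h s hs
          apply Subtype.ext
          funext g
          exact h (⟨s, hs⟩⁻¹) g
      have e2 : ∀ b : Irr0 ℓ 𝔪 ψ (D.subgroupOf (Subgroup.normalizer (D : Set G))),
          (∀ s ∈ S, β s b = b) ↔
            ∀ (h : S) g, b.1 (rsH D ρ (fun h => (hρF h).1) h g) = b.1 g := by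
        intro b
        constructor
        · intro h s g
          have := congrArg (fun c : Irr0 ℓ 𝔪 ψ
            (D.subgroupOf (Subgroup.normalizer (D : Set G))) => c.1 g)
            (h (s : A)⁻¹ (S.inv_mem s.2))
          have h2 : b.1 (rsHom D A hst ((s : A)⁻¹)⁻¹ g) = b.1 g := this
          rw [inv_inv] at h2
          exact h2
        · intro h s hs
          apply Subtype.ext
          funext g
          exact h (⟨s, hs⟩⁻¹) g
      have hinjA : Function.Injective (Subtype.val : Irr0 ℓ 𝔪 χ D → (G → ℂ)) :=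
        Subtype.val_injective
      by_cases hv : v 1 = 1 ∧ (∀ z w : lz ℓ G, v (z * w) = v z * v w) ∧
          ∀ (h : S) (z : lz ℓ G), v ⟨ρ h z, (lz_map (ρ h) (z : G)).2 z.2⟩ = v z
      · obtain ⟨hv1, hv2, hv3⟩ := hv
        obtain ⟨ν, hν⟩ : ∃ ν : G → ℂ, ∀ z : lz ℓ G, ν z = v z :=
          ⟨fun g => if h : g ∈ lz ℓ G then v ⟨g, h⟩ else 0, fun z => by
            simp only [dif_pos z.2]⟩
        have key := hYC ℓ 𝔪 h𝔪 hℓ 𝓓 hquo S (hcnt S) G D χ ψ hB hD ρ hρF (lz ℓ G) (lz_le ℓ G)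
          (lz_pgroup ℓ G) (fun h => lz_map (ρ h)) ν (by rw [← hv1]; exact hν 1)
          (by
            intro z hz w hw
            have := hν (⟨z, hz⟩ * ⟨w, hw⟩)
            rw [hv2] at this
            rw [← hν, ← hν] at this
            exact this)
          (by
            intro h z hz
            have := hv3 h ⟨z, hz⟩
            rw [← hν, ← hν] at this
            exact this)
        rw [← Set.ncard_image_of_injective _ Subtype.val_injective,
          ← Set.ncard_image_of_injective _ (Subtype.val_injective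
            (p := fun b => b ∈ Irr0 ℓ 𝔪 ψ (D.subgroupOf (Subgroup.normalizer (D : Set G)))))]
        have c1 : Subtype.val '' {a : Irr0 ℓ 𝔪 χ D |
            (fun z : lz ℓ G => a.1 (z : G) / a.1 1) = v ∧ ∀ s ∈ S, α s a = a} =
            FixCH ℓ 𝔪 χ D ρ (lz ℓ G) ν := by
          ext a
          constructor
          · rintro ⟨a, ⟨h1, h2⟩, rfl⟩
            have h0 := irr_ne hA3 a.2.1
            refine ⟨a.2, (e1 a).1 h2, fun z hz => ?_⟩
            have := congrFun h1 ⟨z, hz⟩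
            rw [← hν] at this
            show a.1 z = ν z * a.1 1
            rw [← this]
            field_simp
          · rintro ⟨h1, h2, h3⟩
            have h0 := irr_ne hA3 h1.1
            refine ⟨⟨a, h1⟩, ⟨?_, (e1 ⟨a, h1⟩).2 h2⟩, rfl⟩
            funext z
            show a z / a 1 = v z
            rw [← hν, h3 z z.2]
            field_simp
        have c2 : Subtype.val '' {b : Irr0 ℓ 𝔪 ψ
              (D.subgroupOf (Subgroup.normalizer (D : Set G))) |
            (fun z : lz ℓ G => b.1 ⟨z, hzN z⟩ / b.1 1) = v ∧ ∀ s ∈ S, β s b = b} =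
            FixCH ℓ 𝔪 ψ (D.subgroupOf (Subgroup.normalizer (D : Set G)))
              (rsH D ρ (fun h => (hρF h).1))
              ((lz ℓ G).subgroupOf (Subgroup.normalizer (D : Set G))) (fun x => ν x) := by
          ext b
          constructor
          · rintro ⟨b, ⟨h1, h2⟩, rfl⟩
            have h0 := irr_ne hA3 b.2.1
            refine ⟨b.2, (e2 b).1 h2, fun z hz => ?_⟩
            have := congrFun h1 ⟨z, hz⟩
            rw [← hν] at this
            show b.1 z = ν z * b.1 1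
            rw [← this]
            field_simp
          · rintro ⟨h1, h2, h3⟩
            have h0 := irr_ne hA3 h1.1
            refine ⟨⟨b, h1⟩, ⟨?_, (e2 ⟨b, h1⟩).2 h2⟩, rfl⟩
            funext z
            show b ⟨z, hzN z⟩ / b 1 = v z
            rw [← hν, h3 ⟨z, hzN z⟩ z.2]
            field_simp
        rw [c1, c2]
        exact key
      · have c1 : {a : Irr0 ℓ 𝔪 χ D |
            (fun z : lz ℓ G => a.1 (z : G) / a.1 1) = v ∧ ∀ s ∈ S, α s a = a} = ∅ := by
          rw [Set.eq_empty_iff_forall_notMem]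
          rintro a ⟨h, h2⟩
          apply hv
          have h0 := irr_ne hA3 a.2.1
          rw [← h]
          refine ⟨div_self h0, fun z w => cmul hA3 hZH a.2.1 (lz_le ℓ G z.2), fun s z => ?_⟩
          show a.1 (ρ s z) / a.1 1 = a.1 z / a.1 1
          rw [(e1 a).1 h2 s z]
        have c2 : {b : Irr0 ℓ 𝔪 ψ (D.subgroupOf (Subgroup.normalizer (D : Set G))) |
            (fun z : lz ℓ G => b.1 ⟨z, hzN z⟩ / b.1 1) = v ∧ ∀ s ∈ S, β s b = b} = ∅ := by
          rw [Set.eq_empty_iff_forall_notMem]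
          rintro b ⟨h, h2⟩
          apply hv
          have h0 := irr_ne hA3 b.2.1
          rw [← h]
          refine ⟨div_self h0, fun z w => ?_, fun s z => ?_⟩
          · exact cmul hA3 hZH b.2.1 (z := ⟨z, hzN z⟩) (w := ⟨w, hzN w⟩)
              (hzc _ (lz_le ℓ G z.2))
          show b.1 ⟨ρ s z, _⟩ / b.1 1 = b.1 ⟨z, hzN z⟩ / b.1 1
          have h4 := (e2 b).1 h2 s ⟨z, hzN z⟩
          rw [show (⟨ρ s z, hzN ⟨ρ s z, (lz_map (ρ s) (z : G)).2 z.2⟩⟩ :
            Subgroup.normalizer (D : Set G)) =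
              rsH D ρ (fun h => (hρF h).1) s ⟨z, hzN z⟩ from rfl, h4]
        rw [c1, c2, Set.ncard_empty, Set.ncard_empty])
  refine ⟨f, fun σ hσ a b hab x y hxy => ?_, fun a z hz => ?_⟩
  · have h1 : b = α (⟨σ, hσ⟩⁻¹) a := by
      apply Subtype.ext
      funext g
      rw [hα, actHom_apply, inv_inv]
      exact hab g
    rw [h1, hf1, hβ, actHom_apply, inv_inv]
    have h2 : rsHom D A hst ⟨σ, hσ⟩ x = y := Subtype.ext hxy.symm
    rw [h2]
  · obtain ⟨x, hx, y, hy, hyℓ, hxy⟩ := center_decomp (Fact.out : ℓ.Prime) hz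
    have h0 := irr_ne hA3 a.2.1
    have h0' := irr_ne hA3 (f a).2.1
    have hyN : y ∈ Subgroup.normalizer (D : Set G) := center_le_normalizer D hy
    have e1 : (f a).1 ⟨x, hzN ⟨x, hx⟩⟩ / (f a).1 1 = a.1 x / a.1 1 := congrFun (hf2 a) ⟨x, hx⟩
    have e2 := hZP ℓ 𝔪 h𝔪 hℓ G D χ ψ hB ⟨y, hyN⟩ hy hyℓ a.1 a.2 (f a).1 (f a).2
    have e3 : a.1 z / a.1 1 = a.1 x / a.1 1 * (a.1 y / a.1 1) := by
      rw [hxy]
      exact cmul hA3 hZH a.2.1 (lz_le ℓ G hx)
    have e4 : (f a).1 z / (f a).1 1 =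
        (f a).1 ⟨x, hzN ⟨x, hx⟩⟩ / (f a).1 1 * ((f a).1 ⟨y, hyN⟩ / (f a).1 1) := by
      have hz' : z = ⟨x, hzN ⟨x, hx⟩⟩ * ⟨y, hyN⟩ := Subtype.ext hxy
      rw [hz']
      exact cmul hA3 hZH (f a).2.1 (hzc _ (lz_le ℓ G hx))
    have e5 : (f a).1 ⟨y, hyN⟩ / (f a).1 1 = a.1 y / a.1 1 := by
      rw [div_eq_div_iff h0' h0]
      exact e2
    rw [e1, e5, ← e3, div_eq_div_iff h0' h0] at e4
    exact e4

end Pool.Agent.H77.EA
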