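import Pool.Agent.H77.EA.Final
import Pool.Agent.H77.EA.Main3

/-!
# Equivariant Alperin–McKay (MP_657073_al): the final statement for groups of automorphisms
-/

open scoped Classical

set_option linter.unusedSectionVars false

namespace Pool.Agent.H77.EA

open AMc AMe

theorem fixCH_bot {N H : Type} [Group N] [Fintype N] [Group H] (ℓ : ℕ)
    (𝔪 : Ideal (integralClosure ℤ ℂ)) (χ : N → ℂ) (D : Subgroup N) (ρ : H →* MulAut N) :
    FixCH ℓ 𝔪 χ D ρ ⊥ 1 = FixH ℓ 𝔪 χ D ρ := by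
  ext a
  constructor
  · rintro ⟨h1, h2, -⟩
    exact ⟨h1, h2⟩
  · rintro ⟨h1, h2⟩
    refine ⟨h1, h2, fun z hz => ?_⟩
    rw [Subgroup.mem_bot] at hz
    rw [hz, Pi.one_apply, one_mul]

theorem countH_all (hXW : T_XW) {ℓ : ℕ} [Fact ℓ.Prime] {𝔪 : Ideal (integralClosure ℤ ℂ)}
    (h𝔪 : 𝔪.IsMaximal) (hℓ : (ℓ : integralClosure ℤ ℂ) ∈ 𝔪) (hAM : AMN ℓ 𝔪)
    (𝓓 : (D : Type) → [Group D] → Prop) (S : Type) [Group S] [Fintype S] (hS : Hypo ℓ S) :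
    CountH ℓ 𝔪 𝓓 S := by
  intro G _ _ D χ ψ hB _ ρ hρ
  rw [fixCH_bot, fixCH_bot]
  exact hXW ℓ 𝔪 h𝔪 hℓ hAM G _ S _ D _ χ ψ (bp_of_brauer hB) ρ _ (fun h n => rfl) hρ hS

section

variable {F : Type} [Field F] {π : integralClosure ℤ ℂ →+* F} (hπ : Function.Surjective π)
  {ℓ : ℕ} [Fact ℓ.Prime] [CharP F ℓ] (H : HypF)
include hπ H

theorem countH_cyc {𝓓 : (D : Type) → [Group D] → Prop}
    (hiso : ∀ (D E : Type) [Group D] [Group E], Nonempty (D ≃* E) → 𝓓 D → 𝓓 E)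
    (hAM : ∀ (G : Type) [Group G] [Fintype G] (D : Subgroup G) (χ : G → ℂ)
      (ψ : Subgroup.normalizer (D : Set G) → ℂ), Brauer ℓ (RingHom.ker π) D χ ψ → 𝓓 D →
      (Irr0 ℓ (RingHom.ker π) χ D).ncard =
        (Irr0 ℓ (RingHom.ker π) ψ (D.subgroupOf (Subgroup.normalizer (D : Set G)))).ncard)
    (S : Type) [Group S] [Fintype S] (hc : IsCyclic S) (hS : ¬ ℓ ∣ Nat.card S) :
    CountH ℓ (RingHom.ker π) 𝓓 S := by
  intro G _ _ D χ ψ hB hD ρ hρ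
  obtain ⟨s₀, hs₀⟩ := hc.exists_generator
  have hord : ¬ ℓ ∣ orderOf (ρ s₀) := by
    intro h
    exact hS (h.trans ((orderOf_map_dvd ρ s₀).trans (orderOf_dvd_natCard s₀)))
  obtain ⟨hσ', h1⟩ := count hπ H hiso hAM hB hD (hρ s₀) (Or.inl hord)
  have key : ∀ {N : Type} [Group N] [Fintype N] {D : Subgroup N} {χ : N → ℂ}
      (r : S →* MulAut N) (h : Fixes (RingHom.ker π) D χ (r s₀)),
      (FixCH ℓ (RingHom.ker π) χ D r ⊥ 1).ncard =
        {a : Irr0 ℓ (RingHom.ker π) χ D | act (r s₀) h a = a}.ncard := by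
    intro N _ _ D χ r h
    have h2 := fix_card (ℓ := ℓ) h (fun _ => True)
    have e1 : {a : Irr0 ℓ (RingHom.ker π) χ D | True ∧ act (r s₀) h a = a} =
        {a : Irr0 ℓ (RingHom.ker π) χ D | act (r s₀) h a = a} := by
      ext a
      exact ⟨fun h => h.2, fun h => ⟨trivial, h⟩⟩
    rw [e1] at h2
    rw [h2, fixCH_bot]
    congr 1
    ext a
    constructor
    · rintro ⟨h3, h4⟩
      exact ⟨h3, h4 s₀, trivial⟩
    · rintro ⟨h3, h4, -⟩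
      refine ⟨h3, fun s g => ?_⟩
      obtain ⟨k, hk⟩ := hs₀ s
      have hk' : s₀ ^ k = s := hk
      have h5 : ∀ m : ℕ, ∀ g, a ((r s₀ ^ m) g) = a g := by
        intro m
        induction m with
        | zero => intro g; rfl
        | succ m ih =>
          intro g
          rw [pow_succ', MulAut.mul_apply, h4, ih]
      obtain ⟨m, hm⟩ : ∃ m : ℕ, s₀ ^ m = s := by
        have hfo : IsOfFinOrder s₀ := isOfFinOrder_of_finite s₀
        exact (Submonoid.mem_powers_iff _ _).1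
          ((IsOfFinOrder.mem_powers_iff_mem_zpowers hfo).2 ⟨k, hk'⟩)
      rw [← hm, map_pow]
      exact h5 m g
  rw [key ρ (hρ s₀), h1]
  exact (key (rsH D ρ (fun h => (hρ h).1)) hσ').symm

end

/-- the facts used in the final theorem -/
structure HypH : Prop extends HypG where
  XN : T_XN
  XW : T_XW
  XX : T_XX
  XY : T_XY
  YC : T_YC

theorem final3 (H : HypH) (ℓ : ℕ) [Fact ℓ.Prime] (𝔪 : Ideal (integralClosure ℤ ℂ))
    (hm : 𝔪.IsMaximal) (hl : (ℓ : integralClosure ℤ ℂ) ∈ 𝔪)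
    (𝓓 : (D : Type) → [Group D] → Prop)
    (hquo : ∀ (D E : Type) [Group D] [Group E] (f : D →* E), Function.Surjective f → 𝓓 D → 𝓓 E) :
    [∀ (G : Type) [Group G] [Fintype G] (D : Subgroup G) (χ : G → ℂ)
        (ψ : Subgroup.normalizer (D : Set G) → ℂ), Brauer ℓ 𝔪 D χ ψ → 𝓓 D →
        (Irr0 ℓ 𝔪 χ D).ncard =
          (Irr0 ℓ 𝔪 ψ (D.subgroupOf (Subgroup.normalizer (D : Set G)))).ncard,
     ∀ (G : Type) [Group G] [Fintype G] (D : Subgroup G) (χ : G → ℂ)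
        (ψ : Subgroup.normalizer (D : Set G) → ℂ), Brauer ℓ 𝔪 D χ ψ → 𝓓 D →
        ∀ A : Subgroup (MulAut G), (∀ σ ∈ A, Fixes 𝔪 D χ σ) → Hypo ℓ A →
        (¬ ℓ ∣ Nat.card A ∨ ∀ (E : Type) [Group E], 𝓓 E) → EquivBijA ℓ 𝔪 D χ ψ A,
     ∀ (G : Type) [Group G] [Fintype G] (D : Subgroup G) (χ : G → ℂ)
        (ψ : Subgroup.normalizer (D : Set G) → ℂ), Brauer ℓ 𝔪 D χ ψ → 𝓓 D →
        ∀ A : Subgroup (MulAut G), (∀ σ ∈ A, Fixes 𝔪 D χ σ) →
        (¬ ℓ ∣ Nat.card A ∨ ∀ (E : Type) [Group E], 𝓓 E) → SameOrbits ℓ 𝔪 D χ ψ A].TFAE := by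
  obtain ⟨F, _, π, hπ, rfl, _⟩ := exists_field ℓ 𝔪 hm hl
  have h1ℓ : ¬ ℓ ∣ 1 := (Fact.out : ℓ.Prime).one_lt.ne' ∘ Nat.dvd_one.1
  have hiso : ∀ (D E : Type) [Group D] [Group E], Nonempty (D ≃* E) → 𝓓 D → 𝓓 E := by
    rintro D E _ _ ⟨e⟩ h
    exact hquo D E e.toMonoidHom e.surjective h
  have M := main hπ H.toHypF H.S9 (ℓ := ℓ) (𝓓 := 𝓓) hiso
  have M13 := (M.out 0 2).1
  have hbot : ∀ {G : Type} [Group G] [Fintype G] (D : Subgroup G) (χ : G → ℂ),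
      ∀ σ ∈ (⊥ : Subgroup (MulAut G)), Fixes (RingHom.ker π) D χ σ := by
    intro G _ _ D χ σ hσ
    rw [Subgroup.mem_bot] at hσ
    rw [hσ]
    exact fixes_one D χ
  tfae_have 1 → 2 := by
    intro hAM G _ _ D χ ψ hB hD A hA hH hc
    refine equivBijA H.A3 H.ZH H.ZP H.XN H.XX H.YC (irr_finite hπ H.toHypF H.S9) hm hl hquo hB hD
      A hA fun S => ?_
    rcases hc with hc | hc
    · have hcard : ¬ ℓ ∣ Nat.card S := fun h => hc (h.trans (Subgroup.card_subgroup_dvd_card S))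
      exact countH_cyc hπ H.toHypF hiso hAM S
        ((H.XY ℓ S ((H.XY ℓ A hH).2.1 S)).2.2 hcard) hcard
    · exact countH_all H.XW hm hl (fun G _ _ D χ ψ h => hAM G D χ ψ h (hc D)) 𝓓 S
        ((H.XY ℓ A hH).2.1 S)
  tfae_have 1 → 3 := by
    intro hAM G _ _ D χ ψ hB hD A hA hc
    exact M13 hAM G D χ ψ hB hD A hA hc
  tfae_have 2 → 1 := by
    intro h G _ _ D χ ψ hB hD
    obtain ⟨f, -⟩ := h G D χ ψ hB hD ⊥ (hbot D χ)
      ⟨⊥, inferInstance, IsPGroup.of_bot, inferInstance⟩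
      (Or.inl (by rw [Subgroup.card_bot]; exact h1ℓ))
    exact card_of_equiv f
  tfae_have 3 → 1 := by
    intro h G _ _ D χ ψ hB hD
    exact card_of_orbits (h G D χ ψ hB hD ⊥ (hbot D χ)
      (Or.inl (by rw [Subgroup.card_bot]; exact h1ℓ)))
  tfae_finish

end Pool.Agent.H77.EA
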