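import Pool.Agent.H62.EA.XF

/-!
# Equivariant Alperin–McKay (MP_657073_al), module XK: invariant characters which extend
-/

open scoped Classical ComplexConjugate

set_option linter.unusedSectionVars false

namespace Pool.Agent.H77.EA

open AMe AMc

section

variable {Γ : Type} [Group Γ] [Fintype Γ]

/-- the invariant characters of `X` above `A` are counted by their restrictions -/
theorem abvR_ncard (hXJ : T_XJ) (hS1 : T_S1) (hS9 : T_S9) {ℓ : ℕ} [Fact ℓ.Prime]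
    {X K : Subgroup Γ} {γ : Γ} {n : ℕ} (hLP : LP ℓ X K) (hK : Nm γ K) (hX : Nm γ X)
    (hn : γ ^ n ∈ X) (hℓ : ¬ ℓ ∣ n) (A : Set (Γ → ℂ)) (hA : A ⊆ IrrS K) :
    (AbvR X K A γ).ncard = {θ : Γ → ℂ | θ ∈ A ∧ (∀ x ∈ X, cj x θ = θ) ∧ cj γ θ = θ ∧
      ∃ χ' ∈ IrrS X, ∀ k ∈ K, χ' k = θ k}.ncard * (LinF X K γ).ncard := by
  set B : Set (Γ → ℂ) := {θ : Γ → ℂ | θ ∈ A ∧ (∀ x ∈ X, cj x θ = θ) ∧ cj γ θ = θ ∧
      ∃ χ' ∈ IrrS X, ∀ k ∈ K, χ' k = θ k} with hB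
  obtain ⟨fX, hfX, -⟩ := hS9 Γ X
  obtain ⟨fK, hfK, -⟩ := hS9 Γ K
  have hfin1 : (AbvR X K A γ).Finite :=
    (Finset.finite_toSet fX).subset fun χ hχ => Finset.mem_coe.2 ((hfX χ).2 hχ.1)
  have hfin2 : B.Finite :=
    (Finset.finite_toSet fK).subset fun θ hθ => Finset.mem_coe.2 ((hfK θ).2 (hA hθ.1))
  set r : (Γ → ℂ) → (Γ → ℂ) := fun χ g => if g ∈ K then χ g else 0 with hr
  -- the restriction of a member of `AbvR` is the given character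
  have hrθ : ∀ χ θ : Γ → ℂ, θ ∈ IrrS K → (∀ k ∈ K, χ k = θ k) → r χ = θ := by
    intro χ θ hθ h
    funext g
    by_cases hg : g ∈ K
    · simp only [hr, if_pos hg]; exact h g hg
    · simp only [hr, if_neg hg]; exact ((hS1 Γ K θ hθ).1 g hg).symm
  have hmaps : ∀ χ ∈ AbvR X K A γ, r χ ∈ B := by
    rintro χ ⟨hχ, hχγ, θ, hθA, hθ⟩
    have hθK := hA hθA
    rw [hrθ χ θ hθK hθ]
    have h0 := (hS1 Γ K θ hθK).1
    have hc := (hS1 Γ X χ hχ).2.1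
    refine ⟨hθA, ?_, ?_, χ, hχ, hθ⟩
    · intro x hx
      funext g
      change θ (x * g * x⁻¹) = θ g
      by_cases hg : g ∈ K
      · rw [← hθ g hg, ← hθ _ (hLP.nor x hx g hg)]
        exact hc x hx g
      · rw [h0 g hg, h0]
        intro h1
        apply hg
        have h2 := hLP.nor x⁻¹ (X.inv_mem hx) _ h1
        have h3 : x⁻¹ * (x * g * x⁻¹) * x⁻¹⁻¹ = g := by group
        rwa [h3] at h2
    · funext g
      change θ (γ * g * γ⁻¹) = θ g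
      by_cases hg : g ∈ K
      · rw [← hθ g hg, ← hθ _ ((hK g).2 hg)]
        exact congrFun hχγ g
      · rw [h0 g hg, h0]
        intro h1
        exact hg ((hK g).1 h1)
  have hfib : ∀ θ ∈ B, {χ | χ ∈ AbvR X K A γ ∧ r χ = θ}.ncard = (LinF X K γ).ncard := by
    rintro θ ⟨hθA, hθX, hθγ, hext⟩
    have hθK := hA hθA
    rw [← hXJ ℓ Γ X K γ n hLP hK hX hn hℓ θ hθK hθγ hext]
    congr 1
    ext χ
    constructor
    · rintro ⟨⟨h1, h2, θ', h3, h4⟩, h5⟩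
      refine ⟨h1, h2, ?_⟩
      intro k hk
      rw [← h5]
      simp only [hr, if_pos hk]
    · rintro ⟨h1, h2, h3⟩
      exact ⟨⟨h1, h2, θ, hθA, h3⟩, hrθ χ θ hθK h3⟩
  rw [Set.ncard_eq_toFinset_card _ hfin1, Set.ncard_eq_toFinset_card _ hfin2]
  rw [Finset.card_eq_sum_card_fiberwise (f := r) (t := hfin2.toFinset)]
  · rw [Finset.sum_congr rfl (g := fun _ => (LinF X K γ).ncard)]
    · rw [Finset.sum_const, smul_eq_mul]
    · intro θ hθ
      rw [← hfib θ ((Set.Finite.mem_toFinset _).1 hθ)]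
      rw [← Set.ncard_coe_finset]
      congr 1
      ext χ
      simp [and_comm]
  · intro χ hχ
    exact Finset.mem_coe.2 ((Set.Finite.mem_toFinset _).2
      (hmaps χ ((Set.Finite.mem_toFinset _).1 (Finset.mem_coe.1 hχ))))

end

/-- XK: the numbers of invariant characters which extend -/
theorem xk (hXF : T_XF) (hXJ : T_XJ) (hXI : T_XI) (hS1 : T_S1) (hS9 : T_S9) : T_XK := by
  intro F _ π hπ ℓ _ _ Γ _ _ Q _ _ s X K P γ n hD hEqv χ hχ hdef ψ hψ hcor hblk hsta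
  have hKX : K ≤ X := hD.lp.le
  have hnor := hD.lp.nor
  have hKX' : K ⊓ Subgroup.normalizer (P : Set Γ) ≤ X ⊓ Subgroup.normalizer (P : Set Γ) :=
    inf_le_inf_right _ hKX
  have hidx := Pool.Agent.H62.EA.relIndex_inf hKX hnor hD.fra
  have hLP' : LP ℓ (X ⊓ Subgroup.normalizer (P : Set Γ))
      (K ⊓ Subgroup.normalizer (P : Set Γ)) := by
    refine ⟨hKX', ?_, ?_⟩
    · rintro u ⟨hu, hu'⟩ g ⟨hg, hg'⟩
      exact ⟨hnor u hu g hg, Subgroup.mul_mem _ (Subgroup.mul_mem _ hu' hg')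
        (Subgroup.inv_mem _ hu')⟩
    · rw [hidx]; exact hD.lp.idx
  have hNmN : Nm γ (Subgroup.normalizer (P : Set Γ)) := nm_of_mem hD.nmP
  have hγX' : Nm γ (X ⊓ Subgroup.normalizer (P : Set Γ)) := nm_inf hD.nmX hNmN
  have hγK' : Nm γ (K ⊓ Subgroup.normalizer (P : Set Γ)) := nm_inf hD.nmK hNmN
  have hnX' : γ ^ n ∈ X ⊓ Subgroup.normalizer (P : Set Γ) :=
    ⟨hD.ord, Subgroup.pow_mem _ hD.nmP n⟩
  have h1 := hXF F π hπ ℓ Γ Q s X K P γ n hD hEqv χ hχ hdef ψ hψ hcor hblk hsta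
  rw [abvR_ncard hXJ hS1 hS9 hD.lp hD.nmK hD.nmX hD.ord hD.cop _ (fun θ hθ => hθ.1),
    abvR_ncard hXJ hS1 hS9 hLP' hγK' hγX' hnX' hD.cop _ (fun θ hθ => hθ.1)] at h1
  obtain ⟨h2, h3⟩ := hXI Γ X K (X ⊓ Subgroup.normalizer (P : Set Γ))
    (K ⊓ Subgroup.normalizer (P : Set Γ)) γ hKX hnor inf_le_left
    (by rw [← inf_assoc, inf_eq_left.2 hKX])
    (fun x hx => by
      obtain ⟨k, hk, hkx⟩ := hD.fra x hx
      exact ⟨k, hk, X.mul_mem (hKX hk) hx, hkx⟩) hD.nmK hD.nmX hγX'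
  rw [← h2] at h1
  exact Nat.eq_of_mul_eq_mul_right h3 h1

end Pool.Agent.H77.EA
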