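import Pool.Agent.H77.EA.Targets3

/-!
# Equivariant Alperin–McKay (MP_657073_al): blocks of direct products (module XQ)
-/

open scoped Classical

set_option linter.unusedSectionVars false

namespace Pool.Agent.H77.EA

open AMc AMe

theorem isConj_prod {G₁ G₂ : Type} [Group G₁] [Group G₂] (x y : G₁ × G₂) :
    IsConj x y ↔ IsConj x.1 y.1 ∧ IsConj x.2 y.2 := by
  rw [isConj_iff, isConj_iff, isConj_iff]
  constructor
  · rintro ⟨c, rfl⟩
    exact ⟨⟨c.1, rfl⟩, ⟨c.2, rfl⟩⟩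
  · rintro ⟨⟨c, hc⟩, ⟨d, hd⟩⟩
    exact ⟨(c, d), Prod.ext hc hd⟩

theorem isConj_inv {G : Type} [Group G] {x y : G} : IsConj x y⁻¹ ↔ IsConj x⁻¹ y := by
  rw [isConj_iff, isConj_iff]
  constructor
  · rintro ⟨c, hc⟩
    refine ⟨c, ?_⟩
    rw [← inv_inj, ← hc]
    group
  · rintro ⟨c, hc⟩
    refine ⟨c, ?_⟩
    rw [← hc]
    group

/-- the key identity -/
theorem cen_mx {G₁ G₂ N₁ N₂ : Type} [Group G₁] [Group G₂] [Group N₁] [Fintype N₁] [Group N₂]
    [Fintype N₂] (j₁ : N₁ →* G₁) (j₂ : N₂ →* G₂) (c : N₁ → ℂ) (d : N₂ → ℂ) (x : G₁ × G₂) :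
    cen (j₁.prodMap j₂) (mx c d) x = cen j₁ c x.1 * cen j₂ d x.2⁻¹ := by
  unfold cen mx
  have e1 : (∑ y : N₂, if IsConj x.2⁻¹ (j₂ y) then d y else 0) =
      ∑ y : N₂, if IsConj x.2 (j₂ y) then d y⁻¹ else 0 := by
    refine Fintype.sum_equiv (Equiv.inv N₂) _ _ fun y => ?_
    show _ = if IsConj x.2 (j₂ y⁻¹) then d y⁻¹⁻¹ else 0
    rw [inv_inv, map_inv, isConj_inv]
  rw [e1, div_mul_div_comm]
  congr 1
  · rw [Finset.sum_mul_sum, Fintype.sum_prod_type]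
    refine Finset.sum_congr rfl fun y₁ _ => Finset.sum_congr rfl fun y₂ _ => ?_
    have h : IsConj x ((j₁.prodMap j₂) (y₁, y₂)) ↔ IsConj x.1 (j₁ y₁) ∧ IsConj x.2 (j₂ y₂) :=
      isConj_prod x _
    by_cases h1 : IsConj x.1 (j₁ y₁)
    · by_cases h2 : IsConj x.2 (j₂ y₂)
      · rw [if_pos (h.2 ⟨h1, h2⟩), if_pos h1, if_pos h2]
      · rw [if_neg (fun h3 => h2 (h.1 h3).2), if_neg h2, mul_zero]
    · rw [if_neg (fun h3 => h1 (h.1 h3).1), if_neg h1, zero_mul]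
  · show c 1 * d (1 : N₂)⁻¹ = c 1 * d 1
    rw [inv_one]

theorem cen_mx_id {G₁ G₂ : Type} [Group G₁] [Fintype G₁] [Group G₂] [Fintype G₂] (c : G₁ → ℂ)
    (d : G₂ → ℂ) (x : G₁ × G₂) : cen (MonoidHom.id (G₁ × G₂)) (mx c d) x =
      cen (MonoidHom.id G₁) c x.1 * cen (MonoidHom.id G₂) d x.2⁻¹ := by
  rw [← cen_mx]
  rfl

theorem cen_one (hA3 : T_A3) {G : Type} [Group G] [Fintype G] {b : G → ℂ} (hb : b ∈ Irr G) :
    cen (MonoidHom.id G) b 1 = 1 := by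
  obtain ⟨-, d, hd, h⟩ := (hA3 G).1 b hb
  unfold cen
  have h0 : b 1 ≠ 0 := by rw [h]; exact_mod_cast hd.ne'
  rw [Finset.sum_eq_single 1]
  · rw [if_pos (show IsConj (1 : G) (MonoidHom.id G 1) from IsConj.refl 1), div_self h0]
  · intro y _ hy
    rw [if_neg]
    intro h1
    exact hy (isConj_one_right.1 h1)
  · intro h1
    exact absurd (Finset.mem_univ _) h1

/-- integrality -/
theorem cen_int (hA5 : T_A5) {N G : Type} [Group N] [Fintype N] [Group G] (j : N →* G)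
    {c : N → ℂ} (hc : c ∈ Irr N) (x : G) : IsIntegral ℤ (cen j c x) := by
  have hrp : ∀ C : ConjClasses N, ConjClasses.mk (ConjClasses.exists_rep C).choose = C :=
    fun C => (ConjClasses.exists_rep C).choose_spec
  generalize hr : (fun C : ConjClasses N => (ConjClasses.exists_rep C).choose) = rp at hrp
  replace hrp : ∀ C : ConjClasses N, ConjClasses.mk (rp C) = C := by
    intro C
    rw [← hr]
    exact (ConjClasses.exists_rep C).choose_spec
  have e1 : cen j c x = ∑ C ∈ (Finset.univ.filter (fun y : N => IsConj x (j y))).image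
      ConjClasses.mk, cen (MonoidHom.id N) c (rp C) := by
    unfold cen
    rw [← Finset.sum_filter, ← Finset.sum_fiberwise_of_maps_to
      (fun y hy => Finset.mem_image_of_mem ConjClasses.mk hy), Finset.sum_div]
    refine Finset.sum_congr rfl fun C hC => ?_
    congr 1
    trans ∑ y ∈ Finset.univ.filter (fun y => IsConj (rp C) y), c y
    swap
    · rw [Finset.sum_filter]
      refine Finset.sum_congr rfl fun y _ => ?_
      by_cases h : IsConj (rp C) y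
      · rw [if_pos h, if_pos (show IsConj (rp C) (MonoidHom.id N y) from h)]
      · rw [if_neg h, if_neg (show ¬ IsConj (rp C) (MonoidHom.id N y) from h)]
    refine Finset.sum_congr ?_ fun _ _ => rfl
    obtain ⟨y₀, hy₀, rfl⟩ := Finset.mem_image.1 hC
    have hy₀' : IsConj x (j y₀) := (Finset.mem_filter.1 hy₀).2
    have hout : IsConj (rp (ConjClasses.mk y₀)) y₀ :=
      ConjClasses.mk_eq_mk_iff_isConj.1 (hrp _)
    ext y
    rw [Finset.mem_filter, Finset.mem_filter, Finset.mem_filter]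
    constructor
    · rintro ⟨-, h⟩
      exact ⟨Finset.mem_univ _, hout.trans (ConjClasses.mk_eq_mk_iff_isConj.1 h).symm⟩
    · rintro ⟨-, h⟩
      have h1 : IsConj y₀ y := hout.symm.trans h
      refine ⟨⟨Finset.mem_univ _, hy₀'.trans ?_⟩, ConjClasses.mk_eq_mk_iff_isConj.2 h1.symm⟩
      obtain ⟨g, hg⟩ := isConj_iff.1 h1
      exact isConj_iff.2 ⟨j g, by rw [← hg]; simp⟩
  rw [e1]
  exact IsIntegral.sum _ fun C _ => hA5 N c hc _

section

variable {𝔪 : Ideal (integralClosure ℤ ℂ)}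

theorem cong_mul {a b a' b' : ℂ} (hb : IsIntegral ℤ b) (ha' : IsIntegral ℤ a')
    (h : Cong 𝔪 a a') (h' : Cong 𝔪 b b') : Cong 𝔪 (a * b) (a' * b') := by
  obtain ⟨c, hc, h1⟩ := h
  obtain ⟨d, hd, h2⟩ := h'
  refine ⟨⟨b, hb⟩ * c + ⟨a', ha'⟩ * d, 𝔪.add_mem (𝔪.mul_mem_left _ hc) (𝔪.mul_mem_left _ hd), ?_⟩
  push_cast
  rw [h1, h2]
  ring

theorem cong_prime (h𝔪 : 𝔪.IsPrime) {a b : ℂ} (ha : IsIntegral ℤ a) (hb : IsIntegral ℤ b)
    (h : Cong 𝔪 (a * b) 0) : Cong 𝔪 a 0 ∨ Cong 𝔪 b 0 := by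
  obtain ⟨c, hc, h1⟩ := h
  have h2 : (⟨a, ha⟩ : integralClosure ℤ ℂ) * ⟨b, hb⟩ ∈ 𝔪 := by
    have : (⟨a, ha⟩ : integralClosure ℤ ℂ) * ⟨b, hb⟩ = c := by
      apply Subtype.ext
      show a * b = c
      rw [h1, sub_zero]
    rw [this]
    exact hc
  rcases h𝔪.mem_or_mem h2 with h3 | h3
  · exact Or.inl ⟨_, h3, by simp⟩
  · exact Or.inr ⟨_, h3, by simp⟩

theorem cong_zero_mul {a b : ℂ} (hb : IsIntegral ℤ b) (h : Cong 𝔪 a 0) : Cong 𝔪 (a * b) 0 := by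
  have := cong_mul (𝔪 := 𝔪) (b' := b) hb (isIntegral_zero) h (cong_refl b)
  rwa [zero_mul] at this

end

theorem centralizer_inv {G : Type} [Group G] (x : G) :
    Subgroup.centralizer {x⁻¹} = Subgroup.centralizer {x} := by
  ext g
  rw [Subgroup.mem_centralizer_singleton_iff, Subgroup.mem_centralizer_singleton_iff]
  constructor
  · intro h
    have : Commute g x⁻¹ := h
    exact (Commute.inv_right_iff.1 this)
  · intro h
    have : Commute g x := h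
    exact (Commute.inv_right_iff.2 this)

theorem centralizer_prod {G₁ G₂ : Type} [Group G₁] [Group G₂] (x : G₁ × G₂) :
    Subgroup.centralizer {x} = (Subgroup.centralizer {x.1}).prod (Subgroup.centralizer {x.2}) := by
  ext g
  rw [Subgroup.mem_prod, Subgroup.mem_centralizer_singleton_iff,
    Subgroup.mem_centralizer_singleton_iff, Subgroup.mem_centralizer_singleton_iff]
  exact Prod.ext_iff

theorem relIndex_prod {G₁ G₂ : Type} [Group G₁] [Finite G₁] [Group G₂] [Finite G₂]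
    {D₁ C₁ : Subgroup G₁} {D₂ C₂ : Subgroup G₂} (h₁ : D₁ ≤ C₁) (h₂ : D₂ ≤ C₂) :
    (D₁.prod D₂).relIndex (C₁.prod C₂) = D₁.relIndex C₁ * D₂.relIndex C₂ := by
  have hc : ∀ (D : Subgroup G₁) (E : Subgroup G₂), Nat.card (D.prod E) = Nat.card D * Nat.card E := by
    intro D E
    rw [← Nat.card_prod]
    exact Nat.card_congr (Subgroup.prodEquiv D E).toEquiv
  have key : ∀ {G : Type} [Group G] {D C : Subgroup G}, D ≤ C →
      Nat.card D * D.relIndex C = Nat.card C := by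
    intro G _ D C h
    rw [← Subgroup.card_mul_index (D.subgroupOf C),
      Nat.card_congr (Subgroup.subgroupOfEquivOfLe h).toEquiv]
    rfl
  have e1 := key (Subgroup.prod_mono h₁ h₂)
  rw [hc, hc, ← key h₁, ← key h₂] at e1
  have h0 : 0 < Nat.card D₁ * Nat.card D₂ := Nat.mul_pos Nat.card_pos Nat.card_pos
  apply Nat.eq_of_mul_eq_mul_left h0
  rw [e1]
  ring

/-- XQ: blocks, defect groups and Brauer correspondence of direct products -/
theorem xq (hA3 : T_A3) (hA5 : T_A5) : T_XQ := by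
  intro ℓ _ 𝔪 h𝔪 hℓ G₁ G₂ N₁ N₂ _ _ _ _ _ _ _ _ j₁ j₂
  have hpr : 𝔪.IsPrime := h𝔪.isPrime
  have hℓp : ℓ.Prime := Fact.out
  refine ⟨fun a ha a' ha' b hb b' hb' => ⟨fun h => ⟨fun x => ?_, fun x => ?_⟩, fun h x => ?_⟩,
    fun a ha b hb D₁ D₂ hD₁ hD₂ => ⟨?_, ?_, fun x hx => ?_⟩, fun a ha b hb c hc d hd h₁ h₂ x => ?_⟩
  · have := h (x, 1)
    rw [cen_mx_id, cen_mx_id] at this
    simp only [inv_one, cen_one hA3 hb, cen_one hA3 hb', mul_one] at this
    exact this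
  · have := h (1, x⁻¹)
    rw [cen_mx_id, cen_mx_id] at this
    simp only [inv_inv, cen_one hA3 ha, cen_one hA3 ha', one_mul] at this
    exact this
  · rw [cen_mx_id, cen_mx_id]
    exact cong_mul (cen_int hA5 _ hb _) (cen_int hA5 _ ha' _) (h.1 _) (h.2 _)
  · rintro ⟨g, hg⟩
    obtain ⟨k₁, e₁⟩ := hD₁.1 ⟨g.1, (Subgroup.mem_prod.1 hg).1⟩
    obtain ⟨k₂, e₂⟩ := hD₂.1 ⟨g.2, (Subgroup.mem_prod.1 hg).2⟩
    have e₁' : g.1 ^ ℓ ^ k₁ = 1 := congrArg Subtype.val e₁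
    have e₂' : g.2 ^ ℓ ^ k₂ = 1 := congrArg Subtype.val e₂
    refine ⟨k₁ + k₂, Subtype.ext (Prod.ext ?_ ?_)⟩
    · show g.1 ^ ℓ ^ (k₁ + k₂) = 1
      rw [pow_add, pow_mul, e₁', one_pow]
    · show g.2 ^ ℓ ^ (k₁ + k₂) = 1
      rw [pow_add, mul_comm, pow_mul, e₂', one_pow]
  · obtain ⟨x₁, hx₁, hc₁, hi₁⟩ := hD₁.2.1
    obtain ⟨x₂, hx₂, hc₂, hi₂⟩ := hD₂.2.1
    refine ⟨(x₁, x₂⁻¹), fun h => ?_, ?_, ?_⟩
    · rw [cen_mx_id] at h
      simp only [inv_inv] at h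
      rcases cong_prime hpr (cen_int hA5 _ ha _) (cen_int hA5 _ hb _) h with h | h
      · exact hx₁ h
      · exact hx₂ h
    · rw [centralizer_prod]
      simp only [centralizer_inv]
      exact Subgroup.prod_mono hc₁ hc₂
    · rw [centralizer_prod]
      simp only [centralizer_inv]
      rw [relIndex_prod hc₁ hc₂, hℓp.dvd_mul]
      exact not_or.2 ⟨hi₁, hi₂⟩
  · rw [cen_mx_id] at hx
    obtain ⟨g₁, hg₁⟩ := hD₁.2.2 x.1 (fun h => hx (cong_zero_mul (cen_int hA5 _ hb _) h))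
    obtain ⟨g₂, hg₂⟩ := hD₂.2.2 x.2⁻¹ (fun h => hx (by
      rw [mul_comm]
      exact cong_zero_mul (cen_int hA5 _ ha _) h))
    refine ⟨(g₁, g₂), fun d hd => ?_⟩
    rw [centralizer_prod, Subgroup.mem_prod]
    rw [centralizer_inv] at hg₂
    exact ⟨hg₁ _ (Subgroup.mem_prod.1 hd).1, hg₂ _ (Subgroup.mem_prod.1 hd).2⟩
  · rw [cen_mx_id, cen_mx]
    exact cong_mul (cen_int hA5 _ hb _) (cen_int hA5 _ hc _) (h₁ _) (h₂ _)

end Pool.Agent.H77.EA
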