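import Pool.Agent.H77.EA.Targets3

/-!
# Equivariant Alperin–McKay (MP_657073_al): the numbers of fixed points (module XW)
-/

open scoped Classical

set_option linter.unusedSectionVars false

namespace Pool.Agent.H77.EA

open AMc AMe

theorem mem_normalizer_prod {G₁ G₂ : Type} [Group G₁] [Group G₂] (D₁ : Subgroup G₁)
    (D₂ : Subgroup G₂) (x : G₁ × G₂) :
    x ∈ Subgroup.normalizer ((D₁.prod D₂ : Subgroup (G₁ × G₂)) : Set (G₁ × G₂)) ↔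
      x.1 ∈ Subgroup.normalizer (D₁ : Set G₁) ∧ x.2 ∈ Subgroup.normalizer (D₂ : Set G₂) := by
  rw [Subgroup.mem_normalizer_iff, Subgroup.mem_normalizer_iff, Subgroup.mem_normalizer_iff]
  constructor
  · intro h
    refine ⟨fun g => ?_, fun g => ?_⟩
    · have := h (g, 1)
      simp only [Subgroup.mem_prod, Prod.fst_mul, Prod.snd_mul, Prod.fst_inv, Prod.snd_inv,
        D₂.one_mem, mul_one, mul_inv_cancel, and_true] at this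
      exact this
    · have := h (1, g)
      simp only [Subgroup.mem_prod, Prod.fst_mul, Prod.snd_mul, Prod.fst_inv, Prod.snd_inv,
        D₁.one_mem, mul_one, mul_inv_cancel, true_and] at this
      exact this
  · rintro ⟨h1, h2⟩ g
    simp only [Subgroup.mem_prod, Prod.fst_mul, Prod.snd_mul, Prod.fst_inv, Prod.snd_inv]
    rw [h1 g.1, h2 g.2]

/-- direct products of Brauer pairs -/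
theorem bp_prod (hXP : T_XP) (hXQ : T_XQ) {ℓ : ℕ} [Fact ℓ.Prime]
    {𝔪 : Ideal (integralClosure ℤ ℂ)} (h𝔪 : 𝔪.IsMaximal) (hℓ : (ℓ : integralClosure ℤ ℂ) ∈ 𝔪)
    {G₁ G₂ N₁ N₂ : Type} [Group G₁] [Fintype G₁] [Group G₂] [Fintype G₂] [Group N₁]
    [Fintype N₁] [Group N₂] [Fintype N₂] {j₁ : N₁ →* G₁} {j₂ : N₂ →* G₂} {D₁ : Subgroup G₁}
    {D₂ : Subgroup G₂} {E₁ : Subgroup N₁} {E₂ : Subgroup N₂} {χ₁ : G₁ → ℂ} {χ₂ : G₂ → ℂ}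
    {ψ₁ : N₁ → ℂ} {ψ₂ : N₂ → ℂ} (h₁ : BP ℓ 𝔪 j₁ D₁ E₁ χ₁ ψ₁) (h₂ : BP ℓ 𝔪 j₂ D₂ E₂ χ₂ ψ₂) :
    BP ℓ 𝔪 (j₁.prodMap j₂) (D₁.prod D₂) (E₁.prod E₂) (mx χ₁ χ₂) (mx ψ₁ ψ₂) where
  inj := by
    rintro ⟨a, b⟩ ⟨c, d⟩ h
    have h1 : (j₁ a, j₂ b) = (j₁ c, j₂ d) := h
    rw [Prod.mk.injEq] at h1
    rw [h₁.inj h1.1, h₂.inj h1.2]
  rng := by
    ext x
    rw [mem_normalizer_prod, ← h₁.rng, ← h₂.rng]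
    constructor
    · rintro ⟨⟨a, b⟩, rfl⟩
      exact ⟨⟨a, rfl⟩, ⟨b, rfl⟩⟩
    · rintro ⟨⟨a, ha⟩, ⟨b, hb⟩⟩
      exact ⟨(a, b), Prod.ext ha hb⟩
  map := by
    ext x
    rw [Subgroup.mem_prod, ← h₁.map, ← h₂.map]
    constructor
    · rintro ⟨⟨a, b⟩, hab, rfl⟩
      exact ⟨⟨a, (Subgroup.mem_prod.1 hab).1, rfl⟩, ⟨b, (Subgroup.mem_prod.1 hab).2, rfl⟩⟩
    · rintro ⟨⟨a, ha, ha'⟩, ⟨b, hb, hb'⟩⟩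
      exact ⟨(a, b), Subgroup.mem_prod.2 ⟨ha, hb⟩, Prod.ext ha' hb'⟩
  irr := (hXP G₁ G₂).1 _ h₁.irr _ h₂.irr
  irr' := (hXP N₁ N₂).1 _ h₁.irr' _ h₂.irr'
  dfc := (hXQ ℓ 𝔪 h𝔪 hℓ G₁ G₂ N₁ N₂ j₁ j₂).2.1 _ h₁.irr _ h₂.irr _ _ h₁.dfc h₂.dfc
  dfc' := (hXQ ℓ 𝔪 h𝔪 hℓ N₁ N₂ N₁ N₂ (MonoidHom.id _) (MonoidHom.id _)).2.1 _ h₁.irr' _ h₂.irr'
    _ _ h₁.dfc' h₂.dfc'
  cor := (hXQ ℓ 𝔪 h𝔪 hℓ G₁ G₂ N₁ N₂ j₁ j₂).2.2 _ h₁.irr _ h₂.irr _ h₁.irr' _ h₂.irr'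
    h₁.cor h₂.cor

/-- the trivial Brauer pair of a block with normal defect group -/
theorem bp_self {ℓ : ℕ} {𝔪 : Ideal (integralClosure ℤ ℂ)} {G N : Type} [Group G] [Fintype G]
    [Group N] [Fintype N] {j : N →* G} {D : Subgroup G} {E : Subgroup N} {χ : G → ℂ} {ψ : N → ℂ}
    (h : BP ℓ 𝔪 j D E χ ψ) : BP ℓ 𝔪 (MonoidHom.id N) E E ψ ψ where
  inj := Function.injective_id
  rng := by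
    rw [MonoidHom.range_eq_top.2 Function.surjective_id]
    symm
    rw [eq_top_iff]
    intro n _
    have hn : j n ∈ Subgroup.normalizer (D : Set G) := by rw [← h.rng]; exact ⟨n, rfl⟩
    have hE : ∀ m, m ∈ E ↔ j m ∈ D := by
      intro m
      rw [← h.map]
      constructor
      · intro hm; exact ⟨m, hm, rfl⟩
      · rintro ⟨m', hm', hj⟩
        rwa [← h.inj hj]
    rw [Subgroup.mem_normalizer_iff]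
    intro m
    rw [hE, hE, map_mul, map_mul, map_inv]
    exact (Subgroup.mem_normalizer_iff.1 hn) (j m)
  map := Subgroup.map_id E
  irr := h.irr'
  irr' := h.irr'
  dfc := h.dfc'
  dfc' := h.dfc'
  cor := fun _ => cong_refl _

/-- a common factor set -/
theorem coc_eq (hXS : T_XS) {G₁ G₂ P : Type} [Group G₁] [Fintype G₁] [Group G₂] [Fintype G₂]
    [Group P] [Fintype P] {ρ₁ : P →* MulAut G₁} {ρ₂ : P →* MulAut G₂} {a : G₁ → ℂ} {b : G₂ → ℂ}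
    (ha : a ∈ Irr G₁) (hb : b ∈ Irr G₂) (ha' : ∀ p g, a (ρ₁ p g) = a g)
    (hb' : ∀ p g, b (ρ₂ p g) = b g) {α : P → P → ℂ} (h1 : α ∈ Coc ρ₁ a) (h2 : α ∈ Coc ρ₂ b) :
    Coc ρ₁ a = Coc ρ₂ b := by
  ext α'
  rw [(hXS G₁ P ρ₁ a ha ha').2 α h1 α', (hXS G₂ P ρ₂ b hb hb').2 α h2 α']

/-- the extendible invariant characters of a direct product -/
theorem cnt (hXP : T_XP) (hXR : T_XR) (hXS : T_XS) (hXT : T_XT) (hXU : T_XU) {ℓ : ℕ}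
    [Fact ℓ.Prime] {𝔪 : Ideal (integralClosure ℤ ℂ)} (h𝔪 : 𝔪.IsMaximal)
    (hℓ : (ℓ : integralClosure ℤ ℂ) ∈ 𝔪) {G₁ G₂ H : Type} [Group G₁] [Fintype G₁] [Group G₂]
    [Fintype G₂] [Group H] [Fintype H] {D₁ : Subgroup G₁} {D₂ : Subgroup G₂} {χ₁ : G₁ → ℂ}
    {χ₂ : G₂ → ℂ} (h₁ : χ₁ ∈ Irr G₁) (h₂ : χ₂ ∈ Irr G₂) (hD₁ : IsDefect ℓ 𝔪 χ₁ D₁)
    (hD₂ : IsDefect ℓ 𝔪 χ₂ D₂) (ρ₁ : H →* MulAut G₁) (ρ₂ : H →* MulAut G₂) (P : Subgroup H) :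
    (FixE ℓ 𝔪 (mx χ₁ χ₂) (D₁.prod D₂) (prA ρ₁ ρ₂) P).ncard =
      {p : FixH ℓ 𝔪 χ₁ D₁ ρ₁ × FixH ℓ 𝔪 χ₂ D₂ ρ₂ |
        Coc (ρ₁.comp P.subtype) p.1.1 = Coc (ρ₂.comp P.subtype) p.2.1}.ncard := by
  have hinj : Function.Injective
      (fun p : FixH ℓ 𝔪 χ₁ D₁ ρ₁ × FixH ℓ 𝔪 χ₂ D₂ ρ₂ => mx p.1.1 p.2.1) := by
    rintro ⟨⟨a, ha⟩, ⟨b, hb⟩⟩ ⟨⟨a', ha'⟩, ⟨b', hb'⟩⟩ h
    obtain ⟨h1, h2⟩ := (hXP G₁ G₂).2.2 a ha.1.1 a' ha'.1.1 b hb.1.1 b' hb'.1.1 h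
    subst h1
    subst h2
    rfl
  rw [← Set.ncard_image_of_injective _ hinj]
  congr 1
  ext c
  constructor
  · rintro ⟨⟨hc1, hc2⟩, hc3⟩
    obtain ⟨a, ha, b, hb, rfl⟩ := (hXR ℓ 𝔪 h𝔪 hℓ G₁ G₂ D₁ D₂ χ₁ h₁ χ₂ h₂ hD₁ hD₂ c).1 hc1
    have key : ∀ h : H, cmp (ρ₁ h) a = a ∧ cmp (ρ₂ h) b = b := by
      intro h
      refine (hXP G₁ G₂).2.2 _ (irr_cmp (ρ₁ h) ha.1) a ha.1 _ (irr_cmp (ρ₂ h) hb.1) b hb.1 ?_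
      funext g
      have := hc2 h g
      rw [← this]
      show a (ρ₁ h g.1) * b (ρ₂ h g.2⁻¹) = a (ρ₁ h g.1) * b (ρ₂ h g.2)⁻¹
      rw [map_inv]
    have ha' : ∀ h g, a (ρ₁ h g) = a g := fun h g => congrFun (key h).1 g
    have hb' : ∀ h g, b (ρ₂ h g) = b g := fun h g => congrFun (key h).2 g
    obtain ⟨α, h5, h6⟩ := hXU G₁ G₂ P (ρ₁.comp P.subtype) (ρ₂.comp P.subtype) a ha.1 b hb.1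
      (fun p g => ha' p g) (fun p g => hb' p g) hc3
    refine ⟨(⟨a, ha, ha'⟩, ⟨b, hb, hb'⟩), ?_, rfl⟩
    exact coc_eq hXS ha.1 hb.1 (fun p g => ha' p g) (fun p g => hb' p g) h5 h6
  · rintro ⟨⟨⟨a, ha, ha'⟩, ⟨b, hb, hb'⟩⟩, hab, rfl⟩
    have hab' : Coc (ρ₁.comp P.subtype) a = Coc (ρ₂.comp P.subtype) b := hab
    refine ⟨⟨(hXR ℓ 𝔪 h𝔪 hℓ G₁ G₂ D₁ D₂ χ₁ h₁ χ₂ h₂ hD₁ hD₂ _).2 ⟨a, ha, b, hb, rfl⟩,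
      fun h g => ?_⟩, ?_⟩
    · show a (ρ₁ h g.1) * b (ρ₂ h g.2)⁻¹ = a g.1 * b g.2⁻¹
      rw [ha', ← map_inv, hb']
    · obtain ⟨α, hα⟩ := (hXS G₁ P (ρ₁.comp P.subtype) a ha.1 (fun p g => ha' p g)).1
      exact hXT G₁ G₂ P (ρ₁.comp P.subtype) (ρ₂.comp P.subtype) a ha.1 b hb.1 α hα
        (by rw [← hab']; exact hα)

/-- XW: the numbers of characters of height zero fixed by `H` -/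
theorem xw (hXM : T_XM) (hXN : T_XN) (hXP : T_XP) (hXQ : T_XQ) (hXR : T_XR) (hXS : T_XS)
    (hXT : T_XT) (hXU : T_XU) (hXV : T_XV) (hXY : T_XY)
    (hfin : ∀ (N : Type) [Group N] [Fintype N], (Irr N).Finite) : T_XW := by
  intro ℓ _ 𝔪 h𝔪 hℓ hAM G N H _ _ _ _ _ _ j D E χ ψ hB ρ ρ' hc hF hH
  obtain ⟨⟨P, h₀, n, hHE⟩, -, -⟩ := hXY ℓ H hH
  have hF' : ∀ h, Fixes 𝔪 E ψ (ρ' h) := fun h =>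
    hXN ℓ 𝔪 h𝔪 hℓ G N j D E χ ψ hB (ρ h) (ρ' h) (hc h) (hF h)
  have hT := bp_self hB
  have main : ∀ {G₁ G₂ N₁ N₂ : Type} [Group G₁] [Fintype G₁] [Group G₂] [Fintype G₂] [Group N₁]
      [Fintype N₁] [Group N₂] [Fintype N₂] {j₁ : N₁ →* G₁} {j₂ : N₂ →* G₂} {D₁ : Subgroup G₁}
      {D₂ : Subgroup G₂} {E₁ : Subgroup N₁} {E₂ : Subgroup N₂} {χ₁ : G₁ → ℂ} {χ₂ : G₂ → ℂ}
      {ψ₁ : N₁ → ℂ} {ψ₂ : N₂ → ℂ}, BP ℓ 𝔪 j₁ D₁ E₁ χ₁ ψ₁ → BP ℓ 𝔪 j₂ D₂ E₂ χ₂ ψ₂ →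
      ∀ {ρ₁ : H →* MulAut G₁} {ρ₁' : H →* MulAut N₁} {ρ₂ : H →* MulAut G₂}
      {ρ₂' : H →* MulAut N₂}, (∀ h n, j₁ (ρ₁' h n) = ρ₁ h (j₁ n)) →
      (∀ h n, j₂ (ρ₂' h n) = ρ₂ h (j₂ n)) → (∀ h, Fixes 𝔪 D₁ χ₁ (ρ₁ h)) →
      (∀ h, Fixes 𝔪 D₂ χ₂ (ρ₂ h)) →
      {p : FixH ℓ 𝔪 χ₁ D₁ ρ₁ × FixH ℓ 𝔪 χ₂ D₂ ρ₂ |
        Coc (ρ₁.comp P.subtype) p.1.1 = Coc (ρ₂.comp P.subtype) p.2.1}.ncard =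
      {p : FixH ℓ 𝔪 ψ₁ E₁ ρ₁' × FixH ℓ 𝔪 ψ₂ E₂ ρ₂' |
        Coc (ρ₁'.comp P.subtype) p.1.1 = Coc (ρ₂'.comp P.subtype) p.2.1}.ncard := by
    intro G₁ G₂ N₁ N₂ _ _ _ _ _ _ _ _ j₁ j₂ D₁ D₂ E₁ E₂ χ₁ χ₂ ψ₁ ψ₂ h₁ h₂ ρ₁ ρ₁' ρ₂ ρ₂' c₁ c₂
      f₁ f₂
    rw [← cnt hXP hXR hXS hXT hXU h𝔪 hℓ h₁.irr h₂.irr h₁.dfc h₂.dfc ρ₁ ρ₂ P,
      ← cnt hXP hXR hXS hXT hXU h𝔪 hℓ h₁.irr' h₂.irr' h₁.dfc' h₂.dfc' ρ₁' ρ₂' P]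
    refine hXM ℓ 𝔪 h𝔪 hℓ hAM _ _ H _ _ _ _ _ (bp_prod hXP hXQ h𝔪 hℓ h₁ h₂) (prA ρ₁ ρ₂)
      (prA ρ₁' ρ₂') (fun h n => Prod.ext (c₁ h n.1) (c₂ h n.2)) (fun h => ⟨fun g => ?_, ?_⟩)
      P h₀ n hHE
    · rw [Subgroup.mem_prod, Subgroup.mem_prod]
      exact and_congr ((f₁ h).1 g.1) ((f₂ h).1 g.2)
    · have key := ((hXQ ℓ 𝔪 h𝔪 hℓ G₁ G₂ N₁ N₂ j₁ j₂).1 χ₁ h₁.irr (cmp (ρ₁ h) χ₁)
        (irr_cmp _ h₁.irr) χ₂ h₂.irr (cmp (ρ₂ h) χ₂) (irr_cmp _ h₂.irr)).2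
        ⟨(f₁ h).2, (f₂ h).2⟩
      have e : mx (cmp (ρ₁ h) χ₁) (cmp (ρ₂ h) χ₂) = fun g => mx χ₁ χ₂ (prA ρ₁ ρ₂ h g) := by
        funext g
        show χ₁ (ρ₁ h g.1) * χ₂ (ρ₂ h g.2⁻¹) = χ₁ (ρ₁ h g.1) * χ₂ (ρ₂ h g.2)⁻¹
        rw [map_inv]
      rw [e] at key
      exact key
  have hid : ∀ (h : H) (n : N), (MonoidHom.id N) (ρ' h n) = ρ' h ((MonoidHom.id N) n) :=
    fun _ _ => rfl
  have e1 := main hB hB hc hc hF hF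
  have e2 := main hB hT hc hid hF hF'
  have fA : Finite (FixH ℓ 𝔪 χ D ρ) := ((hfin G).subset (fun _ h => h.1.1)).to_subtype
  have fB : Finite (FixH ℓ 𝔪 ψ E ρ') := ((hfin N).subset (fun _ h => h.1.1)).to_subtype
  rw [← Nat.card_coe_set_eq, ← Nat.card_coe_set_eq]
  exact hXV _ _ _ (fun a : FixH ℓ 𝔪 χ D ρ => Coc (ρ.comp P.subtype) a.1)
    (fun b : FixH ℓ 𝔪 ψ E ρ' => Coc (ρ'.comp P.subtype) b.1) (by rw [e1, e2]) e2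

end Pool.Agent.H77.EA
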