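import Pool.Agent.H77.EA.All
import Pool.Agent.H77.EA.Final3
import Pool.Agent.H77.EA.XW
import Pool.Agent.H77.EA.XK
import Pool.Agent.H77.EA.XQ
import Pool.Agent.H48.EA.XA
import Pool.Agent.H68.EA.XB
import Pool.Agent.H20.EA.XE
import Pool.Agent.H21.EA.XN
import Pool.Agent.H21.EA.XP
import Pool.Agent.H20.EA.YA
import Pool.Agent.H33.EA.YB
import Pool.Agent.H20.EA.YC
import Pool.Agent.H12.EA.XC
import Pool.Agent.H68.EA.XD
import Pool.Agent.H62.EA.XF
import Pool.Agent.H16.EA.XG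
import Pool.Agent.H62.EA.XH
import Pool.Agent.H85.EA.XI
import Pool.Agent.H85.EA.XJ
import Pool.Agent.H68.EA.XL
import Pool.Agent.H39.EA.XM
import Pool.Agent.H65.EA.XO
import Pool.Agent.H52.EA.XR
import Pool.Agent.H31.EA.XS
import Pool.Agent.H4.EA.XT
import Pool.Agent.H4.EA.XU
import Pool.Agent.H65.EA.XV
import Pool.Agent.H31.EA.XX
import Pool.Agent.H74.EA.XY

/-!
# Equivariant Alperin–McKay (MP_657073_al): all facts used in the final theorem, third wave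
-/

open AMc AMe

namespace Pool.Agent.H77.EA.All

theorem fS2' : T_S2 := fS2
theorem fXA : T_XA := H48.EA.xa fK1
theorem fXC : T_XC := H12.EA.XC.xc
theorem fXG : T_XG := H16.EA.xg
theorem fXH : T_XH := H62.EA.xh
theorem fXI : T_XI := H85.EA.xi
theorem fXJ : T_XJ := H85.EA.xj fXG fXH fS1 fS7
theorem fXL : T_XL := H68.EA.XL.xl
theorem fXO : T_XO := H65.EA.xo fHT fK1 fK2 fB9 fKX
theorem fXS : T_XS := H31.EA.XS.xs
theorem fXT : T_XT := H4.EA.XT.xt
theorem fXU : T_XU := H4.EA.XU.xu fXS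
theorem fXV : T_XV := H65.EA.xv
theorem fXX : T_XX := H31.EA.XX.xx
theorem fXY : T_XY := H74.EA.xy

theorem fXB : T_XB := H68.EA.xb fXA fCL fUN fDX
theorem fXD : T_XD := H68.EA.XD.xd fXC fXB fE1 fS1 fS2 fS3 fS6 fS7
theorem fXE : T_XE := H20.EA.xe fXC fXB fXD fCV fHT fB4 fS1 fS2 fS3 fS6 fS7 fE1
theorem fXF : T_XF := H62.EA.xf fXE fUD fST fTC fDG fE4 fS1 fS7
theorem fXK : T_XK := H77.EA.xk fXF fXJ fXI fS1 fS9
theorem fXM : T_XM := H39.EA.xm fXK fXL fHypG.toHypF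
theorem fXN : T_XN := H21.EA.xn fBT
theorem fXP : T_XP := H21.EA.xp fA1 fA2 fA3 fA4
theorem fXQ : T_XQ := H77.EA.xq fA3 fA5
theorem fXR : T_XR := H52.EA.xr fXO fXP fXQ fA3
theorem fYA : T_YA := H20.EA.ya fGA fGB
theorem fYB : T_YB := H33.EA.YB.yb fBT fQI fQN fQB fQR
theorem fYC : T_YC := H20.EA.yc fYA fYB fK1 fS1 fS9 fZH
theorem ffin : ∀ (N : Type) [Group N] [Fintype N], (Irr N).Finite := by
  intro N _ _
  obtain ⟨fs, hfs, -⟩ := fS9 N (MonoidHom.id N).range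
  have h1 : Function.Injective (MonoidHom.id N) := Function.injective_id
  have h2 : extj (MonoidHom.id N) '' (Irr N) ⊆ (fs : Set (N → ℂ)) := by
    rintro _ ⟨χ, hχ, rfl⟩
    exact Finset.mem_coe.2 ((hfs _).2 (((fK1 N N _ h1).2.1 χ).1 hχ))
  refine ((Finset.finite_toSet fs).subset h2).of_finite_image ?_
  intro a _ b _ hab
  funext n
  have := congrFun hab ((MonoidHom.id N) n)
  rwa [(fK1 N N _ h1).1 a n, (fK1 N N _ h1).1 b n] at this

theorem fXW : T_XW := xw fXM fXN fXP fXQ fXR fXS fXT fXU fXV fXY ffin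

theorem fHypH : HypH where
  toHypG := fHypG
  XN := fXN
  XW := fXW
  XX := fXX
  XY := fXY
  YC := fYC

end Pool.Agent.H77.EA.All
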