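import Pool.Agent.H3.AM.Basic

/-!
# Module G1: homomorphisms agreeing on invariants are conjugate up to a linear twist
-/

open scoped Classical ComplexConjugate

set_option linter.unusedSectionVars false

namespace AMc

namespace H77

section

variable {Γ : Type} [Group Γ] [Fintype Γ] {F : Type} [Field F] {Q : Type} [CommGroup Q]

/-- the part of `z` supported on `s = c` -/
noncomputable def prt (s : Γ →* Q) (c : Q) (z : MonoidAlgebra F Γ) : MonoidAlgebra F Γ :=
  MonoidAlgebra.ofCoeff (Finsupp.equivFunOnFinite.symm fun g => if s g = c then z.coeff g else 0)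

theorem coeff_prt (s : Γ →* Q) (c : Q) (z : MonoidAlgebra F Γ) (g : Γ) :
    (prt s c z).coeff g = if s g = c then z.coeff g else 0 := rfl

theorem prt_mem (s : Γ →* Q) (c : Q) {N U : Subgroup Γ} {z : MonoidAlgebra F Γ}
    (hz : z ∈ ZA F N U) : prt s c z ∈ ZA F N U := by
  refine ⟨fun g hg => ?_, fun u hu g => ?_⟩
  · rw [coeff_prt, hz.1 g hg, ite_self]
  · rw [coeff_prt, coeff_prt, hz.2 u hu, s_conj]

theorem sum_prt [Fintype Q] (s : Γ →* Q) (z : MonoidAlgebra F Γ) : ∑ c, prt s c z = z := by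
  apply MonoidAlgebra.ext
  ext g
  rw [MonoidAlgebra.coeff_sum, Finsupp.finsetSum_apply]
  simp only [coeff_prt]
  rw [Finset.sum_ite_eq, if_pos (Finset.mem_univ _)]

theorem pow_deg (s : Γ →* Q) {z : MonoidAlgebra F Γ} {c : Q}
    (hz : ∀ g, z.coeff g ≠ 0 → s g = c) (n : ℕ) : ∀ g, (z ^ n).coeff g ≠ 0 → s g = c ^ n := by
  induction n with
  | zero =>
    intro g hg
    rw [pow_zero, MonoidAlgebra.one_def, MonoidAlgebra.coeff_single, Finsupp.single_apply] at hg
    have : 1 = g := by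
      by_contra h
      rw [if_neg h] at hg
      exact hg rfl
    rw [← this, map_one, pow_zero]
  | succ n ih =>
    intro g hg
    rw [pow_succ, coeff_mul_group] at hg
    obtain ⟨a, _, ha⟩ := Finset.exists_ne_zero_of_sum_ne_zero hg
    have h1 := ih a (left_ne_zero_of_mul ha)
    have h2 := hz _ (right_ne_zero_of_mul ha)
    have h3 : s g = s a * s (a⁻¹ * g) := by rw [← map_mul]; congr 1; group
    rw [h3, h1, h2, pow_succ]

theorem twA_twA (π : integralClosure ℤ ℂ →+* F) [Finite Q] (s : Γ →* Q) (μ μ' : Q →* ℂˣ)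
    (z : MonoidAlgebra F Γ) : twA π s μ' (twA π s μ z) = twA π s (μ * μ') z := by
  apply MonoidAlgebra.ext
  ext g
  rw [coeff_twA, coeff_twA, coeff_twA, MonoidHom.mul_apply, Units.val_mul,
    rd_mul π (mu_integral μ _) (mu_integral μ' _)]
  ring

theorem twA_one_left (π : integralClosure ℤ ℂ →+* F) (s : Γ →* Q) (z : MonoidAlgebra F Γ) :
    twA π s 1 z = z := by
  apply MonoidAlgebra.ext
  ext g
  rw [coeff_twA, MonoidHom.one_apply, Units.val_one, rd_one, one_mul]

/-- the automorphisms of the centre of `F[M]` -/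
noncomputable def phi (π : integralClosure ℤ ℂ →+* F) [Finite Q] (s : Γ →* Q) {M U : Subgroup Γ}
    (hn : ∀ u ∈ U, ∀ g ∈ M, u * g * u⁻¹ ∈ M) (w : U × (Q →* ℂˣ)) :
    ZA F M M →+* ZA F M M where
  toFun z := ⟨cjA (w.1 : Γ) (twA π s w.2 z), cjA_mem (nor_iff hn w.1.2) (hn _ w.1.2)
    (twA_mem π s w.2 z.2)⟩
  map_one' := Subtype.ext (by
    show cjA (w.1 : Γ) (twA π s w.2 1) = 1
    rw [twA_one, cjA_one])
  map_mul' a b := Subtype.ext (by
    show cjA (w.1 : Γ) (twA π s w.2 ((a : MonoidAlgebra F Γ) * b)) = _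
    rw [twA_mul, cjA_mul]
    rfl)
  map_zero' := Subtype.ext (by
    show cjA (w.1 : Γ) (twA π s w.2 0) = 0
    apply MonoidAlgebra.ext
    ext g
    rw [coeff_cjA, coeff_twA]
    simp)
  map_add' a b := Subtype.ext (by
    show cjA (w.1 : Γ) (twA π s w.2 ((a : MonoidAlgebra F Γ) + b)) = _
    rw [twA_add, cjA_add]
    rfl)

theorem phi_apply (π : integralClosure ℤ ℂ →+* F) [Finite Q] (s : Γ →* Q) {M U : Subgroup Γ}
    (hn : ∀ u ∈ U, ∀ g ∈ M, u * g * u⁻¹ ∈ M) (w : U × (Q →* ℂˣ)) (z : ZA F M M) :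
    ((phi π s hn w z : ZA F M M) : MonoidAlgebra F Γ) = cjA (w.1 : Γ) (twA π s w.2 z) := rfl

theorem phi_phi (π : integralClosure ℤ ℂ →+* F) [Finite Q] (s : Γ →* Q) {M U : Subgroup Γ}
    (hn : ∀ u ∈ U, ∀ g ∈ M, u * g * u⁻¹ ∈ M) (w w' : U × (Q →* ℂˣ)) (z : ZA F M M) :
    phi π s hn w' (phi π s hn w z) = phi π s hn (w * w') z := by
  apply Subtype.ext
  rw [phi_apply, phi_apply, phi_apply, ← cjA_twA, twA_twA, cjA_cjA]
  rfl

theorem phi_one (π : integralClosure ℤ ℂ →+* F) [Finite Q] (s : Γ →* Q) {M U : Subgroup Γ}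
    (hn : ∀ u ∈ U, ∀ g ∈ M, u * g * u⁻¹ ∈ M) (z : ZA F M M) : phi π s hn 1 z = z := by
  apply Subtype.ext
  rw [phi_apply]
  show cjA ((1 : U) : Γ) (twA π s 1 z) = z
  rw [twA_one_left, Subgroup.coe_one, cjA_one_left]

/-- for an invariant element the values of `s` on the support are `ℓ`-elements -/
theorem pow_eq_one_of_inv (hB0 : T_B0) (π : integralClosure ℤ ℂ →+* F)
    (hπ : Function.Surjective π) (ℓ : ℕ) [Fact ℓ.Prime] [CharP F ℓ] [Finite Q] (s : Γ →* Q)
    (z : MonoidAlgebra F Γ) (hz : ∀ μ : Q →* ℂˣ, twA π s μ z = z) {e m : ℕ} (hm : ¬ ℓ ∣ m)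
    (hcard : Nat.card Q = ℓ ^ e * m) (g : Γ) (hg : z.coeff g ≠ 0) : s g ^ ℓ ^ e = 1 := by
  by_contra hcon
  obtain ⟨μ, hμ⟩ := CommGroup.exists_apply_ne_one_of_hasEnoughRootsOfUnity Q ℂ hcon
  apply hμ
  have h1 : rd π (μ (s g) : ℂ) = 1 := by
    have h2 := congrArg (fun w : MonoidAlgebra F Γ => w.coeff g) (hz μ)
    simp only [coeff_twA] at h2
    exact mul_right_cancel₀ hg (h2.trans (one_mul _).symm)
  have h3 : rd π (μ (s g ^ ℓ ^ e) : ℂ) = 1 := by
    rw [map_pow, Units.val_pow_eq_pow_val, rd_pow π (mu_integral μ _), h1, one_pow]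
  have h4 : (μ (s g ^ ℓ ^ e) : ℂ) ^ m = 1 := by
    rw [← Units.val_pow_eq_pow_val, ← map_pow, ← pow_mul, ← hcard, pow_card_eq_one', map_one,
      Units.val_one]
  have h5 := (hB0 F π hπ).2 ℓ (μ (s g ^ ℓ ^ e) : ℂ) m hm h4 h3
  exact Units.ext h5

theorem pow_mem_ker (ℓ : ℕ) [Fact ℓ.Prime] [CharP F ℓ] [Finite Q] (s : Γ →* Q)
    {M U : Subgroup Γ} (hMU : M ≤ U) (z : MonoidAlgebra F Γ) (hz : z ∈ ZA F M U) {e : ℕ}
    (he : ∀ g, z.coeff g ≠ 0 → s g ^ ℓ ^ e = 1) : z ^ ℓ ^ e ∈ ZA F (M ⊓ s.ker) U := by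
  have hpr : ℓ.Prime := Fact.out
  have : Fintype Q := Fintype.ofFinite Q
  have hpow : z ^ ℓ ^ e ∈ ZA F M U := (ZA F M U).pow_mem hz _
  have hzM : ∀ c, prt s c z ∈ ZA F M M := fun c => ZA_mono le_rfl hMU (prt_mem s c hz)
  have hchar : CharP (ZA F M M) ℓ :=
    charP_of_injective_algebraMap (algebraMap F (ZA F M M)).injective ℓ
  have hsum : z ^ ℓ ^ e = ∑ c, prt s c z ^ ℓ ^ e := by
    have h1 : (∑ c, (⟨prt s c z, hzM c⟩ : ZA F M M)) ^ ℓ ^ e =
        ∑ c, (⟨prt s c z, hzM c⟩ : ZA F M M) ^ ℓ ^ e := sum_pow_char_pow ℓ e _ _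
    have h2 := congrArg (fun x : ZA F M M => (x : MonoidAlgebra F Γ)) h1
    simp only [SubmonoidClass.coe_pow, AddSubmonoidClass.coe_finsetSum] at h2
    rwa [sum_prt] at h2
  refine ⟨fun g hg => ?_, hpow.2⟩
  by_contra hne
  apply hg
  refine ⟨?_, ?_⟩
  · by_contra hgM
    exact hne (hpow.1 g hgM)
  · show s g = 1
    rw [hsum, MonoidAlgebra.coeff_sum, Finsupp.finsetSum_apply] at hne
    obtain ⟨c, _, hc⟩ := Finset.exists_ne_zero_of_sum_ne_zero hne
    have h1 : s g = c ^ ℓ ^ e := pow_deg s (z := prt s c z) (c := c) (fun g' hg' => by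
      rw [coeff_prt] at hg'
      by_contra hcon
      rw [if_neg hcon] at hg'
      exact hg' rfl) _ g hc
    have h2 : ∃ g', (prt s c z).coeff g' ≠ 0 := by
      by_contra hcon
      push Not at hcon
      have h0 : prt s c z = 0 := by
        apply MonoidAlgebra.ext
        ext g'
        rw [hcon g']
        simp
      apply hc
      rw [h0, zero_pow (pow_ne_zero _ hpr.ne_zero)]
      simp
    obtain ⟨g', hg'⟩ := h2
    rw [coeff_prt] at hg'
    have h3 : s g' = c := by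
      by_contra hcon
      rw [if_neg hcon] at hg'
      exact hg' rfl
    rw [if_pos h3] at hg'
    rw [h1, ← h3]
    exact he g' hg'

end

end H77

open H77 in
theorem G1 (hB0 : T_B0) : T_G1 := by
  intro F _ π hπ ℓ _ _ Γ _ _ Q _ _ s M U hMU hn h k hh hk hagree
  have hpr : ℓ.Prime := Fact.out
  obtain ⟨e, m, hm, hcard⟩ := Nat.exists_eq_pow_mul_and_not_dvd
    (n := Nat.card Q) Nat.card_pos.ne' ℓ hpr.ne_one
  -- agreement on the invariants
  have hinv : ∀ z ∈ ZA F M M, (∀ u ∈ U, cjA u z = z) → (∀ μ : Q →* ℂˣ, twA π s μ z = z) →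
      h z = k z := by
    intro z hz hu hμ
    have hzU : z ∈ ZA F M U := ⟨hz.1, fun u hu' g => by
      have := congrArg (fun w : MonoidAlgebra F Γ => w.coeff g) (hu u hu')
      simpa only [coeff_cjA] using this⟩
    have h1 := hagree _ (pow_mem_ker ℓ s hMU z hzU (e := e) fun g hg =>
      pow_eq_one_of_inv hB0 π hπ ℓ s z hμ hm hcard g hg)
    rw [hh.map_pow hz, hk.map_pow hz] at h1
    have h2 : (h z - k z) ^ ℓ ^ e = 0 := by
      rw [sub_pow_char_pow, h1, sub_self]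
    exact sub_eq_zero.1 (pow_eq_zero_iff (pow_ne_zero _ hpr.ne_zero) |>.1 h2)
  -- the finite group of automorphisms
  have hW : Fintype (U × (Q →* ℂˣ)) := Fintype.ofFinite _
  set hR := hh.toRingHom with hhR
  set kR := hk.toRingHom with hkR
  by_contra hcon
  push Not at hcon
  -- prime avoidance
  have hnot : ¬ ((RingHom.ker hR : Ideal (ZA F M M)) : Set (ZA F M M)) ⊆
      ⋃ w ∈ ((Finset.univ : Finset (U × (Q →* ℂˣ))) : Set (U × (Q →* ℂˣ))),
        ((RingHom.ker (kR.comp (phi π s hn w)) : Ideal (ZA F M M)) : Set (ZA F M M)) := by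
    rw [Ideal.subset_union_prime 1 1 (fun w _ _ _ => RingHom.ker_isPrime _)]
    rintro ⟨w, _, hw⟩
    obtain ⟨z, hz, hne⟩ := hcon w.1 w.1.2 w.2
    apply hne
    have h1 : (⟨z, hz⟩ : ZA F M M) - algebraMap F (ZA F M M) (h z) ∈ RingHom.ker hR := by
      rw [RingHom.mem_ker, map_sub, sub_eq_zero]
      have : hR (algebraMap F (ZA F M M) (h z)) = h z := by
        have := hh.toAlgHom.commutes (h z)
        exact this
      rw [this]
      rfl
    have h2 := hw h1
    rw [RingHom.mem_ker, map_sub, sub_eq_zero] at h2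
    have h3 : (kR.comp (phi π s hn w)) (algebraMap F (ZA F M M) (h z)) = h z := by
      have e1 : phi π s hn w (algebraMap F (ZA F M M) (h z)) =
          algebraMap F (ZA F M M) (h z) := by
        apply Subtype.ext
        rw [phi_apply, Subalgebra.coe_algebraMap, Algebra.algebraMap_eq_smul_one, twA_smul,
          twA_one, cjA_smul, cjA_one]
      rw [RingHom.comp_apply, e1]
      exact hk.toAlgHom.commutes (h z)
    rw [h3] at h2
    exact h2.symm
  rw [Set.not_subset] at hnot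
  obtain ⟨z, hz, hz'⟩ := hnot
  have hz0 : hR z = 0 := hz
  have hzw : ∀ w, kR (phi π s hn w z) ≠ 0 := by
    intro w hw
    apply hz'
    simp only [Set.mem_iUnion]
    exact ⟨w, Finset.mem_coe.2 (Finset.mem_univ w), hw⟩
  set N : ZA F M M := ∏ w, phi π s hn w z with hN
  have hNinv : ∀ w, phi π s hn w N = N := by
    intro w
    rw [hN, map_prod]
    simp only [phi_phi]
    exact Fintype.prod_equiv (Equiv.mulRight w) _ _ fun w' => rfl
  have hhN : hR N = 0 := by
    rw [hN, map_prod]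
    refine Finset.prod_eq_zero (Finset.mem_univ 1) ?_
    rw [phi_one, hz0]
  have hkN : kR N ≠ 0 := by
    rw [hN, map_prod]
    exact Finset.prod_ne_zero_iff.2 fun w _ => hzw w
  apply hkN
  rw [← hhN]
  symm
  refine hinv (N : MonoidAlgebra F Γ) N.2 (fun u hu => ?_) (fun μ => ?_)
  · have h1 := congrArg (fun x : ZA F M M => (x : MonoidAlgebra F Γ)) (hNinv (⟨u, hu⟩, 1))
    simp only [phi_apply, twA_one_left] at h1
    exact h1
  · have h1 := congrArg (fun x : ZA F M M => (x : MonoidAlgebra F Γ)) (hNinv (1, μ))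
    simp only [phi_apply, Subgroup.coe_one, cjA_one_left] at h1
    exact h1

end AMc
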