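import Pool.Agent.H77.EA.Final
import Pool.Agent.H77.EA.IN
import Pool.Agent.H77.EA.G1
import Pool.Agent.H87.AQ.All
import Pool.Agent.H3.AM.A1
import Pool.Agent.H3.AM.A2
import Pool.Agent.H21.AM.A4
import Pool.Agent.H21.AM.A5
import Pool.Agent.H21.AM.BL
import Pool.Agent.H21.AM.B7
import Pool.Agent.H69.AM.C1
import Pool.Agent.H69.AM.C4
import Pool.Agent.H69.AM.D7
import Pool.Agent.H47.AM.C3
import Pool.Agent.H25.AM.D3
import Pool.Agent.H25.AM.D5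
import Pool.Agent.H19.AM.EA
import Pool.Agent.H14.EA.B3
import Pool.Agent.H16.EA.ZH
import Pool.Agent.H19.EA.B4
import Pool.Agent.H19.EA.KX
import Pool.Agent.H19.EA.UD
import Pool.Agent.H2.EA.MC
import Pool.Agent.H20.EA.CV
import Pool.Agent.H20.EA.GC
import Pool.Agent.H20.EA.QI
import Pool.Agent.H20.EA.ZP
import Pool.Agent.H28.EA.CT
import Pool.Agent.H28.EA.DG
import Pool.Agent.H28.EA.P2
import Pool.Agent.H28.EA.ST
import Pool.Agent.H33.EA.RS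
import Pool.Agent.H39.EA.CZ
import Pool.Agent.H39.EA.K2
import Pool.Agent.H4.EA.QB
import Pool.Agent.H4.EA.QC
import Pool.Agent.H43.EA.CY
import Pool.Agent.H43.EA.EX
import Pool.Agent.H43.EA.OB
import Pool.Agent.H47.EA.TR
import Pool.Agent.H48.EA.GA
import Pool.Agent.H62.EA.GB
import Pool.Agent.H62.EA.QN
import Pool.Agent.H65.EA.B8
import Pool.Agent.H65.EA.K1
import Pool.Agent.H68.EA.B0
import Pool.Agent.H68.EA.QR
import Pool.Agent.H68.EA.SA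
import Pool.Agent.H68.EA.SB
import Pool.Agent.H74.EA.CL
import Pool.Agent.H76.EA.DX
import Pool.Agent.H76.EA.F0
import Pool.Agent.H76.EA.P0
import Pool.Agent.H76.EA.SP
import Pool.Agent.H78.EA.CN
import Pool.Agent.H78.EA.P1
import Pool.Agent.H85.EA.BT
import Pool.Agent.H85.EA.CYT

/-!
# Equivariant Alperin–McKay (MP_657073_al): all facts used in the final theorem
-/

open AMc AMe

namespace Pool.Agent.H77.EA.All

theorem fA3 : T_A3 := AMc.t_A3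
theorem fA1 : T_A1 := AMc.t_A1
theorem fA2 : T_A2 := AMc.t_A2 fA3
theorem fA4 : T_A4 := AMc.a4
theorem fA5 : T_A5 := AMc.a5 fA3
theorem fA6 : T_A6 := AMc.a6 fA3
theorem fS1 : T_S1 := H68.EA.sa1 fA3
theorem fS2 : T_S2 := H68.EA.sa2 fA1
theorem fS4 : T_S4 := H68.EA.sa4 fA3 fA4
theorem fS7 : T_S7 := H68.EA.sa7 fA1 fA3 fA4
theorem fS8 : T_S8 := H68.EA.sa8 fA1 fA3 fA4
theorem fS3 : T_S3 := H68.EA.sb3 fA2
theorem fS5 : T_S5 := H68.EA.sb5 fA3 fA5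
theorem fS6 : T_S6 := H68.EA.sb6 fA6
theorem fS9 : T_S9 := H68.EA.sb9 fA1 fA2 fA3
theorem fBL : T_BL := AMc.bl fS1 fS5
theorem fB2 : T_B2 := AMc.b2 fBL
theorem fB1 : T_B1 := AMc.b1 fS1 fS6 fBL
theorem fB7 : T_B7 := AMc.b7 fS1 fS5 fB2
theorem fB9 : T_B9 := AMc.b9 fB1 fB2
theorem fB0 : T_B0 := H68.EA.b0
theorem fB3 : T_B3 := H14.EA.b3 fS1 fS3 fS6 fS9 fB1 fBL
theorem fE1 : T_E1 := AMc.e1 fS1 fS3
theorem fE4 : T_E4 := AMc.e4 fS1 fS3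
theorem fE2 : T_E2 := AMc.e2 fS1 fS2 fS3 fS6 fS7
theorem fE6 : T_E6 := AMc.e6 fS1 fS2 fS3 fS4 fS7 fE2
theorem fB4 : T_B4 := H19.EA.b4 fE6 fBL
theorem fB5 : T_B5 := H19.EA.b5
theorem fB6 : T_B6 := H19.EA.b6 fBL fS8
theorem fC1 : T_C1 := AMc.c1
theorem fC2 : T_C2 := AMc.c2
theorem fC3 : T_C3 := AMc.c3 fC1 fC2
theorem fC4 : T_C4 := AMc.c4 fC2
theorem fD1 : T_D1 := AMc.d1
theorem fD2 : T_D2 := AMc.d2
theorem fD3 : T_D3 := _root_.H25.AM.d3 fC1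
theorem fD5 : T_D5 := _root_.H25.AM.d5 fD1 fD2
theorem fD5b : T_D5b := _root_.H25.AM.d5b fD3
theorem fD6 : T_D6 := _root_.H25.AM.d6 fC2 fD2 fD3
theorem fD7 : T_D7 := AMc.d7 fD1 fD2
theorem fB8 : T_B8 := H65.EA.b8 fS1 fS5 fB1 fB2 fD3
theorem fK1 : T_K1 := H65.EA.k1
theorem fK2 : T_K2 := H39.EA.k2 fK1
theorem fP0 : T_P0 := H76.EA.p0
theorem fP1 : T_P1 := H78.EA.p1
theorem fP2 : T_P2 := H28.EA.p2 fS1
theorem fSP : T_SP := H76.EA.sp fP0 fB1 fB4 fB5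
theorem fF0 : T_F0 := H76.EA.f0 fC2
theorem fDX : T_DX := H76.EA.dx fP0 fSP fB1 fB4 fC3 fC4 fF0
theorem fCL : T_CL := H74.EA.CL.cl fP0 fS1 AMq.a_Q1 AMq.a_Q2 AMq.a_Q3 AMq.a_Q4
theorem fEX : T_EX := H43.EA.ex fP0
theorem fCT : T_CT := H28.EA.ct fP0 fCL fEX fS1 fS7 fS9
theorem fCY : T_CY := H43.EA.cy
theorem fOB : T_OB := H43.EA.ob
theorem fTR : T_TR := H47.EA.tr
theorem fHT : T_HT := H78.EA.ht fB7
theorem fDG : T_DG := H28.EA.dg fB5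
theorem fST : T_ST := H28.EA.st fS7 fB0 fB1 fB3 fB5 fD1 fD2 fD5b fD6 fD7
theorem fTC : T_TC := H28.EA.tc fB1 fD2 fD5 fD5b
theorem fKX : T_KX := H19.EA.kx fK1 fK2 fB9
theorem fZH : T_ZH := AMe.zh
theorem fZP : T_ZP := H20.EA.zp fZH fB0
theorem fQI : T_QI := H20.EA.qi
theorem fQN : T_QN := H62.EA.qn
theorem fCYT : T_CYT := H85.EA.cyt

theorem fG1 : T_G1 := _root_.AMc.G1 fB0
theorem fCV : T_CV := H20.EA.cv fB1 fB5 fG1
theorem fUN : T_UN := H20.EA.un fB1 fG1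
theorem fUD : T_UD := H19.EA.ud fCV fST fE1 fB1 fB4 fC4 fD2 fD6
theorem fCN : T_CN := H78.EA.cn fP0 fCL fEX fCV fUN fHT fS1 fS9 fE1 fB4
theorem fCB : T_CB := H20.EA.cb fP0 fCL fCV fDX fS1 fS7 fE1 fB4 fB5
theorem fMC : T_MC := AMe.mc fP0 fCB fUD fST fS9
theorem fIN : T_IN :=
  in_ fP0 fP1 fP2 fCT fCB fCN fDX fUD fST fTC fUN fDG fMC fS1 fS7 fE4 fB4 fB5

theorem fRS : T_RS := H33.EA.RS.rs_ fC1
theorem fGA : T_GA := H48.EA.ga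
theorem fGB : T_GB := H62.EA.gb fRS fGA fK1 fB1 fB2
theorem fGC : AMe.T_GC := H20.EA.gc fGA fGB
theorem fBT : T_BT := H85.EA.bt fK1 fK2 fB8 fB9 fST fD5 fB1 fKX
theorem fQB : T_QB := H4.EA.qb fGB fRS fQI fC2 fC3 fB1 fB2 fB9 fK1 fK2
theorem fQR : T_QR := H68.EA.QR.qr
theorem fQC : T_QC := H4.EA.QC.qc fBT fQI fQN fQB fQR
theorem fCZ : T_CZ := H39.EA.cz fK1 fS1 fS9 fQC fGC fZH

theorem fHypG : HypG where
  A3 := fA3
  S1 := fS1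
  S7 := fS7
  S9 := fS9
  K1 := fK1
  K2 := fK2
  B8 := fB8
  B9 := fB9
  ST := fST
  IN := fIN
  TR := fTR
  KX := fKX
  CY := fCY
  OB := fOB
  ZH := fZH
  ZP := fZP
  CZ := fCZ
  CYT := fCYT

end Pool.Agent.H77.EA.All
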