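import Pool.Agent.H77.EA.Main2

/-!
# Equivariant Alperin–McKay (MP_657073_al): the final statement
-/

open scoped Classical

set_option linter.unusedSectionVars false

namespace Pool.Agent.H77.EA

open AMc AMe

/-- the residue field of a maximal ideal as an abstract field -/
theorem exists_field (ℓ : ℕ) [Fact ℓ.Prime] (𝔪 : Ideal (integralClosure ℤ ℂ))
    (h𝔪 : 𝔪.IsMaximal) (hℓ : (ℓ : integralClosure ℤ ℂ) ∈ 𝔪) :
    ∃ (F : Type) (_ : Field F) (π : integralClosure ℤ ℂ →+* F),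
      Function.Surjective π ∧ RingHom.ker π = 𝔪 ∧ CharP F ℓ := by
  refine ⟨integralClosure ℤ ℂ ⧸ 𝔪, Ideal.Quotient.field 𝔪, Ideal.Quotient.mk 𝔪,
    Ideal.Quotient.mk_surjective, Ideal.mk_ker, ?_⟩
  let _ := Ideal.Quotient.field 𝔪
  rw [CharP.charP_iff_prime_eq_zero Fact.out]
  have : Ideal.Quotient.mk 𝔪 (ℓ : integralClosure ℤ ℂ) = 0 := Ideal.Quotient.eq_zero_iff_mem.2 hℓ
  rw [map_natCast] at this
  exact this

/-- a bijection gives the equality of the numbers -/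
theorem card_of_equiv {A B : Type} {S : Set A} {T : Set B} (f : S ≃ T) : S.ncard = T.ncard := by
  rw [← Nat.card_coe_set_eq, ← Nat.card_coe_set_eq]
  exact Nat.card_congr f

/-- the orbit numbers of the trivial group -/
theorem card_of_orbits {G : Type} [Group G] [Fintype G] {ℓ : ℕ}
    {𝔪 : Ideal (integralClosure ℤ ℂ)} {D : Subgroup G} {χ : G → ℂ}
    {ψ : Subgroup.normalizer (D : Set G) → ℂ} (key : SameOrbits ℓ 𝔪 D χ ψ ⊥) :
    (Irr0 ℓ 𝔪 χ D).ncard =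
      (Irr0 ℓ 𝔪 ψ (D.subgroupOf (Subgroup.normalizer (D : Set G)))).ncard := by
  unfold SameOrbits at key
  have hQ : ∀ (T : Type) (r : T → T → Prop), (∀ a b, r a b → a = b) →
      Nat.card (Quot r) = Nat.card T := by
    intro T r hr
    symm
    refine Nat.card_congr (Equiv.ofBijective (Quot.mk r) ⟨fun a b hab => ?_, Quot.exists_rep⟩)
    have := congrArg (Quot.lift id (fun a b h => hr a b h)) hab
    exact this
  rw [hQ _ _ ?_, hQ _ _ ?_] at key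
  · rw [← Nat.card_coe_set_eq, ← Nat.card_coe_set_eq]
    exact key
  · rintro a b ⟨σ, hσ, h⟩
    rw [Subgroup.mem_bot] at hσ
    subst hσ
    apply Subtype.ext
    funext x
    exact (h x x rfl).symm
  · rintro a b ⟨σ, hσ, h⟩
    rw [Subgroup.mem_bot] at hσ
    subst hσ
    apply Subtype.ext
    funext x
    exact (h x).symm

theorem final (H : HypG) (ℓ : ℕ) [Fact ℓ.Prime] (𝔪 : Ideal (integralClosure ℤ ℂ))
    (hm : 𝔪.IsMaximal) (hl : (ℓ : integralClosure ℤ ℂ) ∈ 𝔪) :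
    [∀ (G : Type) [Group G] [Fintype G] (D : Subgroup G) (χ : G → ℂ)
        (ψ : Subgroup.normalizer (D : Set G) → ℂ), Brauer ℓ 𝔪 D χ ψ →
        (Irr0 ℓ 𝔪 χ D).ncard =
          (Irr0 ℓ 𝔪 ψ (D.subgroupOf (Subgroup.normalizer (D : Set G)))).ncard,
     ∀ (G : Type) [Group G] [Fintype G] (D : Subgroup G) (χ : G → ℂ)
        (ψ : Subgroup.normalizer (D : Set G) → ℂ), Brauer ℓ 𝔪 D χ ψ →
        ∀ σ : MulAut G, Fixes 𝔪 D χ σ → EquivBijZ ℓ 𝔪 D χ ψ σ,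
     ∀ (G : Type) [Group G] [Fintype G] (D : Subgroup G) (χ : G → ℂ)
        (ψ : Subgroup.normalizer (D : Set G) → ℂ), Brauer ℓ 𝔪 D χ ψ →
        ∀ A : Subgroup (MulAut G), (∀ σ ∈ A, Fixes 𝔪 D χ σ) →
        SameOrbits ℓ 𝔪 D χ ψ A].TFAE ∧
    ∀ 𝓓 : (D : Type) → [Group D] → Prop,
    (∀ (D E : Type) [Group D] [Group E], Nonempty (D ≃* E) → 𝓓 D → 𝓓 E) →
    [∀ (G : Type) [Group G] [Fintype G] (D : Subgroup G) (χ : G → ℂ)
        (ψ : Subgroup.normalizer (D : Set G) → ℂ), Brauer ℓ 𝔪 D χ ψ → 𝓓 D →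
        (Irr0 ℓ 𝔪 χ D).ncard =
          (Irr0 ℓ 𝔪 ψ (D.subgroupOf (Subgroup.normalizer (D : Set G)))).ncard,
     ∀ (G : Type) [Group G] [Fintype G] (D : Subgroup G) (χ : G → ℂ)
        (ψ : Subgroup.normalizer (D : Set G) → ℂ), Brauer ℓ 𝔪 D χ ψ → 𝓓 D →
        ∀ σ : MulAut G, Fixes 𝔪 D χ σ → ¬ ℓ ∣ orderOf σ → EquivBij ℓ 𝔪 D χ ψ σ,
     ∀ (G : Type) [Group G] [Fintype G] (D : Subgroup G) (χ : G → ℂ)
        (ψ : Subgroup.normalizer (D : Set G) → ℂ), Brauer ℓ 𝔪 D χ ψ → 𝓓 D →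
        ∀ A : Subgroup (MulAut G), (∀ σ ∈ A, Fixes 𝔪 D χ σ) → ¬ ℓ ∣ Nat.card A →
        SameOrbits ℓ 𝔪 D χ ψ A].TFAE := by
  obtain ⟨F, _, π, hπ, rfl, _⟩ := exists_field ℓ 𝔪 hm hl
  have h1ℓ : ¬ ℓ ∣ 1 := (Fact.out : ℓ.Prime).one_lt.ne' ∘ Nat.dvd_one.1
  constructor
  · have M := main hπ H.toHypF H.S9 (ℓ := ℓ) (𝓓 := fun _ _ => True) (fun _ _ _ _ _ _ => trivial)
    have M13 := (M.out 0 2).1
    tfae_have 1 → 2 := by
      intro hAM G _ _ D χ ψ hB σ hσ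
      exact equivBijZ hπ H hAM hB hσ
    tfae_have 1 → 3 := by
      intro hAM G _ _ D χ ψ hB A hA
      exact M13 (fun G _ _ D χ ψ hB _ => hAM G D χ ψ hB) G D χ ψ hB trivial A hA
        (Or.inr fun _ _ => trivial)
    tfae_have 2 → 1 := by
      intro h G _ _ D χ ψ hB
      obtain ⟨f, -⟩ := h G D χ ψ hB 1 (fixes_one D χ)
      exact card_of_equiv f
    tfae_have 3 → 1 := by
      intro h G _ _ D χ ψ hB
      exact card_of_orbits (h G D χ ψ hB ⊥ (fun σ hσ => by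
        rw [Subgroup.mem_bot] at hσ
        rw [hσ]
        exact fixes_one D χ))
    tfae_finish
  · intro 𝓓 hiso
    have M := main hπ H.toHypF H.S9 (ℓ := ℓ) (𝓓 := 𝓓) hiso
    have M12 := (M.out 0 1).1
    have M13 := (M.out 0 2).1
    tfae_have 1 → 2 := by
      intro hAM G _ _ D χ ψ hB hD σ hσ hc
      exact M12 hAM G D χ ψ hB hD σ hσ (Or.inl hc)
    tfae_have 1 → 3 := by
      intro hAM G _ _ D χ ψ hB hD A hA hc
      exact M13 hAM G D χ ψ hB hD A hA (Or.inl hc)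
    tfae_have 2 → 1 := by
      intro h G _ _ D χ ψ hB hD
      obtain ⟨f, -⟩ := h G D χ ψ hB hD 1 (fixes_one D χ) (by rw [orderOf_one]; exact h1ℓ)
      exact card_of_equiv f
    tfae_have 3 → 1 := by
      intro h G _ _ D χ ψ hB hD
      exact card_of_orbits (h G D χ ψ hB hD ⊥ (fun σ hσ => by
        rw [Subgroup.mem_bot] at hσ
        rw [hσ]
        exact fixes_one D χ) (by rw [Subgroup.card_bot]; exact h1ℓ))
    tfae_finish

end Pool.Agent.H77.EA
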