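import Pool.Agent.H77.EA.Act

/-!
# Equivariant Alperin–McKay (MP_657073_al): from the ambient group to the statement
-/

open scoped Classical

set_option linter.unusedSectionVars false

namespace Pool.Agent.H77.EA

open AMc AMe

/-- the facts used in the final part -/
structure HypF : Prop where
  S1 : T_S1
  S7 : T_S7
  K1 : T_K1
  K2 : T_K2
  B8 : T_B8
  B9 : T_B9
  ST : T_ST
  IN : T_IN
  TR : T_TR
  KX : T_KX
  CY : T_CY
  OB : T_OB

section

variable {F : Type} [Field F] {π : integralClosure ℤ ℂ →+* F} (hπ : Function.Surjective π)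
  {ℓ : ℕ} [Fact ℓ.Prime] [CharP F ℓ] (H : HypF)
include hπ H

/-- dictionary between the type level and the ambient level -/
theorem dict {G Γ : Type} [Group G] [Fintype G] [Group Γ] [Fintype Γ] (j : G →* Γ)
    (hj : Function.Injective j) (D : Subgroup G) (χ : G → ℂ)
    (ψ : Subgroup.normalizer (D : Set G) → ℂ) (hχ : χ ∈ Irr G)
    (hψ : ψ ∈ Irr (Subgroup.normalizer (D : Set G))) :
    extj j χ ∈ IrrS j.range ∧
    extj (j.comp (Subgroup.normalizer (D : Set G)).subtype) ψ ∈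
      IrrS (j.range ⊓ Subgroup.normalizer ((D.map j : Subgroup Γ) : Set Γ)) ∧
    (IsDefect ℓ (RingHom.ker π) χ D ↔ DefH ℓ j.range (lam π (extj j χ)) (D.map j)) ∧
    (IsDefect ℓ (RingHom.ker π) ψ (D.subgroupOf (Subgroup.normalizer (D : Set G))) ↔
      DefH ℓ (j.range ⊓ Subgroup.normalizer ((D.map j : Subgroup Γ) : Set Γ))
        (lam π (extj (j.comp (Subgroup.normalizer (D : Set G)).subtype) ψ)) (D.map j)) ∧
    (IsPGroup ℓ D → (Corr (RingHom.ker π) (Subgroup.normalizer (D : Set G)).subtype χ ψ ↔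
      Cor π j.range (D.map j) (extj j χ)
        (extj (j.comp (Subgroup.normalizer (D : Set G)).subtype) ψ))) ∧
    (j.comp (Subgroup.normalizer (D : Set G)).subtype).range =
      j.range ⊓ Subgroup.normalizer ((D.map j : Subgroup Γ) : Set Γ) ∧
    (D.subgroupOf (Subgroup.normalizer (D : Set G))).map
      (j.comp (Subgroup.normalizer (D : Set G)).subtype) = D.map j := by
  have hj'i : Function.Injective (j.comp (Subgroup.normalizer (D : Set G)).subtype) :=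
    hj.comp Subtype.val_injective
  have hr : (j.comp (Subgroup.normalizer (D : Set G)).subtype).range =
      j.range ⊓ Subgroup.normalizer ((D.map j : Subgroup Γ) : Set Γ) := by
    rw [MonoidHom.range_comp, Subgroup.range_subtype]
    exact (H.K2 G Γ j hj (RingHom.ker π) ℓ χ D).2.2.2
  have h1 : extj j χ ∈ IrrS j.range := ((H.K1 G Γ j hj).2.1 χ).1 hχ
  have h2 : extj (j.comp (Subgroup.normalizer (D : Set G)).subtype) ψ ∈
      IrrS (j.range ⊓ Subgroup.normalizer ((D.map j : Subgroup Γ) : Set Γ)) := by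
    rw [← hr]; exact ((H.K1 _ Γ _ hj'i).2.1 ψ).1 hψ
  have hDj : (D.subgroupOf (Subgroup.normalizer (D : Set G))).map
      (j.comp (Subgroup.normalizer (D : Set G)).subtype) = D.map j := by
    ext g
    constructor
    · rintro ⟨n, hn, rfl⟩
      exact ⟨n, hn, rfl⟩
    · rintro ⟨d, hd, rfl⟩
      exact ⟨⟨d, Subgroup.le_normalizer hd⟩, hd, rfl⟩
  refine ⟨h1, h2, ?_, ?_, ?_, hr, hDj⟩
  · rw [(H.K2 G Γ j hj (RingHom.ker π) ℓ χ D).1]
    exact (H.B9 F π hπ ℓ Γ j.range _ h1).2.1 (D.map j)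
  · rw [(H.K2 _ Γ _ hj'i (RingHom.ker π) ℓ ψ
      (D.subgroupOf (Subgroup.normalizer (D : Set G)))).1, hDj, hr]
    exact (H.B9 F π hπ ℓ Γ _ _ h2).2.1 (D.map j)
  · intro hD
    rw [(H.K2 G Γ j hj (RingHom.ker π) ℓ χ D).2.2.1 _ (Subgroup.normalizer (D : Set G)).subtype
      Subtype.val_injective ψ]
    exact H.B8 F π hπ ℓ Γ j.range (D.map j) (hD.map j) (Subgroup.map_le_range j D) _ h1 _ h2

theorem extj_inj {N Γ : Type} [Group N] [Fintype N] [Group Γ] [Fintype Γ] {j : N →* Γ}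
    (hj : Function.Injective j) : Function.Injective (extj j) := by
  intro a b hab
  funext n
  rw [← (H.K1 N Γ j hj).1 a n, hab, (H.K1 N Γ j hj).1]

theorem card_all {N Γ : Type} [Group N] [Fintype N] [Group Γ] [Fintype Γ] {j : N →* Γ}
    (hj : Function.Injective j) {χ : N → ℂ} (hχ : χ ∈ Irr N) (D : Subgroup N) :
    (Irr0 ℓ (RingHom.ker π) χ D).ncard = (K0H π ℓ j.range (extj j χ) (D.map j)).ncard := by
  obtain ⟨h1, h2, -⟩ := H.KX F π hπ ℓ N Γ j hj χ hχ D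
  rw [← Set.ncard_image_of_injective _ (extj_inj hπ H hj)]
  congr 1
  ext θ
  constructor
  · rintro ⟨a, ha, rfl⟩
    exact (h1 a).1 ha
  · intro hθ
    obtain ⟨a, rfl⟩ := h2 θ hθ
    exact ⟨a, (h1 a).2 hθ, rfl⟩

theorem cj_extj {N Γ : Type} [Group N] [Fintype N] [Group Γ] [Fintype Γ] {j : N →* Γ}
    (hj : Function.Injective j) {γ : Γ} (hγ : Nm γ j.range) {τ : MulAut N}
    (hτ : ∀ x, γ * j x * γ⁻¹ = j (τ x)) (a : N → ℂ) :
    cj γ (extj j a) = extj j (cmp τ a) := by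
  funext g
  by_cases hg : g ∈ j.range
  · obtain ⟨x, rfl⟩ := hg
    show extj j a (γ * j x * γ⁻¹) = _
    rw [hτ, (H.K1 N Γ j hj).1, (H.K1 N Γ j hj).1]
    rfl
  · have h1 : ¬ γ * g * γ⁻¹ ∈ j.range := fun h => hg ((hγ g).1 h)
    show extj j a (γ * g * γ⁻¹) = _
    unfold extj
    rw [dif_neg (fun h => h1 (MonoidHom.mem_range.2 h)),
      dif_neg (fun h => hg (MonoidHom.mem_range.2 h))]

theorem card_fix {N Γ : Type} [Group N] [Fintype N] [Group Γ] [Fintype Γ] {j : N →* Γ}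
    (hj : Function.Injective j) {γ : Γ} (hγ : Nm γ j.range) {τ : MulAut N}
    (hτ : ∀ x, γ * j x * γ⁻¹ = j (τ x)) {χ : N → ℂ} (hχ : χ ∈ Irr N) {D : Subgroup N}
    (hf : Fixes (RingHom.ker π) D χ τ) :
    {a : Irr0 ℓ (RingHom.ker π) χ D | act τ hf a = a}.ncard =
      (K0F π ℓ j.range (extj j χ) (D.map j) γ).ncard := by
  obtain ⟨h1, h2, -⟩ := H.KX F π hπ ℓ N Γ j hj χ hχ D
  have hinj : Function.Injective
      (fun a : Irr0 ℓ (RingHom.ker π) χ D => extj j (a : N → ℂ)) :=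
    (extj_inj hπ H hj).comp Subtype.val_injective
  rw [← Set.ncard_image_of_injective _ hinj]
  congr 1
  ext θ
  constructor
  · rintro ⟨a, ha, rfl⟩
    refine ⟨(h1 a).1 a.2, ?_⟩
    show cj γ (extj j a.1) = extj j a.1
    rw [cj_extj hπ H hj hγ hτ]
    exact congrArg (fun b : Irr0 ℓ (RingHom.ker π) χ D => extj j b.1) ha
  · rintro ⟨hθ, hθ'⟩
    obtain ⟨a, rfl⟩ := h2 θ hθ
    refine ⟨⟨a, (h1 a).2 hθ⟩, ?_, rfl⟩
    apply Subtype.ext
    rw [cj_extj hπ H hj hγ hτ] at hθ'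
    exact extj_inj hπ H hj hθ'

/-- the ambient form of the numerical equality -/
theorem from_type {𝓓 : (D : Type) → [Group D] → Prop}
    (hiso : ∀ (D E : Type) [Group D] [Group E], Nonempty (D ≃* E) → 𝓓 D → 𝓓 E)
    (hAM : ∀ (G : Type) [Group G] [Fintype G] (D : Subgroup G) (χ : G → ℂ)
      (ψ : Subgroup.normalizer (D : Set G) → ℂ), Brauer ℓ (RingHom.ker π) D χ ψ → 𝓓 D →
      (Irr0 ℓ (RingHom.ker π) χ D).ncard =
        (Irr0 ℓ (RingHom.ker π) ψ (D.subgroupOf (Subgroup.normalizer (D : Set G)))).ncard)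
    (Γ : Type) [Group Γ] [Fintype Γ] : AMa (Γ := Γ) π ℓ (fun P => 𝓓 P) := by
  intro N P hP hPN χ hχ hdef ψ hψ hcor
  set j : N →* Γ := N.subtype with hj
  have hji : Function.Injective j := Subtype.val_injective
  have hjr : j.range = N := Subgroup.range_subtype N
  set D : Subgroup N := P.subgroupOf N with hD
  have hDj : D.map j = P := by
    rw [hD, hj, Subgroup.subgroupOf_map_subtype, inf_eq_left.2 hPN]
  have hdef' := (((H.ST F π hπ ℓ Γ N P).1 χ hχ hdef).2 ψ hψ hcor).1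
  obtain ⟨χ', hχ', rfl⟩ := (H.K1 N Γ j hji).2.2.1 χ (by rw [hjr]; exact hχ)
  have hj'i : Function.Injective (j.comp (Subgroup.normalizer (D : Set N)).subtype) :=
    hji.comp Subtype.val_injective
  have hr : (j.comp (Subgroup.normalizer (D : Set N)).subtype).range =
      N ⊓ Subgroup.normalizer (P : Set Γ) := by
    rw [MonoidHom.range_comp, Subgroup.range_subtype,
      (H.K2 N Γ j hji (RingHom.ker π) ℓ χ' D).2.2.2, hDj, hjr]
  obtain ⟨ψ', hψ', rfl⟩ := (H.K1 _ Γ _ hj'i).2.2.1 ψ (by rw [hr]; exact hψ)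
  obtain ⟨_, _, h3, h4, h5, _, h7⟩ := dict hπ H j hji D χ' ψ' hχ' hψ'
  rw [hDj, hjr] at h3 h4 h5
  have hDp : IsPGroup ℓ D := hdef.1.comap_of_injective _ Subtype.val_injective
  have hB : Brauer ℓ (RingHom.ker π) D χ' ψ' :=
    ⟨hχ', hψ', h3.2 hdef, h4.2 hdef', (h5 hDp).2 hcor⟩
  have h𝓓 : 𝓓 D := hiso P D ⟨(Subgroup.subgroupOfEquivOfLe hPN).symm⟩ hP
  have key := hAM N D χ' ψ' hB h𝓓
  rw [card_all hπ H hji hχ' D, card_all hπ H hj'i hψ'
    (D.subgroupOf (Subgroup.normalizer (D : Set N))), h7, hr, hDj, hjr] at key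
  exact key

/-- the numbers of characters fixed by an automorphism -/
theorem count {𝓓 : (D : Type) → [Group D] → Prop}
    (hiso : ∀ (D E : Type) [Group D] [Group E], Nonempty (D ≃* E) → 𝓓 D → 𝓓 E)
    (hAM : ∀ (G : Type) [Group G] [Fintype G] (D : Subgroup G) (χ : G → ℂ)
      (ψ : Subgroup.normalizer (D : Set G) → ℂ), Brauer ℓ (RingHom.ker π) D χ ψ → 𝓓 D →
      (Irr0 ℓ (RingHom.ker π) χ D).ncard =
        (Irr0 ℓ (RingHom.ker π) ψ (D.subgroupOf (Subgroup.normalizer (D : Set G)))).ncard)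
    {G : Type} [Group G] [Fintype G] {D : Subgroup G} {χ : G → ℂ}
    {ψ : Subgroup.normalizer (D : Set G) → ℂ} (hB : Brauer ℓ (RingHom.ker π) D χ ψ)
    (hD : 𝓓 D) {σ : MulAut G} (hσ : Fixes (RingHom.ker π) D χ σ)
    (hc : ¬ ℓ ∣ orderOf σ ∨ ∀ (E : Type) [Group E], 𝓓 E) :
    ∃ hσ' : Fixes (RingHom.ker π) (D.subgroupOf (Subgroup.normalizer (D : Set G))) ψ
      (rs D σ hσ.1),
      {a : Irr0 ℓ (RingHom.ker π) χ D | act σ hσ a = a}.ncard =
        {b : Irr0 ℓ (RingHom.ker π) ψ (D.subgroupOf (Subgroup.normalizer (D : Set G))) |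
          act (rs D σ hσ.1) hσ' b = b}.ncard := by
  obtain ⟨hχ, hψ, hd1, hd2, hcorr⟩ := hB
  obtain ⟨Γ, _, _, Q, _, _, j, s, γ, hj, hγ, hdat⟩ := H.TR G σ
  have hdat := hdat D hσ.1
  have hj'i : Function.Injective (j.comp (Subgroup.normalizer (D : Set G)).subtype) :=
    hj.comp Subtype.val_injective
  obtain ⟨h1, h2, h3, h4, h5, h6, h7⟩ := dict hπ H j hj D χ ψ hχ hψ
  have hdef := h3.1 hd1
  have hcor := (h5 hd1.1).1 hcorr
  have hγj : Nm γ j.range := hdat.nm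
  have hτ : ∀ x : Subgroup.normalizer (D : Set G),
      γ * (j.comp (Subgroup.normalizer (D : Set G)).subtype) x * γ⁻¹ =
        (j.comp (Subgroup.normalizer (D : Set G)).subtype) (rs D σ hσ.1 x) := fun x => hγ x
  have hγj' : Nm γ (j.comp (Subgroup.normalizer (D : Set G)).subtype).range := by
    rw [h6]
    intro g
    have e1 := hγj g
    have e2 : γ * g * γ⁻¹ ∈ Subgroup.normalizer ((D.map j : Subgroup Γ) : Set Γ) ↔
        g ∈ Subgroup.normalizer ((D.map j : Subgroup Γ) : Set Γ) := by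
      constructor
      · intro h
        have := Subgroup.mul_mem _ (Subgroup.mul_mem _ (Subgroup.inv_mem _ hdat.np) h) hdat.np
        have e3 : γ⁻¹ * (γ * g * γ⁻¹) * γ = g := by group
        rwa [e3] at this
      · intro h
        exact Subgroup.mul_mem _ (Subgroup.mul_mem _ hdat.np h) (Subgroup.inv_mem _ hdat.np)
    rw [Subgroup.mem_inf, Subgroup.mem_inf, e1, e2]
  -- invariance of the blocks
  have hb : Blk π j.range (extj j χ) (cj γ (extj j χ)) := by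
    rw [cj_extj hπ H hj hγj hγ]
    exact ((H.KX F π hπ ℓ G Γ j hj χ hχ D).2.2.1 _ (irr_cmp σ hχ)).1 hσ.2
  have hb' := ((((H.ST F π hπ ℓ Γ j.range (D.map j)).1 _ h1 hdef).2 _ h2 hcor).2.2 γ hdat.np
    hγj).1 hb
  have hσ' : Fixes (RingHom.ker π) (D.subgroupOf (Subgroup.normalizer (D : Set G))) ψ
      (rs D σ hσ.1) := by
    refine ⟨fun x => ?_, ?_⟩
    · rw [Subgroup.mem_subgroupOf, Subgroup.mem_subgroupOf, rs_coe]
      exact hσ.1 _
    · rw [cj_extj hπ H hj'i hγj' hτ, ← h6] at hb'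
      exact ((H.KX F π hπ ℓ _ Γ _ hj'i ψ hψ
        (D.subgroupOf (Subgroup.normalizer (D : Set G)))).2.2.1 _ (irr_cmp _ hψ)).2 hb'
  refine ⟨hσ', ?_⟩
  rw [card_fix hπ H hj hγj hγ hχ hσ, card_fix hπ H hj'i hγj' hτ hψ hσ', h7, h6]
  refine H.IN F π hπ ℓ Γ (fun P => 𝓓 P) (from_type hπ H hiso hAM Γ) (orderOf σ) ?_ Q s
    j.range (D.map j) γ hdat ?_ _ h1 hdef _ h2 hcor hb
  · exact hc.imp id fun h P => h P
  · exact hiso D (D.map j) ⟨D.equivMapOfInjective j hj⟩ hD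

end

end Pool.Agent.H77.EA
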