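import Pool.Agent.H77.EA.Defs

/-!
# Equivariant Alperin–McKay (MP_657073_al): targets of the modules

Old targets `T_S1` … `T_K2` (namespace `AMc`): `Pool/Agent/H3/AM/Targets.lean`, `Targets2.lean`.
-/

open scoped Classical ComplexConjugate

namespace AMe

open AMc

/-! ## P. Group theory -/

/-- P0: elementary facts on `PI` -/
def T_P0 : Prop := ∀ (q : ℕ), q.Prime → ∀ (Γ : Type) [Group Γ] [Fintype Γ] (Q : Type)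
  [CommGroup Q] (s : Γ →* Q) (X K : Subgroup Γ) (t : Γ), PI q s X K t →
  K ≤ X ∧ (∀ u ∈ X, ∀ g ∈ K, u * g * u⁻¹ ∈ K) ∧ K.relIndex X = q ∧
  (∀ x ∈ X, ∃ c < q, ∃ k ∈ K, x = t ^ c * k) ∧ (∀ c : ℕ, t ^ c ∈ K ↔ q ∣ c) ∧
  (∀ P : Subgroup Γ, P ≤ K → t ∈ Subgroup.normalizer (P : Set Γ) →
    PI q s (X ⊓ Subgroup.normalizer (P : Set Γ)) (K ⊓ Subgroup.normalizer (P : Set Γ)) t)

/-- P1: the intermediate group `X = K⟨γ ^ (n / q)⟩` -/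
def T_P1 : Prop := ∀ (q : ℕ), q.Prime → ∀ (Γ : Type) [Group Γ] [Fintype Γ] (Q : Type)
  [CommGroup Q] [Finite Q] (s : Γ →* Q) (K P : Subgroup Γ) (γ : Γ) (n : ℕ), Dat s K P γ n →
  q ∣ n → ∃ X : Subgroup Γ, PI q s X K (γ ^ (n / q)) ∧ Nm γ X ∧
    Dat s (K ⊓ Subgroup.normalizer (P : Set Γ)) P γ n ∧
    Nm γ (X ⊓ Subgroup.normalizer (P : Set Γ)) ∧
    ∃ (Q₁ : Type) (_ : CommGroup Q₁) (_ : Finite Q₁) (s₁ : Γ →* Q₁),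
      (∀ E ≤ X, ∀ k ∈ X, k * γ ∈ Subgroup.normalizer (E : Set Γ) →
        Dat s₁ X E (k * γ) (n / q)) ∧
      (∀ E ≤ X ⊓ Subgroup.normalizer (P : Set Γ),
        ∀ k ∈ X ⊓ Subgroup.normalizer (P : Set Γ), k * γ ∈ Subgroup.normalizer (E : Set Γ) →
        Dat s₁ (X ⊓ Subgroup.normalizer (P : Set Γ)) E (k * γ) (n / q))

/-- P2: the elements `γ t ^ i`, `t = γ ^ (n / q)`: either the order modulo `K` drops, or `γ t ^ i`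
generates the same group as `γ` modulo `K` -/
def T_P2 : Prop := ∀ (q : ℕ), q.Prime → ∀ (Γ : Type) [Group Γ] [Fintype Γ] (Q : Type)
  [CommGroup Q] [Finite Q] (s : Γ →* Q) (K P : Subgroup Γ) (γ : Γ) (n : ℕ), Dat s K P γ n →
  q ∣ n → ∀ i : ℕ,
  (∃ m, m < n ∧ m ∣ n ∧ Dat s K P (γ * (γ ^ (n / q)) ^ i) m) ∨
  (∀ N : Subgroup Γ, (∀ c : ℕ, s γ ^ c = 1 → γ ^ c ∈ N) → ∀ θ ∈ IrrS N,
    (cj (γ * (γ ^ (n / q)) ^ i) θ = θ ↔ cj γ θ = θ))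

/-! ## C. Clifford theory for normal subgroups of prime index -/

/-- CL: invariant and non-invariant characters -/
def T_CL : Prop := ∀ (q : ℕ), q.Prime → ∀ (Γ : Type) [Group Γ] [Fintype Γ] (Q : Type)
  [CommGroup Q] (s : Γ →* Q) (X K : Subgroup Γ) (t : Γ), PI q s X K t →
  (∀ θ ∈ IrrS K, cj t θ = θ → (∀ x ∈ X, cj x θ = θ) ∧
    {χ | χ ∈ IrrS X ∧ Over χ θ}.ncard = q ∧
    ∀ χ ∈ IrrS X, Over χ θ → (∀ k ∈ K, χ k = θ k) ∧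
      ∀ θ' ∈ IrrS K, Over χ θ' → θ' = θ) ∧
  (∀ θ ∈ IrrS K, cj t θ ≠ θ → ∃ χ ∈ IrrS X, Over χ θ ∧ χ 1 = q * θ 1 ∧
    (∀ χ' ∈ IrrS X, Over χ' θ → χ' = χ) ∧
    ∀ c c' : ℕ, c < q → c' < q → cj (t ^ c) θ = cj (t ^ c') θ → c = c') ∧
  (∀ χ ∈ IrrS X, ∀ θ ∈ IrrS K, ∀ θ' ∈ IrrS K, Over χ θ → Over χ θ' →
    ∃ c < q, θ' = cj (t ^ c) θ) ∧
  (∀ χ ∈ IrrS X, ∀ θ : Γ → ℂ, Over χ θ → ∀ x ∈ X, Over χ (cj x θ))

/-- EX: extensions of a `γ`-invariant character to `K⟨γ ^ m⟩` are `γ`-invariant -/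
def T_EX : Prop := ∀ (q : ℕ), q.Prime → ∀ (Γ : Type) [Group Γ] [Fintype Γ] (Q : Type)
  [CommGroup Q] (s : Γ →* Q) (X K : Subgroup Γ) (γ : Γ) (m : ℕ), PI q s X K (γ ^ m) →
  Nm γ K → Nm γ X → ∀ χ ∈ IrrS X, ∀ θ ∈ IrrS K, (∀ k ∈ K, χ k = θ k) → cj γ θ = θ →
  cj γ χ = χ

/-- CT: the number of `γ`-invariant characters of `X` above `A` -/
def T_CT : Prop := ∀ (q : ℕ), q.Prime → ∀ (Γ : Type) [Group Γ] [Fintype Γ] (Q : Type)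
  [CommGroup Q] (s : Γ →* Q) (X K : Subgroup Γ) (γ : Γ) (m : ℕ), PI q s X K (γ ^ m) →
  Nm γ K → Nm γ X → ∀ A : Set (Γ → ℂ), (∀ θ ∈ A, θ ∈ IrrS K) →
  (∀ θ ∈ A, ∀ x ∈ X, cj x θ ∈ A) →
  q * {χ | χ ∈ Abv X A ∧ cj γ χ = χ}.ncard + q * {θ | θ ∈ A ∧ cj γ θ = θ}.ncard =
    ∑ i ∈ Finset.range q, {θ | θ ∈ A ∧ cj (γ * (γ ^ m) ^ i) θ = θ}.ncard +
      q ^ 2 * {θ | θ ∈ A ∧ cj γ θ = θ}.ncard

/-! ## B. Blocks. Standing data: `π` surjective onto a field of characteristic `ℓ`. -/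

/-- CV: characters below a block covering an invariant block -/
def T_CV : Prop := ∀ (F : Type) [Field F] (π : integralClosure ℤ ℂ →+* F),
  Function.Surjective π → ∀ (ℓ : ℕ) [Fact ℓ.Prime] [CharP F ℓ]
  (Γ : Type) [Group Γ] [Fintype Γ] (X K : Subgroup Γ), K ≤ X →
  (∀ u ∈ X, ∀ g ∈ K, u * g * u⁻¹ ∈ K) → ∀ θ ∈ IrrS K, ∀ θ' ∈ IrrS K, Sta π X K θ →
  (∀ z ∈ ZA F K X, lam π θ' z = lam π θ z) → Blk π K θ θ'

/-- UN: in index `ℓ` there is a unique block above -/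
def T_UN : Prop := ∀ (F : Type) [Field F] (π : integralClosure ℤ ℂ →+* F),
  Function.Surjective π → ∀ (ℓ : ℕ) [Fact ℓ.Prime] [CharP F ℓ]
  (Γ : Type) [Group Γ] [Fintype Γ] (Q : Type) [CommGroup Q] [Finite Q] (s : Γ →* Q)
  (X K : Subgroup Γ) (t : Γ), PI ℓ s X K t → ∀ χ ∈ IrrS X, ∀ χ' ∈ IrrS X,
  (∀ z ∈ ZA F K X, lam π χ' z = lam π χ z) → Blk π X χ χ'

/-- DG: if `γ` fixes the block then an element of `N γ` normalises the defect group -/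
def T_DG : Prop := ∀ (F : Type) [Field F] (π : integralClosure ℤ ℂ →+* F),
  Function.Surjective π → ∀ (ℓ : ℕ) [Fact ℓ.Prime] [CharP F ℓ]
  (Γ : Type) [Group Γ] [Fintype Γ] (N D : Subgroup Γ) (γ : Γ), Nm γ N → ∀ χ ∈ IrrS N,
  DefH ℓ N (lam π χ) D → Blk π N χ (cj γ χ) → ∃ u ∈ N, u * γ ∈ Subgroup.normalizer (D : Set Γ)

/-- ST: existence, uniqueness and equivariance of the Brauer correspondent -/
def T_ST : Prop := ∀ (F : Type) [Field F] (π : integralClosure ℤ ℂ →+* F),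
  Function.Surjective π → ∀ (ℓ : ℕ) [Fact ℓ.Prime] [CharP F ℓ]
  (Γ : Type) [Group Γ] [Fintype Γ] (N P : Subgroup Γ),
  (∀ χ ∈ IrrS N, DefH ℓ N (lam π χ) P →
    (∃ ψ ∈ IrrS (N ⊓ Subgroup.normalizer (P : Set Γ)), Cor π N P χ ψ) ∧
    ∀ ψ ∈ IrrS (N ⊓ Subgroup.normalizer (P : Set Γ)), Cor π N P χ ψ →
      DefH ℓ (N ⊓ Subgroup.normalizer (P : Set Γ)) (lam π ψ) P ∧
      (∀ ψ' ∈ IrrS (N ⊓ Subgroup.normalizer (P : Set Γ)),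
        (Cor π N P χ ψ' ↔ Blk π (N ⊓ Subgroup.normalizer (P : Set Γ)) ψ ψ')) ∧
      ∀ u ∈ Subgroup.normalizer (P : Set Γ), Nm u N →
        (Blk π N χ (cj u χ) ↔ Blk π (N ⊓ Subgroup.normalizer (P : Set Γ)) ψ (cj u ψ))) ∧
  (IsPGroup ℓ P → P ≤ N → ∀ ψ ∈ IrrS (N ⊓ Subgroup.normalizer (P : Set Γ)),
    ∃ χ ∈ IrrS N, Cor π N P χ ψ)

/-- TC: transitivity -/
def T_TC : Prop := ∀ (F : Type) [Field F] (π : integralClosure ℤ ℂ →+* F),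
  Function.Surjective π → ∀ (ℓ : ℕ) [Fact ℓ.Prime] [CharP F ℓ]
  (Γ : Type) [Group Γ] [Fintype Γ] (X P E : Subgroup Γ), P ≤ E → IsPGroup ℓ E →
  X ⊓ Subgroup.normalizer (E : Set Γ) ≤ Subgroup.normalizer (P : Set Γ) →
  ∀ χ ∈ IrrS X, ∀ ξ ∈ IrrS (X ⊓ Subgroup.normalizer (P : Set Γ)), Cor π X P χ ξ →
  DefH ℓ (X ⊓ Subgroup.normalizer (P : Set Γ)) (lam π ξ) E →
  ∀ β ∈ IrrS (X ⊓ Subgroup.normalizer (P : Set Γ) ⊓ Subgroup.normalizer (E : Set Γ)),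
  Cor π (X ⊓ Subgroup.normalizer (P : Set Γ)) E ξ β →
  X ⊓ Subgroup.normalizer (P : Set Γ) ⊓ Subgroup.normalizer (E : Set Γ) =
    X ⊓ Subgroup.normalizer (E : Set Γ) ∧ Cor π X E χ β ∧ DefH ℓ X (lam π χ) E

/-- SP: the central character above an invariant block -/
def T_SP : Prop := ∀ (F : Type) [Field F] (π : integralClosure ℤ ℂ →+* F),
  Function.Surjective π → ∀ (ℓ : ℕ) [Fact ℓ.Prime] [CharP F ℓ]
  (q : ℕ), q.Prime → ∀ (Γ : Type) [Group Γ] [Fintype Γ] (Q : Type) [CommGroup Q]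
  (s : Γ →* Q) (X K : Subgroup Γ) (t : Γ), PI q s X K t → ∀ χ ∈ IrrS X, ∀ θ ∈ IrrS K,
  Over χ θ → Sta π X K θ → ∀ y ∈ K,
  lam π χ (csum F (cls X y)) =
    (if Subgroup.centralizer {y} ⊓ X ≤ K then (q : F) else 1) * lam π θ (csum F (cls K y))

/-- DX: defect groups of the blocks above an invariant block -/
def T_DX : Prop := ∀ (F : Type) [Field F] (π : integralClosure ℤ ℂ →+* F),
  Function.Surjective π → ∀ (ℓ : ℕ) [Fact ℓ.Prime] [CharP F ℓ]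
  (q : ℕ), q.Prime → ∀ (Γ : Type) [Group Γ] [Fintype Γ] (Q : Type) [CommGroup Q] [Finite Q]
  (s : Γ →* Q) (X K : Subgroup Γ) (t : Γ), PI q s X K t → ∀ χ ∈ IrrS X, ∀ θ ∈ IrrS K,
  Over χ θ → Sta π X K θ → ∀ P : Subgroup Γ, DefH ℓ K (lam π θ) P →
  (q ≠ ℓ → DefH ℓ X (lam π χ) P) ∧
  (q = ℓ → ∃ E : Subgroup Γ, DefH ℓ X (lam π χ) E ∧ E ⊓ K = P ∧ P.relIndex E = ℓ)

/-- HT: heights are nonnegative, in terms of a defect group -/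
def T_HT : Prop := ∀ (F : Type) [Field F] (π : integralClosure ℤ ℂ →+* F),
  Function.Surjective π → ∀ (ℓ : ℕ) [Fact ℓ.Prime] [CharP F ℓ]
  (Γ : Type) [Group Γ] [Fintype Γ] (N D : Subgroup Γ), ∀ θ ∈ IrrS N, DefH ℓ N (lam π θ) D →
  ∀ θ' ∈ IrrS N, Blk π N θ θ' → ∀ d : ℕ, θ' 1 = d →
  padicValNat ℓ (D.relIndex N) ≤ padicValNat ℓ d

/-- CN: index `ℓ`: the number of `γ`-invariant characters of height zero -/
def T_CN : Prop := ∀ (F : Type) [Field F] (π : integralClosure ℤ ℂ →+* F),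
  Function.Surjective π → ∀ (ℓ : ℕ) [Fact ℓ.Prime] [CharP F ℓ]
  (Γ : Type) [Group Γ] [Fintype Γ] (Q : Type) [CommGroup Q] [Finite Q]
  (s : Γ →* Q) (X K : Subgroup Γ) (γ : Γ) (m : ℕ), PI ℓ s X K (γ ^ m) → Nm γ K → Nm γ X →
  ∀ χ ∈ IrrS X, ∀ θ ∈ IrrS K, Over χ θ → Sta π X K θ →
  ∀ P E : Subgroup Γ, DefH ℓ K (lam π θ) P → E ≤ X → E ⊓ K = P → P.relIndex E = ℓ →
  (K0F π ℓ X χ E γ).ncard = ℓ * (K0F π ℓ K θ P γ).ncard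

/-- CB: index `q ≠ ℓ`: characters of height zero above an invariant block -/
def T_CB : Prop := ∀ (F : Type) [Field F] (π : integralClosure ℤ ℂ →+* F),
  Function.Surjective π → ∀ (ℓ : ℕ) [Fact ℓ.Prime] [CharP F ℓ]
  (q : ℕ), q.Prime → q ≠ ℓ → ∀ (Γ : Type) [Group Γ] [Fintype Γ] (Q : Type) [CommGroup Q]
  [Finite Q] (s : Γ →* Q) (X K : Subgroup Γ) (t : Γ), PI q s X K t →
  ∀ P : Subgroup Γ, ∀ θ ∈ IrrS K, DefH ℓ K (lam π θ) P → Sta π X K θ →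
  (∀ x ∈ X, ∀ θ' ∈ K0H π ℓ K θ P, cj x θ' ∈ K0H π ℓ K θ P) ∧
  ∀ χ ∈ IrrS X, ∀ θ₁ ∈ IrrS K, Over χ θ₁ → Blk π K θ θ₁ →
    DefH ℓ X (lam π χ) P ∧
    ∀ χ' : Γ → ℂ, χ' ∈ K0H π ℓ X χ P ↔ χ' ∈ Abv X (K0H π ℓ K θ P) ∧ Blk π X χ χ'

/-- UD: Brauer correspondence and covering of blocks -/
def T_UD : Prop := ∀ (F : Type) [Field F] (π : integralClosure ℤ ℂ →+* F),
  Function.Surjective π → ∀ (ℓ : ℕ) [Fact ℓ.Prime] [CharP F ℓ]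
  (Γ : Type) [Group Γ] [Fintype Γ] (X K P : Subgroup Γ), K ≤ X →
  (∀ u ∈ X, ∀ g ∈ K, u * g * u⁻¹ ∈ K) → ∀ θ ∈ IrrS K, DefH ℓ K (lam π θ) P → Sta π X K θ →
  ∀ ψ ∈ IrrS (K ⊓ Subgroup.normalizer (P : Set Γ)), Cor π K P θ ψ →
  Sta π (X ⊓ Subgroup.normalizer (P : Set Γ)) (K ⊓ Subgroup.normalizer (P : Set Γ)) ψ ∧
  (∀ χ ∈ IrrS X, ∀ ξ ∈ IrrS (X ⊓ Subgroup.normalizer (P : Set Γ)), Cor π X P χ ξ →
    ((∃ θ₁ ∈ IrrS K, Over χ θ₁ ∧ Blk π K θ θ₁) ↔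
      ∃ ψ₁ ∈ IrrS (K ⊓ Subgroup.normalizer (P : Set Γ)), Over ξ ψ₁ ∧
        Blk π (K ⊓ Subgroup.normalizer (P : Set Γ)) ψ ψ₁))

/-- MC: index `q ≠ ℓ`: comparison of the numbers of `γ`-invariant characters above -/
def T_MC : Prop := ∀ (F : Type) [Field F] (π : integralClosure ℤ ℂ →+* F),
  Function.Surjective π → ∀ (ℓ : ℕ) [Fact ℓ.Prime] [CharP F ℓ]
  (q : ℕ), q.Prime → q ≠ ℓ → ∀ (Γ : Type) [Group Γ] [Fintype Γ] (Q : Type) [CommGroup Q]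
  [Finite Q] (s : Γ →* Q) (X K P : Subgroup Γ) (t γ : Γ), PI q s X K t → P ≤ K →
  t ∈ Subgroup.normalizer (P : Set Γ) → Nm γ X → γ ∈ Subgroup.normalizer (P : Set Γ) →
  ∀ θ ∈ IrrS K, DefH ℓ K (lam π θ) P → Sta π X K θ →
  ∀ ψ ∈ IrrS (K ⊓ Subgroup.normalizer (P : Set Γ)), Cor π K P θ ψ →
  (∀ χ ∈ IrrS X, DefH ℓ X (lam π χ) P → ∀ ξ ∈ IrrS (X ⊓ Subgroup.normalizer (P : Set Γ)),
    Cor π X P χ ξ → Blk π X χ (cj γ χ) →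
    (K0F π ℓ X χ P γ).ncard =
      (K0F π ℓ (X ⊓ Subgroup.normalizer (P : Set Γ)) ξ P γ).ncard) →
  {χ | χ ∈ Abv X (K0H π ℓ K θ P) ∧ cj γ χ = χ}.ncard =
    {ξ | ξ ∈ Abv (X ⊓ Subgroup.normalizer (P : Set Γ))
      (K0H π ℓ (K ⊓ Subgroup.normalizer (P : Set Γ)) ψ P) ∧ cj γ ξ = ξ}.ncard

/-! ## I. The induction -/

/-- IN: equivariance from the numerical equality -/
def T_IN : Prop := ∀ (F : Type) [Field F] (π : integralClosure ℤ ℂ →+* F),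
  Function.Surjective π → ∀ (ℓ : ℕ) [Fact ℓ.Prime] [CharP F ℓ]
  (Γ : Type) [Group Γ] [Fintype Γ] (𝓟 : Subgroup Γ → Prop), AMa (Γ := Γ) π ℓ 𝓟 →
  ∀ n : ℕ, (¬ ℓ ∣ n ∨ ∀ P, 𝓟 P) → Eqv (Γ := Γ) π ℓ 𝓟 n

/-! ## X. Transport -/

/-- TR: the ambient group of an automorphism -/
def T_TR : Prop := ∀ (G : Type) [Group G] [Fintype G] (σ : MulAut G),
  ∃ (Γ : Type) (_ : Group Γ) (_ : Fintype Γ) (Q : Type) (_ : CommGroup Q) (_ : Finite Q)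
    (j : G →* Γ) (s : Γ →* Q) (γ : Γ), Function.Injective j ∧
    (∀ g, γ * j g * γ⁻¹ = j (σ g)) ∧
    ∀ D : Subgroup G, (∀ g, σ g ∈ D ↔ g ∈ D) → Dat s j.range (D.map j) γ (orderOf σ)

/-- KX: the sets of the statement in the ambient group -/
def T_KX : Prop := ∀ (F : Type) [Field F] (π : integralClosure ℤ ℂ →+* F),
  Function.Surjective π → ∀ (ℓ : ℕ) [Fact ℓ.Prime] [CharP F ℓ] (N Γ : Type) [Group N]
  [Fintype N] [Group Γ] [Fintype Γ] (j : N →* Γ), Function.Injective j →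
  ∀ χ ∈ Irr N, ∀ (D : Subgroup N),
  (∀ χ' : N → ℂ, χ' ∈ Irr0 ℓ (RingHom.ker π) χ D ↔
    extj j χ' ∈ K0H π ℓ j.range (extj j χ) (D.map j)) ∧
  (∀ θ ∈ K0H π ℓ j.range (extj j χ) (D.map j), ∃ χ' : N → ℂ, extj j χ' = θ) ∧
  (∀ χ' ∈ Irr N, (SameBlock (RingHom.ker π) χ χ' ↔ Blk π j.range (extj j χ) (extj j χ'))) ∧
  ∀ γ : Γ, Nm γ j.range → ∀ χ' : N → ℂ,
    (cj γ (extj j χ') = extj j χ' ↔ ∀ x y : N, j y = γ * j x * γ⁻¹ → χ' y = χ' x)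

/-- CY: permutations whose powers have the same numbers of fixed points -/
def T_CY : Prop := ∀ (A B : Type) [Finite A] [Finite B] (α : Equiv.Perm A) (β : Equiv.Perm B),
  (∀ k : ℕ, {a | (α ^ k) a = a}.ncard = {b | (β ^ k) b = b}.ncard) →
  ∃ f : A ≃ B, ∀ a, f (α a) = β (f a)

/-- OB: actions of a finite group with the same numbers of fixed points have the same number of
orbits -/
def T_OB : Prop := ∀ (H A B : Type) [Group H] [Finite H] [Finite A] [Finite B]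
  (α : H →* Equiv.Perm A) (β : H →* Equiv.Perm B),
  (∀ h, {a | α h a = a}.ncard = {b | β h b = b}.ncard) →
  Nat.card (Quot (fun a a' : A => ∃ h, α h a = a')) =
    Nat.card (Quot (fun b b' : B => ∃ h, β h b = b'))

end AMe
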