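import Pool.Agent.H77.EA.Targets
import Pool.Agent.H65.EA.K1

/-!
# Equivariant Alperin–McKay (MP_657073_al): automorphisms acting on the characters of height zero
-/

open scoped Classical

set_option linter.unusedSectionVars false

namespace Pool.Agent.H77.EA

open AMc AMe

section

variable {𝔪 : Ideal (integralClosure ℤ ℂ)}

theorem cong_refl (a : ℂ) : Cong 𝔪 a a := ⟨0, 𝔪.zero_mem, by simp⟩

theorem cong_symm {a b : ℂ} (h : Cong 𝔪 a b) : Cong 𝔪 b a := by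
  obtain ⟨c, hc, h1⟩ := h
  exact ⟨-c, 𝔪.neg_mem hc, by push_cast; rw [h1]; ring⟩

theorem cong_trans {a b c : ℂ} (h : Cong 𝔪 a b) (h' : Cong 𝔪 b c) : Cong 𝔪 a c := by
  obtain ⟨x, hx, h1⟩ := h
  obtain ⟨y, hy, h2⟩ := h'
  exact ⟨x + y, 𝔪.add_mem hx hy, by push_cast; rw [h1, h2]; ring⟩

variable {N : Type} [Group N] [Fintype N]

theorem same_refl (χ : N → ℂ) : SameBlock 𝔪 χ χ := fun _ => cong_refl _

theorem same_symm {χ χ' : N → ℂ} (h : SameBlock 𝔪 χ χ') : SameBlock 𝔪 χ' χ :=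
  fun x => cong_symm (h x)

theorem same_trans {χ χ' χ'' : N → ℂ} (h : SameBlock 𝔪 χ χ') (h' : SameBlock 𝔪 χ' χ'') :
    SameBlock 𝔪 χ χ'' := fun x => cong_trans (h x) (h' x)

/-- composition with an automorphism -/
def cmp (τ : MulAut N) (χ : N → ℂ) : N → ℂ := fun g => χ (τ g)

theorem cmp_cmp (τ τ' : MulAut N) (χ : N → ℂ) : cmp τ (cmp τ' χ) = cmp (τ' * τ) χ := rfl

theorem cmp_one (χ : N → ℂ) : cmp 1 χ = χ := rfl

theorem cen_cmp (τ : MulAut N) (χ : N → ℂ) (x : N) :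
    cen (MonoidHom.id N) (cmp τ χ) x = cen (MonoidHom.id N) χ (τ x) := by
  unfold cen cmp
  rw [map_one]
  congr 1
  refine Fintype.sum_equiv τ.toEquiv _ _ fun y => ?_
  have h1 : IsConj x (MonoidHom.id N y) ↔ IsConj (τ x) (MonoidHom.id N (τ.toEquiv y)) := by
    simp only [MonoidHom.id_apply]
    constructor
    · intro h
      obtain ⟨c, hc⟩ := isConj_iff.1 h
      exact isConj_iff.2 ⟨τ c, by rw [← hc]; simp⟩
    · intro h
      obtain ⟨c, hc⟩ := isConj_iff.1 h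
      refine isConj_iff.2 ⟨τ⁻¹ c, ?_⟩
      have h2 := congrArg (τ⁻¹ : MulAut N) hc
      simpa using h2
  by_cases h : IsConj x (MonoidHom.id N y)
  · rw [if_pos h, if_pos (h1.1 h)]
    rfl
  · rw [if_neg h, if_neg (fun h2 => h (h1.2 h2))]

theorem same_cmp (τ : MulAut N) {χ χ' : N → ℂ} (h : SameBlock 𝔪 χ χ') :
    SameBlock 𝔪 (cmp τ χ) (cmp τ χ') := by
  intro x
  rw [cen_cmp, cen_cmp]
  exact h (τ x)

theorem irr_cmp (τ : MulAut N) {χ : N → ℂ} (h : χ ∈ Irr N) : cmp τ χ ∈ Irr N :=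
  Pool.Agent.H65.EA.irr_equiv (MulEquiv.symm τ) h

theorem fixes_mul {D : Subgroup N} {χ : N → ℂ} {σ τ : MulAut N} (h : Fixes 𝔪 D χ σ)
    (h' : Fixes 𝔪 D χ τ) : Fixes 𝔪 D χ (σ * τ) := by
  refine ⟨fun g => ?_, ?_⟩
  · rw [MulAut.mul_apply, h.1, h'.1]
  · exact same_trans h'.2 (same_cmp τ h.2)

theorem fixes_one (D : Subgroup N) (χ : N → ℂ) : Fixes 𝔪 D χ 1 :=
  ⟨fun _ => Iff.rfl, same_refl χ⟩

theorem fixes_pow {D : Subgroup N} {χ : N → ℂ} {σ : MulAut N} (h : Fixes 𝔪 D χ σ) (k : ℕ) :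
    Fixes 𝔪 D χ (σ ^ k) := by
  induction k with
  | zero => rw [pow_zero]; exact fixes_one D χ
  | succ k ih => rw [pow_succ]; exact fixes_mul ih h

theorem fixes_inv {D : Subgroup N} {χ : N → ℂ} {σ : MulAut N} (h : Fixes 𝔪 D χ σ) :
    Fixes 𝔪 D χ σ⁻¹ := by
  refine ⟨fun g => ?_, ?_⟩
  · have := h.1 (σ⁻¹ g)
    rw [MulAut.apply_inv_self] at this
    exact this.symm
  · have := same_symm (same_cmp (𝔪 := 𝔪) σ⁻¹ h.2)
    have h2 : cmp σ⁻¹ (fun g => χ (σ g)) = χ := by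
      funext g
      show χ (σ (σ⁻¹ g)) = χ g
      rw [MulAut.apply_inv_self]
    rw [h2] at this
    exact this

theorem irr0_cmp {ℓ : ℕ} {D : Subgroup N} {χ : N → ℂ} {σ : MulAut N} (h : Fixes 𝔪 D χ σ)
    {a : N → ℂ} (ha : a ∈ Irr0 ℓ 𝔪 χ D) : cmp σ a ∈ Irr0 ℓ 𝔪 χ D := by
  obtain ⟨h1, h2, d, h3, h4⟩ := ha
  refine ⟨irr_cmp σ h1, same_trans h.2 (same_cmp σ h2), d, ?_, h4⟩
  show a (σ 1) = d
  rw [map_one]
  exact h3

/-- the permutation `a ↦ a ∘ σ` of the characters of height zero -/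
noncomputable def act {ℓ : ℕ} {D : Subgroup N} {χ : N → ℂ} (σ : MulAut N) (h : Fixes 𝔪 D χ σ) :
    Equiv.Perm (Irr0 ℓ 𝔪 χ D) where
  toFun a := ⟨cmp σ a, irr0_cmp h a.2⟩
  invFun a := ⟨cmp σ⁻¹ a, irr0_cmp (fixes_inv h) a.2⟩
  left_inv a := by
    apply Subtype.ext
    funext g
    show (a : N → ℂ) (σ (σ⁻¹ g)) = a.1 g
    rw [MulAut.apply_inv_self]
  right_inv a := by
    apply Subtype.ext
    funext g
    show (a : N → ℂ) (σ⁻¹ (σ g)) = a.1 g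
    rw [MulAut.inv_apply_self]

theorem act_apply {ℓ : ℕ} {D : Subgroup N} {χ : N → ℂ} (σ : MulAut N) (h : Fixes 𝔪 D χ σ)
    (a : Irr0 ℓ 𝔪 χ D) (g : N) : ((act σ h a : Irr0 ℓ 𝔪 χ D) : N → ℂ) g = a.1 (σ g) := rfl

theorem act_pow {ℓ : ℕ} {D : Subgroup N} {χ : N → ℂ} (σ : MulAut N) (h : Fixes 𝔪 D χ σ)
    (k : ℕ) (a : Irr0 ℓ 𝔪 χ D) (g : N) :
    (((act σ h ^ k) a : Irr0 ℓ 𝔪 χ D) : N → ℂ) g = a.1 ((σ ^ k) g) := by
  induction k generalizing g with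
  | zero => rfl
  | succ k ih =>
    rw [pow_succ', Equiv.Perm.mul_apply, act_apply, ih, ← MulAut.mul_apply, ← pow_succ]

/-- the action of a group of automorphisms -/
noncomputable def actHom {ℓ : ℕ} {D : Subgroup N} {χ : N → ℂ} (A : Type) [Group A]
    (i : A →* MulAut N) (h : ∀ σ : A, Fixes 𝔪 D χ (i σ)) :
    A →* Equiv.Perm (Irr0 ℓ 𝔪 χ D) where
  toFun σ := act (i σ⁻¹) (h σ⁻¹)
  map_one' := by
    ext a g
    rw [act_apply, inv_one, map_one]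
    rfl
  map_mul' σ τ := by
    ext a g
    rw [act_apply, Equiv.Perm.mul_apply, act_apply, act_apply, ← MulAut.mul_apply, ← map_mul,
      mul_inv_rev]

theorem actHom_apply {ℓ : ℕ} {D : Subgroup N} {χ : N → ℂ} (A : Type) [Group A]
    (i : A →* MulAut N) (h : ∀ σ : A, Fixes 𝔪 D χ (i σ)) (σ : A) (a : Irr0 ℓ 𝔪 χ D) (g : N) :
    ((actHom A i h σ a : Irr0 ℓ 𝔪 χ D) : N → ℂ) g = a.1 (i σ⁻¹ g) := rfl

end

/-! ## Restriction of an automorphism to the normaliser -/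

section

variable {G : Type} [Group G]

theorem map_normalizer {D : Subgroup G} {σ : MulAut G} (h : ∀ g, σ g ∈ D ↔ g ∈ D) {x : G}
    (hx : x ∈ Subgroup.normalizer (D : Set G)) : σ x ∈ Subgroup.normalizer (D : Set G) := by
  rw [Subgroup.mem_normalizer_iff] at hx ⊢
  intro g
  have h1 : g = σ (σ⁻¹ g) := (MulAut.apply_inv_self G σ g).symm
  rw [h1, ← map_inv, ← map_mul, ← map_mul]
  show σ (σ⁻¹ g) ∈ D ↔ σ (x * σ⁻¹ g * x⁻¹) ∈ D
  rw [h, h]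
  exact hx _

theorem inv_mem_iff {D : Subgroup G} {σ : MulAut G} (h : ∀ g, σ g ∈ D ↔ g ∈ D) :
    ∀ g, σ⁻¹ g ∈ D ↔ g ∈ D := by
  intro g
  have := h (σ⁻¹ g)
  rw [MulAut.apply_inv_self] at this
  exact this.symm

/-- the restriction of `σ` to the normaliser of `D` -/
def rs (D : Subgroup G) (σ : MulAut G) (h : ∀ g, σ g ∈ D ↔ g ∈ D) :
    MulAut (Subgroup.normalizer (D : Set G)) where
  toFun x := ⟨σ x, map_normalizer h x.2⟩
  invFun x := ⟨σ⁻¹ x, map_normalizer (inv_mem_iff h) x.2⟩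
  left_inv x := Subtype.ext (MulAut.inv_apply_self G σ x)
  right_inv x := Subtype.ext (MulAut.apply_inv_self G σ x)
  map_mul' _ _ := Subtype.ext (map_mul σ _ _)

theorem rs_coe (D : Subgroup G) (σ : MulAut G) (h : ∀ g, σ g ∈ D ↔ g ∈ D)
    (x : Subgroup.normalizer (D : Set G)) : ((rs D σ h x : _) : G) = σ x := rfl

end

end Pool.Agent.H77.EA
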