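import Pool.Agent.H3.AM.Targets2

/-!
# Equivariant Alperin–McKay (MP_657073_al): definitions

Everything is built on helper3's library `AMc` (`Pool/Agent/H3/AM`): all groups are subgroups of an
ambient finite group `Γ`, characters of a subgroup `N` are functions on `Γ` vanishing off `N`
(`IrrS N`), `cj u θ g = θ (u g u⁻¹)`, `lam π θ : F[Γ] → F` is the modular central character,
`ZA F N U` the `U`-invariant elements supported on `N`, `br P` the Brauer map.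
-/

open scoped Classical ComplexConjugate

namespace AMe

open AMc

/-! ## Statement-level definitions (these go into the hand-in) -/

/-- the irreducible characters of height zero in the `ℓ`-block of `χ` with defect group `D` -/
def Irr0 {G : Type} [Group G] [Fintype G] (ℓ : ℕ) (𝔪 : Ideal (integralClosure ℤ ℂ))
    (χ : G → ℂ) (D : Subgroup G) : Set (G → ℂ) :=
  {χ' | χ' ∈ Irr G ∧ SameBlock 𝔪 χ χ' ∧
    ∃ d : ℕ, χ' 1 = d ∧ padicValNat ℓ d = padicValNat ℓ D.index}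

/-- the `ℓ`-blocks of `χ` (a character of `G`) and of `ψ` (a character of the normaliser of `D`)
have defect group `D` and are Brauer correspondents -/
def Brauer {G : Type} [Group G] [Fintype G] (ℓ : ℕ) (𝔪 : Ideal (integralClosure ℤ ℂ))
    (D : Subgroup G) (χ : G → ℂ) (ψ : Subgroup.normalizer (D : Set G) → ℂ) : Prop :=
  χ ∈ Irr G ∧ ψ ∈ Irr (Subgroup.normalizer (D : Set G)) ∧ IsDefect ℓ 𝔪 χ D ∧
    IsDefect ℓ 𝔪 ψ (D.subgroupOf (Subgroup.normalizer (D : Set G))) ∧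
    Corr 𝔪 (Subgroup.normalizer (D : Set G)).subtype χ ψ

/-- the automorphism `σ` fixes `D` and the block of `χ` -/
def Fixes {G : Type} [Group G] [Fintype G] (𝔪 : Ideal (integralClosure ℤ ℂ)) (D : Subgroup G)
    (χ : G → ℂ) (σ : MulAut G) : Prop :=
  (∀ g, σ g ∈ D ↔ g ∈ D) ∧ SameBlock 𝔪 χ (fun g => χ (σ g))

/-! ## Ambient definitions -/

section

variable {Γ : Type} [Group Γ]

/-- `γ` normalises `N` -/
def Nm (γ : Γ) (N : Subgroup Γ) : Prop := ∀ g, γ * g * γ⁻¹ ∈ N ↔ g ∈ N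

/-- `t` generates `X` modulo `K = X ∩ ker s`, and `X / K` has order `q` -/
structure PI (q : ℕ) {Q : Type} [CommGroup Q] (s : Γ →* Q) (X K : Subgroup Γ) (t : Γ) :
    Prop where
  eq : K = X ⊓ s.ker
  mem : t ∈ X
  gen : ∀ x ∈ X, ∃ c : ℕ, s x = s t ^ c
  ord : orderOf (s t) = q

/-- `γ` normalises `K` and `P ≤ K`, and `n` is the order of `γ` modulo `K` -/
structure Dat {Q : Type} [CommGroup Q] (s : Γ →* Q) (K P : Subgroup Γ) (γ : Γ) (n : ℕ) :
    Prop where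
  nm : Nm γ K
  ker : K ≤ s.ker
  pow : ∀ c : ℕ, s γ ^ c = 1 → γ ^ c ∈ K
  ord : orderOf (s γ) = n
  le : P ≤ K
  np : γ ∈ Subgroup.normalizer (P : Set Γ)

variable [Fintype Γ] {F : Type} [Field F] (π : integralClosure ℤ ℂ →+* F)

/-- `θ` and `θ'` lie in the same block of `K` -/
def Blk (K : Subgroup Γ) (θ θ' : Γ → ℂ) : Prop := ∀ z ∈ ZA F K K, lam π θ' z = lam π θ z

/-- the block of `θ` (a character of `K`) is invariant under the conjugations by elements of `X` -/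
def Sta (X K : Subgroup Γ) (θ : Γ → ℂ) : Prop := ∀ x ∈ X, Blk π K θ (cj x θ)

/-- Brauer correspondence between characters `χ` of `N` and `ψ` of `N ∩ N(P)` -/
def Cor (N P : Subgroup Γ) (χ ψ : Γ → ℂ) : Prop := ∀ z ∈ ZA F N N, lam π χ z = lam π ψ (br P z)

/-- `γ`-invariant characters of height zero in the block of `χ` -/
def K0F (ℓ : ℕ) (N : Subgroup Γ) (χ : Γ → ℂ) (D : Subgroup Γ) (γ : Γ) : Set (Γ → ℂ) :=
  {χ' | χ' ∈ K0H π ℓ N χ D ∧ cj γ χ' = χ'}

/-- the characters of `X` above a set `A` of characters of a subgroup -/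
def Abv (X : Subgroup Γ) (A : Set (Γ → ℂ)) : Set (Γ → ℂ) := {χ | χ ∈ IrrS X ∧ ∃ θ ∈ A, Over χ θ}

/-- the equality of Alperin–McKay for all subgroups of `Γ` and the defect groups in `𝓟` -/
def AMa (ℓ : ℕ) (𝓟 : Subgroup Γ → Prop) : Prop := ∀ N P : Subgroup Γ, 𝓟 P → P ≤ N →
  ∀ χ ∈ IrrS N, DefH ℓ N (lam π χ) P → ∀ ψ ∈ IrrS (N ⊓ Subgroup.normalizer (P : Set Γ)),
  Cor π N P χ ψ →
  (K0H π ℓ N χ P).ncard = (K0H π ℓ (N ⊓ Subgroup.normalizer (P : Set Γ)) ψ P).ncard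

/-- the equality of the numbers of `γ`-invariant characters of height zero -/
def Eqv (ℓ : ℕ) (𝓟 : Subgroup Γ → Prop) (n : ℕ) : Prop :=
  ∀ (Q : Type) [CommGroup Q] [Finite Q] (s : Γ →* Q) (K P : Subgroup Γ) (γ : Γ),
  Dat s K P γ n → 𝓟 P → ∀ χ ∈ IrrS K, DefH ℓ K (lam π χ) P →
  ∀ ψ ∈ IrrS (K ⊓ Subgroup.normalizer (P : Set Γ)), Cor π K P χ ψ → Blk π K χ (cj γ χ) →
  (K0F π ℓ K χ P γ).ncard = (K0F π ℓ (K ⊓ Subgroup.normalizer (P : Set Γ)) ψ P γ).ncard

end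

end AMe
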