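import Pool.Agent.H77.EA.Defs

/-!
# Equivariant Alperin–McKay (MP_657073_al): the two equivariant statements
-/

open scoped Classical

namespace AMe

open AMc

/-- there is a bijection `f` between the characters of height zero of the block of `χ` and of the
block of `ψ` which commutes with the automorphism `σ`: `f (a ∘ σ) = f (a) ∘ σ` -/
def EquivBij {G : Type} [Group G] [Fintype G] (ℓ : ℕ) (𝔪 : Ideal (integralClosure ℤ ℂ))
    (D : Subgroup G) (χ : G → ℂ) (ψ : Subgroup.normalizer (D : Set G) → ℂ) (σ : MulAut G) : Prop :=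
  ∃ f : Irr0 ℓ 𝔪 χ D ≃ Irr0 ℓ 𝔪 ψ (D.subgroupOf (Subgroup.normalizer (D : Set G))),
    ∀ a b : Irr0 ℓ 𝔪 χ D, (∀ g, (b : G → ℂ) g = (a : G → ℂ) (σ g)) →
      ∀ x y : Subgroup.normalizer (D : Set G), (y : G) = σ x →
        (f b : Subgroup.normalizer (D : Set G) → ℂ) x =
          (f a : Subgroup.normalizer (D : Set G) → ℂ) y

/-- the group `A` of automorphisms of `G` has the same number of orbits on the characters of
height zero of the block of `χ` and of the block of `ψ` -/
def SameOrbits {G : Type} [Group G] [Fintype G] (ℓ : ℕ) (𝔪 : Ideal (integralClosure ℤ ℂ))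
    (D : Subgroup G) (χ : G → ℂ) (ψ : Subgroup.normalizer (D : Set G) → ℂ)
    (A : Subgroup (MulAut G)) : Prop :=
  Nat.card (Quot (fun a b : Irr0 ℓ 𝔪 χ D =>
      ∃ σ ∈ A, ∀ g, (b : G → ℂ) g = (a : G → ℂ) (σ g))) =
    Nat.card (Quot (fun a b : Irr0 ℓ 𝔪 ψ (D.subgroupOf (Subgroup.normalizer (D : Set G))) =>
      ∃ σ ∈ A, ∀ x y : Subgroup.normalizer (D : Set G), (y : G) = σ x →
        (b : Subgroup.normalizer (D : Set G) → ℂ) x =
          (a : Subgroup.normalizer (D : Set G) → ℂ) y))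

end AMe
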