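import Pool.Agent.H77.EA.Fin
import Pool.Agent.H77.EA.Stat

/-!
# Equivariant Alperin–McKay (MP_657073_al): the main theorem from the modules
-/

open scoped Classical

set_option linter.unusedSectionVars false

namespace Pool.Agent.H77.EA

open AMc AMe

theorem rs_pow {G : Type} [Group G] (D : Subgroup G) (σ : MulAut G)
    (h : ∀ g, σ g ∈ D ↔ g ∈ D) (k : ℕ) (h' : ∀ g, (σ ^ k) g ∈ D ↔ g ∈ D)
    (x : Subgroup.normalizer (D : Set G)) : (rs D σ h ^ k) x = rs D (σ ^ k) h' x := by
  apply Subtype.ext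
  rw [rs_coe]
  clear h'
  induction k generalizing x with
  | zero => rfl
  | succ k ih =>
    rw [pow_succ, MulAut.mul_apply, ih, rs_coe, pow_succ, MulAut.mul_apply]

/-- the restrictions as a homomorphism -/
def rsHom {G : Type} [Group G] (D : Subgroup G) (A : Subgroup (MulAut G))
    (h : ∀ σ ∈ A, ∀ g, σ g ∈ D ↔ g ∈ D) :
    A →* MulAut (Subgroup.normalizer (D : Set G)) where
  toFun σ := rs D σ.1 (h σ.1 σ.2)
  map_one' := by
    ext x
    rfl
  map_mul' σ τ := by
    ext x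
    rfl

section

variable {F : Type} [Field F] {π : integralClosure ℤ ℂ →+* F} (hπ : Function.Surjective π)
  {ℓ : ℕ} [Fact ℓ.Prime] [CharP F ℓ] (H : HypF) (S9 : T_S9)
include hπ H S9

theorem irr_finite (N : Type) [Group N] [Fintype N] : (Irr N).Finite := by
  obtain ⟨fs, hfs, -⟩ := S9 N (MonoidHom.id N).range
  have h1 : Function.Injective (MonoidHom.id N) := Function.injective_id
  have h2 : extj (MonoidHom.id N) '' (Irr N) ⊆ (fs : Set (N → ℂ)) := by
    rintro _ ⟨χ, hχ, rfl⟩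
    exact Finset.mem_coe.2 ((hfs _).2 (((H.K1 N N _ h1).2.1 χ).1 hχ))
  exact ((Finset.finite_toSet fs).subset h2).of_finite_image
    (extj_inj hπ H h1).injOn

theorem finite_irr0 {N : Type} [Group N] [Fintype N] (𝔪 : Ideal (integralClosure ℤ ℂ))
    (χ : N → ℂ) (D : Subgroup N) : Finite (Irr0 ℓ 𝔪 χ D) :=
  ((irr_finite hπ H S9 N).subset (fun _ h => h.1)).to_subtype

/-- the main theorem for a class of defect groups -/
theorem main {𝓓 : (D : Type) → [Group D] → Prop}
    (hiso : ∀ (D E : Type) [Group D] [Group E], Nonempty (D ≃* E) → 𝓓 D → 𝓓 E) :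
    [∀ (G : Type) [Group G] [Fintype G] (D : Subgroup G) (χ : G → ℂ)
        (ψ : Subgroup.normalizer (D : Set G) → ℂ), Brauer ℓ (RingHom.ker π) D χ ψ → 𝓓 D →
        (Irr0 ℓ (RingHom.ker π) χ D).ncard =
          (Irr0 ℓ (RingHom.ker π) ψ (D.subgroupOf (Subgroup.normalizer (D : Set G)))).ncard,
     ∀ (G : Type) [Group G] [Fintype G] (D : Subgroup G) (χ : G → ℂ)
        (ψ : Subgroup.normalizer (D : Set G) → ℂ), Brauer ℓ (RingHom.ker π) D χ ψ → 𝓓 D →
        ∀ σ : MulAut G, Fixes (RingHom.ker π) D χ σ →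
        (¬ ℓ ∣ orderOf σ ∨ ∀ (E : Type) [Group E], 𝓓 E) →
        EquivBij ℓ (RingHom.ker π) D χ ψ σ,
     ∀ (G : Type) [Group G] [Fintype G] (D : Subgroup G) (χ : G → ℂ)
        (ψ : Subgroup.normalizer (D : Set G) → ℂ), Brauer ℓ (RingHom.ker π) D χ ψ → 𝓓 D →
        ∀ A : Subgroup (MulAut G), (∀ σ ∈ A, Fixes (RingHom.ker π) D χ σ) →
        (¬ ℓ ∣ Nat.card A ∨ ∀ (E : Type) [Group E], 𝓓 E) →
        SameOrbits ℓ (RingHom.ker π) D χ ψ A].TFAE := by
  tfae_have 1 → 2 := by
    intro hAM G _ _ D χ ψ hB hD σ hσ hc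
    have := finite_irr0 hπ H S9 (ℓ := ℓ) (RingHom.ker π) χ D
    have := finite_irr0 hπ H S9 (ℓ := ℓ) (RingHom.ker π) ψ
      (D.subgroupOf (Subgroup.normalizer (D : Set G)))
    obtain ⟨hσ', -⟩ := count hπ H hiso hAM hB hD hσ hc
    obtain ⟨f, hf⟩ := H.CY _ _ (act (ℓ := ℓ) σ hσ) (act (ℓ := ℓ) (rs D σ hσ.1) hσ') (by
      intro k
      have hk := fixes_pow hσ k
      obtain ⟨hk', h1⟩ := count hπ H hiso hAM hB hD hk
        (hc.imp (fun h h2 => h (h2.trans (orderOf_pow_dvd k))) id)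
      have e1 : {a : Irr0 ℓ (RingHom.ker π) χ D | (act σ hσ ^ k) a = a} =
          {a : Irr0 ℓ (RingHom.ker π) χ D | act (σ ^ k) hk a = a} := by
        ext a
        have h2 : (act σ hσ ^ k) a = act (σ ^ k) hk a := by
          apply Subtype.ext
          funext g
          rw [act_pow, act_apply]
        rw [Set.mem_ofPred_eq, Set.mem_ofPred_eq, h2]
      have e2 : {b : Irr0 ℓ (RingHom.ker π) ψ
            (D.subgroupOf (Subgroup.normalizer (D : Set G))) |
            (act (rs D σ hσ.1) hσ' ^ k) b = b} =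
          {b : Irr0 ℓ (RingHom.ker π) ψ (D.subgroupOf (Subgroup.normalizer (D : Set G))) |
            act (rs D (σ ^ k) hk.1) hk' b = b} := by
        ext b
        have h2 : (act (rs D σ hσ.1) hσ' ^ k) b = act (rs D (σ ^ k) hk.1) hk' b := by
          apply Subtype.ext
          funext g
          rw [act_pow, act_apply, rs_pow D σ hσ.1 k hk.1]
        rw [Set.mem_ofPred_eq, Set.mem_ofPred_eq, h2]
      rw [e1, e2]
      exact h1)
    refine ⟨f, fun a b hab x y hxy => ?_⟩
    have h1 : b = act σ hσ a := by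
      apply Subtype.ext
      funext g
      rw [act_apply]
      exact hab g
    have h2 : y = rs D σ hσ.1 x := Subtype.ext hxy
    rw [h1, hf a, act_apply, h2]
  tfae_have 1 → 3 := by
    intro hAM G _ _ D χ ψ hB hD A hA hc
    have := finite_irr0 hπ H S9 (ℓ := ℓ) (RingHom.ker π) χ D
    have := finite_irr0 hπ H S9 (ℓ := ℓ) (RingHom.ker π) ψ
      (D.subgroupOf (Subgroup.normalizer (D : Set G)))
    have : Finite A := inferInstance
    have hc' : ∀ σ ∈ A, (¬ ℓ ∣ orderOf σ ∨ ∀ (E : Type) [Group E], 𝓓 E) := by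
      intro σ hσ
      refine hc.imp (fun h h2 => h (h2.trans ?_)) id
      have := orderOf_dvd_natCard (⟨σ, hσ⟩ : A)
      rwa [Subgroup.orderOf_mk] at this
    have hst : ∀ σ ∈ A, ∀ g, σ g ∈ D ↔ g ∈ D := fun σ hσ => (hA σ hσ).1
    have hA' : ∀ σ : A, Fixes (RingHom.ker π)
        (D.subgroupOf (Subgroup.normalizer (D : Set G))) ψ (rsHom D A hst σ) := fun σ =>
      (count hπ H hiso hAM hB hD (hA σ.1 σ.2) (hc' σ.1 σ.2)).1
    have key := H.OB A _ _ (actHom (ℓ := ℓ) (χ := χ) (D := D) A A.subtype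
        (fun σ => hA σ.1 σ.2))
      (actHom (ℓ := ℓ) (χ := ψ) (D := D.subgroupOf (Subgroup.normalizer (D : Set G))) A
        (rsHom D A hst) hA') (by
        intro σ
        obtain ⟨_, h1⟩ := count hπ H hiso hAM hB hD (hA (σ⁻¹ : A).1 (σ⁻¹ : A).2)
          (hc' (σ⁻¹ : A).1 (σ⁻¹ : A).2)
        exact h1)
    unfold SameOrbits
    have e1 : (fun a b : Irr0 ℓ (RingHom.ker π) χ D =>
          ∃ σ ∈ A, ∀ g, (b : G → ℂ) g = (a : G → ℂ) (σ g)) =
        (fun a b : Irr0 ℓ (RingHom.ker π) χ D =>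
          ∃ σ : A, actHom A A.subtype (fun σ => hA σ.1 σ.2) σ a = b) := by
      funext a b
      apply propext
      constructor
      · rintro ⟨σ, hσ, h⟩
        refine ⟨⟨σ, hσ⟩⁻¹, ?_⟩
        apply Subtype.ext
        funext g
        rw [actHom_apply, inv_inv]
        exact (h g).symm
      · rintro ⟨σ, rfl⟩
        exact ⟨(σ⁻¹ : A).1, (σ⁻¹ : A).2, fun g => rfl⟩
    have e2 : (fun a b : Irr0 ℓ (RingHom.ker π) ψ
            (D.subgroupOf (Subgroup.normalizer (D : Set G))) =>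
          ∃ σ ∈ A, ∀ x y : Subgroup.normalizer (D : Set G), (y : G) = σ x →
            (b : Subgroup.normalizer (D : Set G) → ℂ) x =
              (a : Subgroup.normalizer (D : Set G) → ℂ) y) =
        (fun a b : Irr0 ℓ (RingHom.ker π) ψ
            (D.subgroupOf (Subgroup.normalizer (D : Set G))) =>
          ∃ σ : A, actHom A (rsHom D A hst) hA' σ a = b) := by
      funext a b
      apply propext
      constructor
      · rintro ⟨σ, hσ, h⟩
        refine ⟨⟨σ, hσ⟩⁻¹, ?_⟩
        apply Subtype.ext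
        funext x
        rw [actHom_apply, inv_inv]
        exact (h x _ rfl).symm
      · rintro ⟨σ, rfl⟩
        refine ⟨(σ⁻¹ : A).1, (σ⁻¹ : A).2, fun x y hxy => ?_⟩
        have h1 : rsHom D A hst σ⁻¹ x = y := Subtype.ext hxy.symm
        rw [actHom_apply, h1]
    rw [e1, e2]
    exact key
  tfae_have 2 → 1 := by
    intro h G _ _ D χ ψ hB hD
    obtain ⟨f, -⟩ := h G D χ ψ hB hD 1 (fixes_one D χ) (Or.inl (by
      rw [orderOf_one]; exact (Fact.out : ℓ.Prime).one_lt.ne' ∘ Nat.dvd_one.1))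
    rw [← Nat.card_coe_set_eq, ← Nat.card_coe_set_eq]
    exact Nat.card_congr f
  tfae_have 3 → 1 := by
    intro h G _ _ D χ ψ hB hD
    have key := h G D χ ψ hB hD ⊥ (fun σ hσ => by
        rw [Subgroup.mem_bot] at hσ
        rw [hσ]
        exact fixes_one D χ) (Or.inl (by
      rw [Subgroup.card_bot]; exact (Fact.out : ℓ.Prime).one_lt.ne' ∘ Nat.dvd_one.1))
    unfold SameOrbits at key
    have hQ : ∀ (T : Type) (r : T → T → Prop), (∀ a b, r a b → a = b) →
        Nat.card (Quot r) = Nat.card T := by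
      intro T r hr
      symm
      refine Nat.card_congr (Equiv.ofBijective (Quot.mk r) ⟨fun a b hab => ?_, Quot.exists_rep⟩)
      have := congrArg (Quot.lift id (fun a b h => hr a b h)) hab
      exact this
    rw [hQ _ _ ?_, hQ _ _ ?_] at key
    · rw [← Nat.card_coe_set_eq, ← Nat.card_coe_set_eq]
      exact key
    · rintro a b ⟨σ, hσ, h⟩
      rw [Subgroup.mem_bot] at hσ
      subst hσ
      apply Subtype.ext
      funext x
      exact (h x x rfl).symm
    · rintro a b ⟨σ, hσ, h⟩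
      rw [Subgroup.mem_bot] at hσ
      subst hσ
      apply Subtype.ext
      funext x
      exact (h x).symm
  tfae_finish

end

end Pool.Agent.H77.EA
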