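import Pool.Agent.H77.EA.Act

/-!
# Equivariant Alperin–McKay with central characters (MP_657073_al): targets, second wave

`cmp σ χ = χ ∘ σ`, `rs D σ h` is the restriction of `σ` to the normaliser of `D`
(`Pool/Agent/H77/EA/Act.lean`).
-/

open scoped Classical ComplexConjugate

namespace AMe

open AMc Pool.Agent.H77.EA

/-- the `τ`-invariant characters of height zero in the block of `χ` which lie over the (linear)
function `ν` on the central subgroup `Z` -/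
def FixC {N : Type} [Group N] [Fintype N] (ℓ : ℕ) (𝔪 : Ideal (integralClosure ℤ ℂ))
    (χ : N → ℂ) (D : Subgroup N) (τ : MulAut N) (Z : Subgroup N) (ν : N → ℂ) : Set (N → ℂ) :=
  {a | a ∈ Irr0 ℓ 𝔪 χ D ∧ (∀ g, a (τ g) = a g) ∧ ∀ z ∈ Z, a z = ν z * a 1}

/-- equivariance for all finite groups, in the form of numbers of invariant characters -/
def CountAll (ℓ : ℕ) (𝔪 : Ideal (integralClosure ℤ ℂ)) : Prop :=
  ∀ (G : Type) [Group G] [Fintype G] (D : Subgroup G) (χ : G → ℂ)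
    (ψ : Subgroup.normalizer (D : Set G) → ℂ), Brauer ℓ 𝔪 D χ ψ →
    ∀ (σ : MulAut G) (hσ : Fixes 𝔪 D χ σ),
      (FixC ℓ 𝔪 χ D σ ⊥ 1).ncard =
        (FixC ℓ 𝔪 ψ (D.subgroupOf (Subgroup.normalizer (D : Set G))) (rs D σ hσ.1) ⊥ 1).ncard

/-! ## R. `ℓ`-regular support and Galois conjugation -/

/-- RS: the `ℓ ^ k`-th power of an element of the centre is supported on `ℓ`-regular elements -/
def T_RS : Prop := ∀ (F : Type) [Field F] (ℓ : ℕ) [Fact ℓ.Prime] [CharP F ℓ]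
  (Γ : Type) [Group Γ] [Fintype Γ] (N : Subgroup Γ), ∀ z ∈ ZA F N N,
  ∃ k : ℕ, ∀ g, (z ^ (ℓ ^ k)).coeff g ≠ 0 → ¬ ℓ ∣ orderOf g

/-- GA: Galois conjugates of irreducible characters -/
def T_GA : Prop := ∀ (N : Type) [Group N] [Fintype N], ∀ a ∈ Irr N, ∀ m : ℕ,
  (Nat.card N).Coprime m → (fun g => a (g ^ m)) ∈ Irr N

/-- GB: a congruence of central characters on `ℓ`-regular elements is enough; Galois conjugates
fixing the roots of unity of order prime to `ℓ` lie in the same block -/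
def T_GB : Prop := ∀ (ℓ : ℕ) [Fact ℓ.Prime] (𝔪 : Ideal (integralClosure ℤ ℂ)), 𝔪.IsMaximal →
  (ℓ : integralClosure ℤ ℂ) ∈ 𝔪 → ∀ (N : Type) [Group N] [Fintype N],
  (∀ a ∈ Irr N, ∀ b ∈ Irr N,
    (∀ x : N, ¬ ℓ ∣ orderOf x → Cong 𝔪 (cen (MonoidHom.id N) a x) (cen (MonoidHom.id N) b x)) →
    SameBlock 𝔪 a b) ∧
  (∀ a ∈ Irr N, ∀ m : ℕ, (Nat.card N).Coprime m → (∀ g : N, ¬ ℓ ∣ orderOf g → g ^ m = g) →
    SameBlock 𝔪 a (fun g => a (g ^ m)))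

/-- GC: the numbers of characters above `ν` and `ν ^ m` -/
def T_GC : Prop := ∀ (ℓ : ℕ) [Fact ℓ.Prime] (𝔪 : Ideal (integralClosure ℤ ℂ)), 𝔪.IsMaximal →
  (ℓ : integralClosure ℤ ℂ) ∈ 𝔪 → ∀ (N : Type) [Group N] [Fintype N] (D : Subgroup N),
  ∀ χ ∈ Irr N, ∀ (τ : MulAut N) (Z : Subgroup N) (ν : N → ℂ), ν 1 = 1 →
  (∀ z ∈ Z, ∀ w ∈ Z, ν (z * w) = ν z * ν w) → ∀ m : ℕ, (Nat.card N).Coprime m →
  (∀ g : N, ¬ ℓ ∣ orderOf g → g ^ m = g) →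
  (FixC ℓ 𝔪 χ D τ Z (fun z => ν z ^ m)).ncard = (FixC ℓ 𝔪 χ D τ Z ν).ncard

/-- ZH: central characters (in the ordinary sense) -/
def T_ZH : Prop := ∀ (N : Type) [Group N] [Fintype N], ∀ a ∈ Irr N,
  ∀ z ∈ Subgroup.center N, (∀ g, a (z * g) * a 1 = a z * a g) ∧
    (a z / a 1) ^ orderOf z = 1

/-- ZP: central elements of order prime to `ℓ` -/
def T_ZP : Prop := ∀ (ℓ : ℕ) [Fact ℓ.Prime] (𝔪 : Ideal (integralClosure ℤ ℂ)), 𝔪.IsMaximal →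
  (ℓ : integralClosure ℤ ℂ) ∈ 𝔪 → ∀ (G : Type) [Group G] [Fintype G] (D : Subgroup G)
  (χ : G → ℂ) (ψ : Subgroup.normalizer (D : Set G) → ℂ), Brauer ℓ 𝔪 D χ ψ →
  ∀ z : Subgroup.normalizer (D : Set G), (z : G) ∈ Subgroup.center G → ¬ ℓ ∣ orderOf (z : G) →
  ∀ a ∈ Irr0 ℓ 𝔪 χ D, ∀ b ∈ Irr0 ℓ 𝔪 ψ (D.subgroupOf (Subgroup.normalizer (D : Set G))),
    b z * a 1 = a z * b 1

/-! ## Q. Quotients by central `ℓ`-subgroups -/

/-- BT: Brauer's first main theorem at the level of types -/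
def T_BT : Prop := ∀ (ℓ : ℕ) [Fact ℓ.Prime] (𝔪 : Ideal (integralClosure ℤ ℂ)), 𝔪.IsMaximal →
  (ℓ : integralClosure ℤ ℂ) ∈ 𝔪 → ∀ (G : Type) [Group G] [Fintype G] (D : Subgroup G),
  (∀ χ ∈ Irr G, IsDefect ℓ 𝔪 χ D → ∃ ψ, Brauer ℓ 𝔪 D χ ψ) ∧
  (∀ ψ ∈ Irr (Subgroup.normalizer (D : Set G)),
    IsDefect ℓ 𝔪 ψ (D.subgroupOf (Subgroup.normalizer (D : Set G))) →
    ∃ χ, Brauer ℓ 𝔪 D χ ψ) ∧
  (∀ χ ψ, Brauer ℓ 𝔪 D χ ψ → ∀ ψ' ∈ Irr (Subgroup.normalizer (D : Set G)),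
    (SameBlock 𝔪 ψ ψ' ↔ Corr 𝔪 (Subgroup.normalizer (D : Set G)).subtype χ ψ') ∧
    (SameBlock 𝔪 ψ ψ' → Brauer ℓ 𝔪 D χ ψ')) ∧
  (∀ χ ψ, Brauer ℓ 𝔪 D χ ψ → ∀ χ' ∈ Irr G,
    (SameBlock 𝔪 χ χ' ↔ Corr 𝔪 (Subgroup.normalizer (D : Set G)).subtype χ' ψ) ∧
    (SameBlock 𝔪 χ χ' → Brauer ℓ 𝔪 D χ' ψ))

/-- QI: inflation of irreducible characters -/
def T_QI : Prop := ∀ (G H : Type) [Group G] [Fintype G] [Group H] [Fintype H] (p : G →* H),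
  Function.Surjective p →
  (∀ a : H → ℂ, a ∈ Irr H ↔ (fun g => a (p g)) ∈ Irr G) ∧
  (∀ b ∈ Irr G, (∀ z, p z = 1 → b z = b 1) → ∃ a ∈ Irr H, b = fun g => a (p g))

/-- QN: normalisers in the quotient -/
def T_QN : Prop := ∀ (G H : Type) [Group G] [Fintype G] [Group H] [Fintype H] (p : G →* H),
  Function.Surjective p → ∀ D : Subgroup G, p.ker ≤ D →
  D.index = (D.map p).index ∧
  ∃ p' : Subgroup.normalizer (D : Set G) →*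
      Subgroup.normalizer ((D.map p : Subgroup H) : Set H),
    Function.Surjective p' ∧ (∀ x, (p' x : H) = p (x : G)) ∧
    (∀ x : Subgroup.normalizer (D : Set G), p' x = 1 ↔ p (x : G) = 1) ∧
    (D.subgroupOf (Subgroup.normalizer (D : Set G))).map p' =
      (D.map p).subgroupOf (Subgroup.normalizer ((D.map p : Subgroup H) : Set H))

/-- QB: blocks of the quotient by a central `ℓ`-subgroup -/
def T_QB : Prop := ∀ (ℓ : ℕ) [Fact ℓ.Prime] (𝔪 : Ideal (integralClosure ℤ ℂ)), 𝔪.IsMaximal →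
  (ℓ : integralClosure ℤ ℂ) ∈ 𝔪 → ∀ (G H : Type) [Group G] [Fintype G] [Group H] [Fintype H]
  (p : G →* H), Function.Surjective p → p.ker ≤ Subgroup.center G → IsPGroup ℓ p.ker →
  (∀ a ∈ Irr H, ∀ b ∈ Irr H,
    (SameBlock 𝔪 a b ↔ SameBlock 𝔪 (fun g => a (p g)) (fun g => b (p g)))) ∧
  (∀ a ∈ Irr H, ∀ D : Subgroup G, IsDefect ℓ 𝔪 (fun g => a (p g)) D →
    p.ker ≤ D ∧ IsDefect ℓ 𝔪 a (D.map p))

/-- QR: Brauer correspondence and the quotient by a central `ℓ`-subgroup -/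
def T_QR : Prop := ∀ (ℓ : ℕ) [Fact ℓ.Prime] (𝔪 : Ideal (integralClosure ℤ ℂ)), 𝔪.IsMaximal →
  (ℓ : integralClosure ℤ ℂ) ∈ 𝔪 → ∀ (G H : Type) [Group G] [Fintype G] [Group H] [Fintype H]
  (p : G →* H), Function.Surjective p → p.ker ≤ Subgroup.center G →
  ∀ D : Subgroup G, p.ker ≤ D → ∀ p' : Subgroup.normalizer (D : Set G) →*
      Subgroup.normalizer ((D.map p : Subgroup H) : Set H), Function.Surjective p' →
    (∀ x, (p' x : H) = p (x : G)) →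
  ∀ (a : H → ℂ) (b : Subgroup.normalizer ((D.map p : Subgroup H) : Set H) → ℂ),
    Corr 𝔪 (Subgroup.normalizer ((D.map p : Subgroup H) : Set H)).subtype a b →
    Corr 𝔪 (Subgroup.normalizer (D : Set G)).subtype (fun g => a (p g)) (fun x => b (p' x))

/-- QC: invariant characters whose kernel contains a central `ℓ`-subgroup -/
def T_QC : Prop := ∀ (ℓ : ℕ) [Fact ℓ.Prime] (𝔪 : Ideal (integralClosure ℤ ℂ)), 𝔪.IsMaximal →
  (ℓ : integralClosure ℤ ℂ) ∈ 𝔪 → CountAll ℓ 𝔪 → ∀ (G : Type) [Group G] [Fintype G]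
  (D : Subgroup G) (χ : G → ℂ) (ψ : Subgroup.normalizer (D : Set G) → ℂ), Brauer ℓ 𝔪 D χ ψ →
  ∀ (σ : MulAut G) (hσ : Fixes 𝔪 D χ σ) (Z : Subgroup G), Z ≤ Subgroup.center G →
  IsPGroup ℓ Z → (∀ g, σ g ∈ Z ↔ g ∈ Z) →
  (FixC ℓ 𝔪 χ D σ Z 1).ncard =
    (FixC ℓ 𝔪 ψ (D.subgroupOf (Subgroup.normalizer (D : Set G))) (rs D σ hσ.1)
      (Z.subgroupOf (Subgroup.normalizer (D : Set G))) 1).ncard

/-- CZ: invariant characters above a given character of a central `ℓ`-subgroup -/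
def T_CZ : Prop := ∀ (ℓ : ℕ) [Fact ℓ.Prime] (𝔪 : Ideal (integralClosure ℤ ℂ)), 𝔪.IsMaximal →
  (ℓ : integralClosure ℤ ℂ) ∈ 𝔪 → CountAll ℓ 𝔪 → ∀ (G : Type) [Group G] [Fintype G]
  (D : Subgroup G) (χ : G → ℂ) (ψ : Subgroup.normalizer (D : Set G) → ℂ), Brauer ℓ 𝔪 D χ ψ →
  ∀ (σ : MulAut G) (hσ : Fixes 𝔪 D χ σ) (Z : Subgroup G), Z ≤ Subgroup.center G →
  IsPGroup ℓ Z → (∀ g, σ g ∈ Z ↔ g ∈ Z) → ∀ ν : G → ℂ, ν 1 = 1 →
  (∀ z ∈ Z, ∀ w ∈ Z, ν (z * w) = ν z * ν w) → (∀ z ∈ Z, ν (σ z) = ν z) →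
  (FixC ℓ 𝔪 χ D σ Z ν).ncard =
    (FixC ℓ 𝔪 ψ (D.subgroupOf (Subgroup.normalizer (D : Set G))) (rs D σ hσ.1)
      (Z.subgroupOf (Subgroup.normalizer (D : Set G))) (fun x => ν x)).ncard

/-- CT: coloured permutations -/
def T_CYT : Prop := ∀ (A B T : Type) [Finite A] [Finite B] (α : Equiv.Perm A)
  (β : Equiv.Perm B) (c : A → T) (d : B → T) (τ : T → T), (∀ a, c (α a) = τ (c a)) →
  (∀ b, d (β b) = τ (d b)) →
  (∀ (k : ℕ) (v : T), {a | c a = v ∧ (α ^ k) a = a}.ncard =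
    {b | d b = v ∧ (β ^ k) b = b}.ncard) →
  ∃ f : A ≃ B, (∀ a, f (α a) = β (f a)) ∧ ∀ a, d (f a) = c a

end AMe
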