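import Pool.Agent.H77.EA.Main
import Pool.Agent.H77.EA.Stat2
import Pool.Agent.H77.EA.Targets2

/-!
# Equivariant Alperin–McKay (MP_657073_al): bijections preserving central characters
-/

open scoped Classical

set_option linter.unusedSectionVars false

namespace Pool.Agent.H77.EA

open AMc AMe

/-- fixed points in the subtype and in the set of functions -/
theorem fix_card {N : Type} [Group N] [Fintype N] {𝔪 : Ideal (integralClosure ℤ ℂ)} {ℓ : ℕ}
    {D : Subgroup N} {χ : N → ℂ} {τ : MulAut N} (h : Fixes 𝔪 D χ τ) (P : (N → ℂ) → Prop) :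
    {a : Irr0 ℓ 𝔪 χ D | P a ∧ act τ h a = a}.ncard =
      {a : N → ℂ | a ∈ Irr0 ℓ 𝔪 χ D ∧ (∀ g, a (τ g) = a g) ∧ P a}.ncard := by
  rw [← Set.ncard_image_of_injective _ Subtype.val_injective]
  congr 1
  ext a
  constructor
  · rintro ⟨b, ⟨h1, h2⟩, rfl⟩
    refine ⟨b.2, fun g => ?_, h1⟩
    have := congrArg (fun c : Irr0 ℓ 𝔪 χ D => c.1 g) h2
    exact this
  · rintro ⟨h1, h2, h3⟩
    refine ⟨⟨a, h1⟩, ⟨h3, ?_⟩, rfl⟩
    apply Subtype.ext
    funext g
    exact h2 g

/-- the `ℓ`-part of the centre -/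
def lz (ℓ : ℕ) (G : Type) [Group G] : Subgroup G where
  carrier := {z | z ∈ Subgroup.center G ∧ ∃ k : ℕ, z ^ (ℓ ^ k) = 1}
  mul_mem' := by
    rintro z w ⟨hz, k, hk⟩ ⟨hw, m, hm⟩
    refine ⟨Subgroup.mul_mem _ hz hw, k + m, ?_⟩
    have hc : Commute z w := by
      have := (Subgroup.mem_center_iff.1 hz) w
      exact this.symm
    rw [hc.mul_pow, pow_add, pow_mul, hk, one_pow, one_mul, mul_comm (ℓ ^ k), pow_mul, hm,
      one_pow]
  one_mem' := ⟨Subgroup.one_mem _, 0, by simp⟩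
  inv_mem' := by
    rintro z ⟨hz, k, hk⟩
    exact ⟨Subgroup.inv_mem _ hz, k, by rw [inv_pow, hk, inv_one]⟩

theorem lz_le (ℓ : ℕ) (G : Type) [Group G] : lz ℓ G ≤ Subgroup.center G := fun _ h => h.1

theorem lz_pgroup (ℓ : ℕ) (G : Type) [Group G] : IsPGroup ℓ (lz ℓ G) := by
  rintro ⟨z, hz, k, hk⟩
  exact ⟨k, Subtype.ext hk⟩

theorem center_map {G : Type} [Group G] (σ : MulAut G) {z : G}
    (hz : z ∈ Subgroup.center G) : σ z ∈ Subgroup.center G := by
  rw [Subgroup.mem_center_iff] at hz ⊢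
  intro g
  have h1 : g = σ (σ⁻¹ g) := (MulAut.apply_inv_self G σ g).symm
  rw [h1, ← map_mul, ← map_mul, hz]

theorem lz_map {ℓ : ℕ} {G : Type} [Group G] (σ : MulAut G) (g : G) :
    σ g ∈ lz ℓ G ↔ g ∈ lz ℓ G := by
  have key : ∀ (τ : MulAut G) (g : G), g ∈ lz ℓ G → τ g ∈ lz ℓ G := by
    rintro τ g ⟨hg, k, hk⟩
    exact ⟨center_map τ hg, k, by rw [← map_pow, hk, map_one]⟩
  constructor
  · intro h
    have := key σ⁻¹ _ h
    rwa [MulAut.inv_apply_self] at this
  · exact key σ g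

theorem center_le_normalizer {G : Type} [Group G] (D : Subgroup G) :
    Subgroup.center G ≤ Subgroup.normalizer (D : Set G) := by
  intro z hz
  rw [Subgroup.mem_normalizer_iff]
  intro g
  have h1 : z * g * z⁻¹ = g := by
    rw [← (Subgroup.mem_center_iff.1 hz) g]; group
  rw [h1]

/-- decomposition of central elements -/
theorem center_decomp {ℓ : ℕ} (hℓ : ℓ.Prime) {G : Type} [Group G] [Fintype G] {z : G}
    (hz : z ∈ Subgroup.center G) : ∃ x ∈ lz ℓ G, ∃ y ∈ Subgroup.center G,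
      ¬ ℓ ∣ orderOf y ∧ z = x * y := by
  have h0 : orderOf z ≠ 0 := (orderOf_pos z).ne'
  obtain ⟨k, n, hn, hk⟩ := Nat.exists_eq_pow_mul_and_not_dvd h0 ℓ hℓ.ne_one
  have hco : Nat.Coprime (ℓ ^ k) n := (Nat.Coprime.pow_left k
    ((Nat.Prime.coprime_iff_not_dvd hℓ).2 hn))
  have hbez := Nat.gcd_eq_gcd_ab (ℓ ^ k) n
  rw [hco] at hbez
  refine ⟨(z ^ n) ^ ((ℓ ^ k).gcdB n), ⟨Subgroup.zpow_mem _ (Subgroup.pow_mem _ hz _) _, k, ?_⟩,
    (z ^ (ℓ ^ k)) ^ ((ℓ ^ k).gcdA n), Subgroup.zpow_mem _ (Subgroup.pow_mem _ hz _) _, ?_, ?_⟩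
  · rw [← zpow_natCast, ← zpow_mul, mul_comm, zpow_mul, zpow_natCast, ← pow_mul,
      mul_comm n, ← hk, pow_orderOf_eq_one, one_zpow]
  · intro h
    have h1 : ((z ^ (ℓ ^ k)) ^ ((ℓ ^ k).gcdA n)) ^ n = 1 := by
      rw [← zpow_natCast, ← zpow_mul, mul_comm, zpow_mul, zpow_natCast, ← pow_mul,
        ← hk, pow_orderOf_eq_one, one_zpow]
    exact hn (h.trans (orderOf_dvd_of_pow_eq_one h1))
  · rw [← zpow_natCast z n, ← zpow_natCast z (ℓ ^ k), ← zpow_mul, ← zpow_mul, ← zpow_add]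
    have h2 : (n : ℤ) * (ℓ ^ k).gcdB n + ((ℓ ^ k : ℕ) : ℤ) * (ℓ ^ k).gcdA n = 1 := by
      rw [add_comm, ← hbez]; rfl
    rw [h2, zpow_one]

/-- the facts used for central characters -/
structure HypG : Prop extends HypF where
  A3 : T_A3
  S9 : T_S9
  ZH : T_ZH
  ZP : T_ZP
  CZ : T_CZ
  CYT : T_CYT

section

variable {F : Type} [Field F] {π : integralClosure ℤ ℂ →+* F} (hπ : Function.Surjective π)
  {ℓ : ℕ} [Fact ℓ.Prime] [CharP F ℓ] (H : HypG)
include hπ H

theorem ker_max : (RingHom.ker π).IsMaximal := RingHom.ker_isMaximal_of_surjective π hπ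

theorem ell_mem : (ℓ : integralClosure ℤ ℂ) ∈ RingHom.ker π := by
  rw [RingHom.mem_ker, map_natCast]
  exact CharP.cast_eq_zero F ℓ

theorem countAll
    (hAM : ∀ (G : Type) [Group G] [Fintype G] (D : Subgroup G) (χ : G → ℂ)
      (ψ : Subgroup.normalizer (D : Set G) → ℂ), Brauer ℓ (RingHom.ker π) D χ ψ →
      (Irr0 ℓ (RingHom.ker π) χ D).ncard =
        (Irr0 ℓ (RingHom.ker π) ψ (D.subgroupOf (Subgroup.normalizer (D : Set G)))).ncard) :
    CountAll ℓ (RingHom.ker π) := by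
  intro G _ _ D χ ψ hB σ hσ
  obtain ⟨hσ', h1⟩ := count hπ H.toHypF (𝓓 := fun _ _ => True) (fun _ _ _ _ _ _ => trivial)
    (fun G _ _ D χ ψ h _ => hAM G D χ ψ h) hB trivial hσ (Or.inr fun _ _ => trivial)
  have key : ∀ {N : Type} [Group N] [Fintype N] {D : Subgroup N} {χ : N → ℂ} {τ : MulAut N}
      (h : Fixes (RingHom.ker π) D χ τ), (FixC ℓ (RingHom.ker π) χ D τ ⊥ 1).ncard =
        {a : Irr0 ℓ (RingHom.ker π) χ D | act τ h a = a}.ncard := by
    intro N _ _ D χ τ h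
    have h2 := fix_card (ℓ := ℓ) h (fun a => ∀ z ∈ (⊥ : Subgroup N), a z = (1 : N → ℂ) z * a 1)
    rw [FixC, ← h2]
    congr 1
    ext a
    constructor
    · rintro ⟨_, h3⟩
      exact h3
    · intro h3
      refine ⟨fun z hz => ?_, h3⟩
      rw [Subgroup.mem_bot] at hz
      rw [hz, Pi.one_apply, one_mul]
  rw [key hσ, key hσ', h1]

theorem irr_one_ne {N : Type} [Group N] [Fintype N] {a : N → ℂ} (ha : a ∈ Irr N) : a 1 ≠ 0 := by
  obtain ⟨-, d, hd, h⟩ := (H.A3 N).1 a ha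
  rw [h]
  exact_mod_cast hd.ne'

/-- the linear function of `a` on central elements -/
theorem cchar_mul {N : Type} [Group N] [Fintype N] {a : N → ℂ} (ha : a ∈ Irr N) {z w : N}
    (hz : z ∈ Subgroup.center N) : a (z * w) / a 1 = a z / a 1 * (a w / a 1) := by
  have h0 := irr_one_ne hπ H ha
  have h1 := (H.ZH N a ha z hz).1 w
  field_simp
  exact h1

/-- an equivariant bijection which preserves the characters of the centre -/
theorem equivBijZ
    (hAM : ∀ (G : Type) [Group G] [Fintype G] (D : Subgroup G) (χ : G → ℂ)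
      (ψ : Subgroup.normalizer (D : Set G) → ℂ), Brauer ℓ (RingHom.ker π) D χ ψ →
      (Irr0 ℓ (RingHom.ker π) χ D).ncard =
        (Irr0 ℓ (RingHom.ker π) ψ (D.subgroupOf (Subgroup.normalizer (D : Set G)))).ncard)
    {G : Type} [Group G] [Fintype G] {D : Subgroup G} {χ : G → ℂ}
    {ψ : Subgroup.normalizer (D : Set G) → ℂ} (hB : Brauer ℓ (RingHom.ker π) D χ ψ)
    {σ : MulAut G} (hσ : Fixes (RingHom.ker π) D χ σ) :
    EquivBijZ ℓ (RingHom.ker π) D χ ψ σ := by
  have hCA := countAll hπ H hAM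
  have := finite_irr0 hπ H.toHypF H.S9 (ℓ := ℓ) (RingHom.ker π) χ D
  have := finite_irr0 hπ H.toHypF H.S9 (ℓ := ℓ) (RingHom.ker π) ψ
    (D.subgroupOf (Subgroup.normalizer (D : Set G)))
  have hcnt : ∀ k : ℕ, ∃ hk : Fixes (RingHom.ker π) D χ (σ ^ k),
      Fixes (RingHom.ker π) (D.subgroupOf (Subgroup.normalizer (D : Set G))) ψ
        (rs D (σ ^ k) hk.1) := fun k =>
    ⟨fixes_pow hσ k, (count hπ H.toHypF (𝓓 := fun _ _ => True) (fun _ _ _ _ _ _ => trivial)
      (fun G _ _ D χ ψ h _ => hAM G D χ ψ h) hB trivial (fixes_pow hσ k) (Or.inr fun _ _ => trivial)).1⟩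
  obtain ⟨hσ', -⟩ := count hπ H.toHypF (𝓓 := fun _ _ => True) (fun _ _ _ _ _ _ => trivial)
    (fun G _ _ D χ ψ h _ => hAM G D χ ψ h) hB trivial hσ (Or.inr fun _ _ => trivial)
  have hzN : ∀ z : lz ℓ G, (z : G) ∈ Subgroup.normalizer (D : Set G) := fun z =>
    center_le_normalizer D (lz_le ℓ G z.2)
  have hzc : ∀ z : Subgroup.normalizer (D : Set G), (z : G) ∈ Subgroup.center G →
      z ∈ Subgroup.center (Subgroup.normalizer (D : Set G)) := by
    intro z hz
    rw [Subgroup.mem_center_iff] at hz ⊢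
    intro g
    exact Subtype.ext (hz g)
  obtain ⟨f, hf1, hf2⟩ := H.CYT (Irr0 ℓ (RingHom.ker π) χ D)
    (Irr0 ℓ (RingHom.ker π) ψ (D.subgroupOf (Subgroup.normalizer (D : Set G))))
    (lz ℓ G → ℂ) (act σ hσ) (act (rs D σ hσ.1) hσ')
    (fun a z => a.1 (z : G) / a.1 1) (fun b z => b.1 ⟨z, hzN z⟩ / b.1 1)
    (fun v z => v ⟨σ z, (lz_map σ (z : G)).2 z.2⟩)
    (by
      intro a
      funext z
      show a.1 (σ z) / a.1 (σ 1) = a.1 (σ z) / a.1 1
      rw [map_one])
    (by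
      intro b
      funext z
      show b.1 (rs D σ hσ.1 ⟨z, hzN z⟩) / b.1 (rs D σ hσ.1 1) = _
      rw [map_one]
      rfl)
    (by
      intro k v
      obtain ⟨hk, hk'⟩ := hcnt k
      have e1 : ∀ a : Irr0 ℓ (RingHom.ker π) χ D, (act σ hσ ^ k) a = act (σ ^ k) hk a := by
        intro a
        apply Subtype.ext
        funext g
        rw [act_pow, act_apply]
      have e2 : ∀ b : Irr0 ℓ (RingHom.ker π) ψ
          (D.subgroupOf (Subgroup.normalizer (D : Set G))),
          (act (rs D σ hσ.1) hσ' ^ k) b = act (rs D (σ ^ k) hk.1) hk' b := by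
        intro b
        apply Subtype.ext
        funext g
        rw [act_pow, act_apply, rs_pow D σ hσ.1 k hk.1]
      simp only [e1, e2]
      by_cases hv : v 1 = 1 ∧ (∀ z w : lz ℓ G, v (z * w) = v z * v w) ∧
          ∀ z : lz ℓ G, v ⟨(σ ^ k) z, (lz_map (σ ^ k) (z : G)).2 z.2⟩ = v z
      · obtain ⟨hv1, hv2, hv3⟩ := hv
        obtain ⟨ν, hν⟩ : ∃ ν : G → ℂ, ∀ z : lz ℓ G, ν z = v z :=
          ⟨fun g => if h : g ∈ lz ℓ G then v ⟨g, h⟩ else 0, fun z => by
            simp only [dif_pos z.2]⟩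
        have key := H.CZ ℓ (RingHom.ker π) (ker_max hπ H) (ell_mem hπ H) hCA G D χ ψ hB (σ ^ k)
          hk (lz ℓ G) (lz_le ℓ G) (lz_pgroup ℓ G) (lz_map (σ ^ k)) ν
          (by rw [← hv1]; exact hν 1)
          (by
            intro z hz w hw
            have := hν (⟨z, hz⟩ * ⟨w, hw⟩)
            rw [hv2] at this
            rw [← hν, ← hν] at this
            exact this)
          (by
            intro z hz
            have := hv3 ⟨z, hz⟩
            rw [← hν, ← hν] at this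
            exact this)
        rw [FixC, FixC, ← fix_card (ℓ := ℓ) hk (fun a => ∀ z ∈ lz ℓ G, a z = ν z * a 1),
          ← fix_card (ℓ := ℓ) hk' (fun b => ∀ z ∈ (lz ℓ G).subgroupOf
            (Subgroup.normalizer (D : Set G)), b z = ν z * b 1)] at key
        have c1 : {a : Irr0 ℓ (RingHom.ker π) χ D |
            (fun z : lz ℓ G => a.1 (z : G) / a.1 1) = v ∧ act (σ ^ k) hk a = a} =
            {a : Irr0 ℓ (RingHom.ker π) χ D |
              (∀ z ∈ lz ℓ G, a.1 z = ν z * a.1 1) ∧ act (σ ^ k) hk a = a} := by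
          ext a
          have h0 := irr_one_ne hπ H a.2.1
          refine and_congr_left fun _ => ⟨fun h z hz => ?_, fun h => ?_⟩
          · have := congrFun h ⟨z, hz⟩
            rw [← hν] at this
            rw [← this]
            field_simp
          · funext z
            rw [← hν, h z z.2]
            field_simp
        have c2 : {b : Irr0 ℓ (RingHom.ker π) ψ
              (D.subgroupOf (Subgroup.normalizer (D : Set G))) |
            (fun z : lz ℓ G => b.1 ⟨z, hzN z⟩ / b.1 1) = v ∧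
              act (rs D (σ ^ k) hk.1) hk' b = b} =
            {b : Irr0 ℓ (RingHom.ker π) ψ
              (D.subgroupOf (Subgroup.normalizer (D : Set G))) |
              (∀ z ∈ (lz ℓ G).subgroupOf (Subgroup.normalizer (D : Set G)),
                b.1 z = ν z * b.1 1) ∧ act (rs D (σ ^ k) hk.1) hk' b = b} := by
          ext b
          have h0 := irr_one_ne hπ H b.2.1
          refine and_congr_left fun _ => ⟨fun h z hz => ?_, fun h => ?_⟩
          · have := congrFun h ⟨z, hz⟩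
            rw [← hν] at this
            show b.1 z = ν z * b.1 1
            rw [← this]
            field_simp
          · funext z
            rw [← hν, h ⟨z, hzN z⟩ z.2]
            field_simp
        rw [c1, c2]
        exact key
      · have c1 : {a : Irr0 ℓ (RingHom.ker π) χ D |
            (fun z : lz ℓ G => a.1 (z : G) / a.1 1) = v ∧ act (σ ^ k) hk a = a} = ∅ := by
          rw [Set.eq_empty_iff_forall_notMem]
          rintro a ⟨h, h2⟩
          apply hv
          have h0 := irr_one_ne hπ H a.2.1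
          rw [← h]
          refine ⟨div_self h0, fun z w => cchar_mul hπ H a.2.1 (lz_le ℓ G z.2), fun z => ?_⟩
          have h3 := congrArg (fun c : Irr0 ℓ (RingHom.ker π) χ D => c.1 (z : G)) h2
          show a.1 ((σ ^ k) z) / a.1 1 = a.1 z / a.1 1
          rw [← act_apply (σ ^ k) hk a z]
          exact congrArg (· / a.1 1) h3
        have c2 : {b : Irr0 ℓ (RingHom.ker π) ψ
              (D.subgroupOf (Subgroup.normalizer (D : Set G))) |
            (fun z : lz ℓ G => b.1 ⟨z, hzN z⟩ / b.1 1) = v ∧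
              act (rs D (σ ^ k) hk.1) hk' b = b} = ∅ := by
          rw [Set.eq_empty_iff_forall_notMem]
          rintro b ⟨h, h2⟩
          apply hv
          have h0 := irr_one_ne hπ H b.2.1
          rw [← h]
          refine ⟨div_self h0, fun z w => ?_, fun z => ?_⟩
          · exact cchar_mul hπ H b.2.1 (z := ⟨z, hzN z⟩) (w := ⟨w, hzN w⟩)
              (hzc _ (lz_le ℓ G z.2))
          have h3 := congrArg (fun c : Irr0 ℓ (RingHom.ker π) ψ
              (D.subgroupOf (Subgroup.normalizer (D : Set G))) => c.1 ⟨z, hzN z⟩) h2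
          show b.1 ⟨(σ ^ k) z, _⟩ / b.1 1 = b.1 ⟨z, hzN z⟩ / b.1 1
          have h4 := act_apply (rs D (σ ^ k) hk.1) hk' b ⟨z, hzN z⟩
          rw [show (⟨(σ ^ k) z, hzN ⟨(σ ^ k) z, (lz_map (σ ^ k) (z : G)).2 z.2⟩⟩ :
            Subgroup.normalizer (D : Set G)) = rs D (σ ^ k) hk.1 ⟨z, hzN z⟩ from rfl, ← h4]
          exact congrArg (· / b.1 1) h3
        rw [c1, c2, Set.ncard_empty, Set.ncard_empty])
  refine ⟨f, fun a b hab x y hxy => ?_, fun a z hz => ?_⟩
  · have h1 : b = act σ hσ a := by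
      apply Subtype.ext
      funext g
      rw [act_apply]
      exact hab g
    have h2 : y = rs D σ hσ.1 x := Subtype.ext hxy
    rw [h1, hf1 a, act_apply, h2]
  · obtain ⟨x, hx, y, hy, hyℓ, hxy⟩ := center_decomp (Fact.out : ℓ.Prime) hz
    have h0 := irr_one_ne hπ H a.2.1
    have h0' := irr_one_ne hπ H (f a).2.1
    have hyN : y ∈ Subgroup.normalizer (D : Set G) := center_le_normalizer D hy
    have e1 : (f a).1 ⟨x, hzN ⟨x, hx⟩⟩ / (f a).1 1 = a.1 x / a.1 1 := congrFun (hf2 a) ⟨x, hx⟩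
    have e2 := H.ZP ℓ (RingHom.ker π) (ker_max hπ H) (ell_mem hπ H) G D χ ψ hB ⟨y, hyN⟩ hy hyℓ
      a.1 a.2 (f a).1 (f a).2
    have e3 : a.1 z / a.1 1 = a.1 x / a.1 1 * (a.1 y / a.1 1) := by
      rw [hxy]
      exact cchar_mul hπ H a.2.1 (lz_le ℓ G hx)
    have e4 : (f a).1 z / (f a).1 1 =
        (f a).1 ⟨x, hzN ⟨x, hx⟩⟩ / (f a).1 1 * ((f a).1 ⟨y, hyN⟩ / (f a).1 1) := by
      have hz' : z = ⟨x, hzN ⟨x, hx⟩⟩ * ⟨y, hyN⟩ := Subtype.ext hxy
      rw [hz']
      exact cchar_mul hπ H (f a).2.1 (hzc _ (lz_le ℓ G hx))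
    have e5 : (f a).1 ⟨y, hyN⟩ / (f a).1 1 = a.1 y / a.1 1 := by
      rw [div_eq_div_iff h0' h0]
      exact e2
    rw [e1, e5, ← e3, div_eq_div_iff h0' h0] at e4
    exact e4

end

end Pool.Agent.H77.EA
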